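import Pool.Agent.Lib.H51K.S1

/-!
# H51K/S2: bounds
-/

namespace H51K

open Finset

variable {Ω : Type} [Fintype Ω] {p : Ω → ℝ} {x t : Ω → ℚ}

theorem hh_nonneg (hp : IsPr p) : 0 ≤ hh p x t := H_nonneg hp _

theorem ph_nonneg (hp : IsPr p) (s : ℚ) : 0 ≤ ph p x t s := H_nonneg hp _

theorem ph_le (hp : IsPr p) (s : ℚ) : ph p x t s ≤ hh p x t :=
  H_le_of_det hp (S1_fl x t)

theorem AA_nonneg (hp : IsPr p) (s u v : ℚ) : 0 ≤ AA p x t s u v :=
  H_nonneg (VV_isPr hp s) _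

/-- `fl` of both lines determines everything; `H_VV`, `ph_nonneg`. -/
theorem AA_le (hp : IsPr p) (s u v : ℚ) : AA p x t s u v ≤ 2 * hh p x t := by
  have h1 : AA p x t s u v ≤ H (VV p x t s) (fun ω => (fl x t ω.1, fl x t ω.2)) := by
    refine H_le_of_det (VV_isPr hp s) ?_
    intro c d _ _ h
    have h1 : fl x t c.1 = fl x t d.1 := congrArg Prod.fst h
    have h2 : x c.1 = x d.1 := congrArg Prod.fst h1
    have h3 : t c.1 = t d.1 := congrArg Prod.snd h1
    have h4 : fl x t c.2 = fl x t d.2 := congrArg Prod.snd h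
    have h6 : t c.2 = t d.2 := congrArg Prod.snd h4
    simp only [yy, h2, h3, h6]
  rw [H_VV hp] at h1
  have h2 := ph_nonneg (x := x) (t := t) hp s
  linarith

theorem BB_nonneg (hp : IsPr p) (s u v : ℚ) : 0 ≤ BB p x t s u v :=
  H_nonneg (VV_isPr hp s) _

theorem BB_le (hp : IsPr p) (s u v : ℚ) : BB p x t s u v ≤ 2 * hh p x t := by
  have h1 : BB p x t s u v ≤ H (VV p x t s) (fun ω => (fl x t ω.1, fl x t ω.2)) := by
    refine H_le_of_det (VV_isPr hp s) ?_
    intro c d _ _ h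
    have h1 : fl x t c.1 = fl x t d.1 := congrArg Prod.fst h
    have h2 : x c.1 = x d.1 := congrArg Prod.fst h1
    have h3 : t c.1 = t d.1 := congrArg Prod.snd h1
    have h4 : fl x t c.2 = fl x t d.2 := congrArg Prod.snd h
    have h5 : x c.2 = x d.2 := congrArg Prod.fst h4
    have h6 : t c.2 = t d.2 := congrArg Prod.snd h4
    simp only [yy, h2, h3, h5, h6]
  rw [H_VV hp] at h1
  have h2 := ph_nonneg (x := x) (t := t) hp s
  linarith

/-- `H_pair_le`, `H_glue_fst`, `H_glue_snd`. -/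
theorem BB_le_ph (hp : IsPr p) (s u v : ℚ) :
    BB p x t s u v ≤ ph p x t (s + u) + ph p x t (s + v) := by
  have h1 := H_pair_le (VV_isPr (x := x) (t := t) hp s) (fun ω => yy x t (s + u) ω.1)
    (fun ω => yy x t (s + v) ω.2)
  have h2 : H (VV p x t s) (fun ω => yy x t (s + u) ω.1) = ph p x t (s + u) :=
    H_glue_fst hp hp (fun _ => rfl) (yy x t (s + u))
  have h3 : H (VV p x t s) (fun ω => yy x t (s + v) ω.2) = ph p x t (s + v) :=
    H_glue_snd hp hp (fun _ => rfl) (yy x t (s + v))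
  rw [h2, h3] at h1
  exact h1

theorem ZZ_nonneg (hp : IsPr p) (s τ c₁ c₃ : ℚ) : 0 ≤ ZZ p x t s τ c₁ c₃ :=
  H_nonneg (PP_isPr hp s τ) _

theorem ZZ_le (hp : IsPr p) (s τ c₁ c₃ : ℚ) : ZZ p x t s τ c₁ c₃ ≤ 3 * hh p x t := by
  have h1 : ZZ p x t s τ c₁ c₃
      ≤ H (PP p x t s τ) (fun ω => (fl x t ω.1, (fl x t ω.2.1, fl x t ω.2.2))) := by
    refine H_le_of_det (PP_isPr hp s τ) ?_
    intro c d _ _ h
    have h1 : fl x t c.1 = fl x t d.1 := congrArg Prod.fst h
    have h3 : t c.1 = t d.1 := congrArg Prod.snd h1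
    have h4 : (fl x t c.2.1, fl x t c.2.2) = (fl x t d.2.1, fl x t d.2.2) :=
      congrArg Prod.snd h
    have h5 : fl x t c.2.1 = fl x t d.2.1 := congrArg Prod.fst h4
    have h6 : fl x t c.2.2 = fl x t d.2.2 := congrArg Prod.snd h4
    have h7 : x c.2.1 = x d.2.1 := congrArg Prod.fst h5
    have h8 : t c.2.1 = t d.2.1 := congrArg Prod.snd h5
    have h9 : t c.2.2 = t d.2.2 := congrArg Prod.snd h6
    simp only [yy, h3, h7, h8, h9]
  rw [H_PP hp] at h1
  have h2 := ph_nonneg (x := x) (t := t) hp s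
  have h3 := ph_nonneg (x := x) (t := t) hp (s + τ)
  linarith

theorem FF_nonneg (hp : IsPr p) (s a b r : ℚ) : 0 ≤ FF p x t s a b r :=
  H_nonneg (CC_isPr hp s a b) _

theorem FF_le (hp : IsPr p) (s a b r : ℚ) : FF p x t s a b r ≤ 4 * hh p x t := by
  have h1 : FF p x t s a b r ≤ H (CC p x t s a b)
      (fun ω => ((fl x t ω.1.1, fl x t ω.1.2), (fl x t ω.2.1, fl x t ω.2.2))) := by
    refine H_le_of_det (CC_isPr hp s a b) ?_
    intro c d _ _ h
    have h1 : (fl x t c.1.1, fl x t c.1.2) = (fl x t d.1.1, fl x t d.1.2) :=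
      congrArg Prod.fst h
    have h2 : (fl x t c.2.1, fl x t c.2.2) = (fl x t d.2.1, fl x t d.2.2) :=
      congrArg Prod.snd h
    have h3 : fl x t c.1.1 = fl x t d.1.1 := congrArg Prod.fst h1
    have h4 : fl x t c.1.2 = fl x t d.1.2 := congrArg Prod.snd h1
    have h5 : fl x t c.2.1 = fl x t d.2.1 := congrArg Prod.fst h2
    have h6 : x c.1.1 = x d.1.1 := congrArg Prod.fst h3
    have h7 : t c.1.1 = t d.1.1 := congrArg Prod.snd h3
    have h8 : x c.1.2 = x d.1.2 := congrArg Prod.fst h4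
    have h9 : t c.1.2 = t d.1.2 := congrArg Prod.snd h4
    have h10 : x c.2.1 = x d.2.1 := congrArg Prod.fst h5
    have h11 : t c.2.1 = t d.2.1 := congrArg Prod.snd h5
    simp only [f1, f2, yy, h6, h7, h8, h9, h10, h11]
  rw [H_CC hp] at h1
  have h2 := ph_nonneg (x := x) (t := t) hp s
  have h3 := BB_nonneg (x := x) (t := t) hp s a b
  linarith

end H51K
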