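import Pool.Agent.Lib.H51K.M3
import Pool.Agent.Lib.H51K.S2

/-!
# H51K/A0: averages of the quantities of one system; bounded functions
-/

namespace H51K

open Finset

variable {Ω : Type} [Fintype Ω]

/-- The translation by the first parameter. -/
def tA : ℚˣ → ℚˣ → ℚˣ → ℚ := fun a _ _ => (a : ℚ)

/-- The translation by the second parameter. -/
def tB : ℚˣ → ℚˣ → ℚˣ → ℚ := fun _ b _ => (b : ℚ)

/-- The translation by `a + c k`. -/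
def tAC (k : ℚ) : ℚˣ → ℚˣ → ℚˣ → ℚ := fun a _ c => (a : ℚ) + (c : ℚ) * k

/-- Average of `φ`. -/
noncomputable def avf (p : Ω → ℝ) (x t : Ω → ℚ) {m n : ℕ} (σ : Fin m → ℚ) (u : Fin n → ℚˣ) :
    ℝ := E3 σ u (fun s _ _ _ => ph p x t s)

/-- Average of `A`. -/
noncomputable def avA (p : Ω → ℝ) (x t : Ω → ℚ) {m n : ℕ} (σ : Fin m → ℚ) (u : Fin n → ℚˣ) :
    ℝ := E3 σ u (fun s a b _ => AA p x t s a b)

/-- Average of `B`. -/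
noncomputable def avB (p : Ω → ℝ) (x t : Ω → ℚ) {m n : ℕ} (σ : Fin m → ℚ) (u : Fin n → ℚˣ) :
    ℝ := E3 σ u (fun s a b _ => BB p x t s a b)

/-- Average of `Z`; `τ = a`, `c₁ = b`, `c₃ = c`. -/
noncomputable def avZ (p : Ω → ℝ) (x t : Ω → ℚ) {m n : ℕ} (σ : Fin m → ℚ) (u : Fin n → ℚˣ) :
    ℝ := E3 σ u (fun s a b c => ZZ p x t s a b c)

/-- Average of `F_r`. -/
noncomputable def avF (p : Ω → ℝ) (x t : Ω → ℚ) {m n : ℕ} (σ : Fin m → ℚ) (u : Fin n → ℚˣ)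
    (r : ℚ) : ℝ := E3 σ u (fun s a b _ => FF p x t s a b r)

variable {p : Ω → ℝ} {x t : Ω → ℚ} {K : Finset ℚˣ} {T : Finset (ℚˣ → ℚˣ → ℚˣ → ℚ)}
  {δ : ℝ} {m n : ℕ} {σ : Fin m → ℚ} {u : Fin n → ℚˣ}

/-- `Good.tra` for `φ`: `|E φ(s + T₀) - E φ(s)| ≤ δ h`. -/
theorem av_ph_tra (hp : IsPr p) (hG : Good K T δ σ u) {T₀ : ℚˣ → ℚˣ → ℚˣ → ℚ} (hT : T₀ ∈ T) :
    |E3 σ u (fun s a b c => ph p x t (s + T₀ a b c)) - avf p x t σ u| ≤ δ * hh p x t :=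
  hG.tra (fun s _ _ _ => ph p x t s) (hh p x t)
    (fun s _ _ _ => by rw [abs_of_nonneg (ph_nonneg hp s)]; exact ph_le hp s) T₀ hT

/-- `Good.dil` for `A`: dilations of both arguments by `κ₁, κ₂ ∈ K` (third factor `1 ∈ K`). -/
theorem av_AA_dil (hp : IsPr p) (hG : Good K T δ σ u) (h1 : (1 : ℚˣ) ∈ K) {κ₁ κ₂ : ℚˣ}
    (hκ₁ : κ₁ ∈ K) (hκ₂ : κ₂ ∈ K) :
    |E3 σ u (fun s a b _ => AA p x t s ((κ₁ : ℚ) * a) ((κ₂ : ℚ) * b)) - avA p x t σ u|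
      ≤ δ * (2 * hh p x t) := by
  have h := hG.dil (fun s a b _ => AA p x t s a b) (2 * hh p x t)
    (fun s a b _ => by rw [abs_of_nonneg (AA_nonneg hp s a b)]; exact AA_le hp s a b)
    κ₁ hκ₁ κ₂ hκ₂ 1 h1
  simp only [Units.val_mul] at h
  exact h

/-- `Good.dil` for `B`. -/
theorem av_BB_dil (hp : IsPr p) (hG : Good K T δ σ u) (h1 : (1 : ℚˣ) ∈ K) {κ₁ κ₂ : ℚˣ}
    (hκ₁ : κ₁ ∈ K) (hκ₂ : κ₂ ∈ K) :
    |E3 σ u (fun s a b _ => BB p x t s ((κ₁ : ℚ) * a) ((κ₂ : ℚ) * b)) - avB p x t σ u|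
      ≤ δ * (2 * hh p x t) := by
  have h := hG.dil (fun s a b _ => BB p x t s a b) (2 * hh p x t)
    (fun s a b _ => by rw [abs_of_nonneg (BB_nonneg hp s a b)]; exact BB_le hp s a b)
    κ₁ hκ₁ κ₂ hκ₂ 1 h1
  simp only [Units.val_mul] at h
  exact h

end H51K
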