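import Pool.Agent.Lib.H51K.S1

/-!
# H51K/P1: first inequality of P3
-/

namespace H51K

open Finset

variable {Ω : Type} [Fintype Ω] {p : Ω → ℝ} {x t : Ω → ℚ}

/-- `h + B^{s+τ}(-τ, c₃) - φ(s) ≤ Z + φ(s+τ+c₃)` in `P3(s, τ)`.

Proof. `q = y_{s+τ+c₃}` of line 3; on the support `q = y_{s+τ}(ω.2.1) + c₃ t₃` (`PP_supp`), so
`z - q = c₁ t₁`. So `(z, q)` determines `t₁`, hence line 1 (`hd`), and `q`:
`H(fl(line 1), (y_s(ω.2.1), q)) ≤ Z + H(q)` by `H_le_add` (`y_s(ω.2.1) = y_s(ω.1)`), and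
`H(q) = φ(s+τ+c₃)` (`H_glue_snd` twice). By `H_glue` (with `F₁ = fl x t`,
`F₂ = (y_s(ω.1), y_{s+τ+c₃}(ω.2))` on `V_{s+τ}`, which determines `y_s(ω.1)`):
`H(fl(line 1), (y_s(ω.2.1), q)) = h + B^{s+τ}(-τ, c₃) - φ(s)`
(`BB p x t (s+τ) (-τ) c₃` is `H` of `(yy (s+τ+(-τ)) ω.1, yy (s+τ+c₃) ω.2)`;
`s + τ + -τ = s`). -/
theorem p3_first (hp : IsPr p) (hd : Det p t x) (s τ : ℚ) {c₁ : ℚ} (hc : c₁ ≠ 0) (c₃ : ℚ) :
    hh p x t + BB p x t (s + τ) (-τ) c₃ - ph p x t s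
      ≤ ZZ p x t s τ c₁ c₃ + ph p x t (s + τ + c₃) := by
  have hV := VV_isPr (x := x) (t := t) hp (s + τ)
  have hl := PP_law (x := x) (t := t) hp s τ
  have e1 : H (PP p x t s τ) (fun ω => (fl x t ω.1, (yy x t s ω.2.1, yy x t (s + τ + c₃) ω.2.2)))
      = hh p x t + BB p x t (s + τ) (-τ) c₃ - ph p x t s := by
    have h := H_glue hp hV hl (fl x t)
      (fun ω : Ω × Ω => (yy x t s ω.1, yy x t (s + τ + c₃) ω.2))
      (by
        intro ω ω' _ _ he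
        obtain ⟨ha, hb⟩ := Prod.ext_iff.1 he
        simp only [fl] at ha hb
        simp only [yy]
        rw [ha, hb])
      (by
        intro ω ω' _ _ he
        exact (Prod.ext_iff.1 he).1)
    have h2 : BB p x t (s + τ) (-τ) c₃ =
        H (VV p x t (s + τ)) (fun ω : Ω × Ω => (yy x t s ω.1, yy x t (s + τ + c₃) ω.2)) := by
      unfold BB
      rw [add_neg_cancel_right]
    rw [h2]
    exact h
  have e2 : H (PP p x t s τ) (fun ω => yy x t (s + τ + c₃) ω.2.2) = ph p x t (s + τ + c₃) := by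
    have h := H_glue_snd hp hV hl (fun ω : Ω × Ω => yy x t (s + τ + c₃) ω.2)
    have h' := H_glue_snd hp hp (f₁ := yy x t (s + τ)) (f₂ := yy x t (s + τ)) (fun _ => rfl)
      (yy x t (s + τ + c₃))
    exact h.trans h'
  have e3 := H_le_add (PP_isPr (x := x) (t := t) hp s τ)
    (fun ω => yy x t (s + τ) ω.2.1 + c₁ * t ω.1 + c₃ * t ω.2.2)
    (fun ω => yy x t (s + τ + c₃) ω.2.2)
    (fun ω => (fl x t ω.1, (yy x t s ω.2.1, yy x t (s + τ + c₃) ω.2.2)))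
    (by
      intro ω ω' h0 h0' he
      obtain ⟨ha, hb⟩ := Prod.ext_iff.1 he
      obtain ⟨p1, p2, p3, s1, s2⟩ := PP_supp h0
      obtain ⟨q1, q2, q3, r1, r2⟩ := PP_supp h0'
      simp only [yy] at ha hb s1 s2 r1 r2
      have hc1 : c₁ * t ω.1 = c₁ * t ω'.1 := by linear_combination ha - hb - s2 + r2
      have ht : t ω.1 = t ω'.1 := mul_left_cancel₀ hc hc1
      have hx : x ω.1 = x ω'.1 := hd _ _ p1 q1 ht
      have hy : x ω.2.1 + s * t ω.2.1 = x ω'.2.1 + s * t ω'.2.1 := by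
        rw [← s1, ← r1, ht, hx]
      simp only [fl, yy]
      rw [hx, ht, hy, hb])
  rw [e1, e2] at e3
  exact e3

end H51K
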