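import Pool.Agent.Lib.H51K.A0
import Pool.Agent.Lib.H51K.P1

/-!
# H51K/A1: the first averaged inequality and the fifth
-/

namespace H51K

open Finset

variable {Ω : Type} [Fintype Ω] {p : Ω → ℝ} {x t : Ω → ℚ} {K : Finset ℚˣ}
  {T : Finset (ℚˣ → ℚˣ → ℚˣ → ℚ)} {δ : ℝ} {m n : ℕ} {σ : Fin m → ℚ} {u : Fin n → ℚˣ}

/-- (I) Average of `p3_first` with `τ = a`, `c₁ = b`, `c₃ = c`:
`E B^{s+a}(-a, c)` differs from `E B^s(-a, c)` by at most `δ 2h` (`Good.tra`, `hT1`), this from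
`E B^s(a, c)` by at most `δ 2h` (`Good.dil` with `-1`, `1`, `1`), which equals `avB`
(`E3_swap23`); `E φ(s + a + c) ≤ avf + δ h` (`hT2`). Total error `5 δ h`. -/
theorem avg_I (hp : IsPr p) (hd : Det p t x) (hδ : 0 ≤ δ) (hG : Good K T δ σ u)
    (h1 : (1 : ℚˣ) ∈ K) (hm1 : (-1 : ℚˣ) ∈ K) (hT1 : tA ∈ T)
    (hT2 : tAC 1 ∈ T) :
    hh p x t + avB p x t σ u ≤ avZ p x t σ u + 2 * avf p x t σ u + 5 * δ * hh p x t := by
  have hm := hG.hm
  have hn := hG.hn
  -- the pointwise inequality, averaged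
  have h0 : E3 σ u (fun s a b c => (hh p x t + BB p x t (s + tA a b c) (-(a : ℚ)) c)
      - ph p x t s) ≤ E3 σ u (fun s a b c => ZZ p x t s a b c + ph p x t (s + tAC 1 a b c)) := by
    apply E3_mono
    intro s a b c
    have := p3_first hp hd s (a : ℚ) (c₁ := (b : ℚ)) b.ne_zero (c : ℚ)
    simp only [tA, tAC, mul_one]
    rw [← add_assoc]
    exact this
  rw [E3_sub (g := fun s a b c => hh p x t + BB p x t (s + tA a b c) (-(a : ℚ)) c)
    (g' := fun s _ _ _ => ph p x t s),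
    E3_add (g := fun _ _ _ _ => hh p x t)
    (g' := fun s a b c => BB p x t (s + tA a b c) (-(a : ℚ)) c),
    E3_add (g := fun s a b c => ZZ p x t s a b c)
    (g' := fun s a b c => ph p x t (s + tAC 1 a b c)), E3_const σ u hm hn] at h0
  have h2 := (abs_le.1 (av_ph_tra hp hG hT2 (x := x) (t := t))).2
  have h3 := hG.tra (fun s a _ c => BB p x t s (-(a : ℚ)) c) (2 * hh p x t)
    (fun s a _ c => by
      rw [abs_of_nonneg (BB_nonneg hp s (-(a : ℚ)) c)]; exact BB_le hp s (-(a : ℚ)) c) tA hT1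
  have h4 := hG.dil (fun s a _ c => BB p x t s a c) (2 * hh p x t)
    (fun s a _ c => by rw [abs_of_nonneg (BB_nonneg hp s a c)]; exact BB_le hp s a c)
    (-1) hm1 1 h1 1 h1
  simp only [Units.val_mul, Units.val_neg, Units.val_one, neg_mul, one_mul] at h4
  have h5 : E3 σ u (fun s a _ c => BB p x t s a c) = avB p x t σ u :=
    E3_swap23 σ u (fun s a b _ => BB p x t s a b)
  have h3' := (abs_le.1 h3).1
  have h4' := (abs_le.1 h4).1
  rw [h5] at h4'
  unfold avf avZ at *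
  linarith

/-- (V) Average of `BB_le_ph`: `B^s(a,b) ≤ φ(s+a) + φ(s+b)`. -/
theorem avg_V (hp : IsPr p) (hδ : 0 ≤ δ) (hG : Good K T δ σ u)
    (hT1 : tA ∈ T) (hT3 : tB ∈ T) :
    avB p x t σ u ≤ 2 * avf p x t σ u + 2 * δ * hh p x t := by
  have h0 : avB p x t σ u ≤ E3 σ u (fun s a b c => ph p x t (s + tA a b c)
      + ph p x t (s + tB a b c)) := by
    apply E3_mono
    intro s a b c
    exact BB_le_ph hp s (a : ℚ) (b : ℚ)
  rw [E3_add (g := fun s a b c => ph p x t (s + tA a b c))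
    (g' := fun s a b c => ph p x t (s + tB a b c))] at h0
  have h2 := (abs_le.1 (av_ph_tra hp hG hT1 (x := x) (t := t))).2
  have h3 := (abs_le.1 (av_ph_tra hp hG hT3 (x := x) (t := t))).2
  linarith

end H51K
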