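import Pool.Agent.Lib.H51K.G1

/-!
# H51K/G3: images of gluings
-/

namespace H51K

open Finset

variable {Ω₁ Ω₂ Ω' γ α : Type*} [Fintype Ω₁] [Fintype Ω₂] [Fintype Ω'] {p₁ : Ω₁ → ℝ}
  {f₁ : Ω₁ → γ} {p₂ : Ω₂ → ℝ} {f₂ : Ω₂ → γ}

/-- If `(Ω', q)` is mapped to `(Ω₂, p₂)` by `π`, then the gluing with `(Ω', q)` over `f₂ ∘ π`
is mapped to the gluing with `(Ω₂, p₂)` over `f₂`. Proof: both sides at `c = (a, b)`:
`∑_{ω' : π ω' = b} [f₁ a = f₂ b] p₁ a q ω' / mass = [f₁ a = f₂ b] p₁ a p₂ b / mass`. -/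
theorem mass_glue_map (q : Ω' → ℝ) (π : Ω' → Ω₂) (hq : ∀ b, p₂ b = mass q π b)
    (c : Ω₁ × Ω₂) :
    glue p₁ f₁ p₂ f₂ c
      = mass (glue p₁ f₁ q (fun ω => f₂ (π ω))) (fun ω => (ω.1, π ω.2)) c := by
  classical
  obtain ⟨a, b⟩ := c
  have e1 : mass (glue p₁ f₁ q (fun ω => f₂ (π ω))) (fun ω => (ω.1, π ω.2)) (a, b)
      = ∑ b', if π b' = b then glue p₁ f₁ q (fun ω => f₂ (π ω)) (a, b') else 0 := by
    unfold mass
    rw [Fintype.sum_prod_type]
    rw [Finset.sum_eq_single a]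
    · refine Finset.sum_congr rfl (fun b' _ => ?_)
      by_cases h : π b' = b
      · simp [h]
      · simp [h]
    · intro a' _ ha
      refine Finset.sum_eq_zero (fun b' _ => ?_)
      simp [ha]
    · intro h
      exact absurd (Finset.mem_univ a) h
  rw [e1]
  have e2 : ∀ b', (if π b' = b then glue p₁ f₁ q (fun ω => f₂ (π ω)) (a, b') else 0)
      = (if f₁ a = f₂ b then p₁ a / mass p₁ f₁ (f₁ a) else 0)
        * (if π b' = b then q b' else 0) := by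
    intro b'
    by_cases h : π b' = b
    · by_cases h2 : f₁ a = f₂ b
      · have h3 : f₁ a = f₂ (π b') := by rw [h]; exact h2
        simp only [glue, h, h2, if_true]
        ring
      · simp [glue, h, h2]
    · simp [h]
  rw [Finset.sum_congr rfl (fun b' _ => e2 b'), ← Finset.mul_sum]
  have e3 : ∑ b', (if π b' = b then q b' else 0) = p₂ b := by
    rw [hq b]
    unfold mass
    rfl
  rw [e3]
  by_cases h2 : f₁ a = f₂ b
  · simp only [glue, h2, if_true]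
    ring
  · simp [glue, h2]

/-- From `H_push`. -/
theorem H_glue_map (q : Ω' → ℝ) (π : Ω' → Ω₂) (hq : ∀ b, p₂ b = mass q π b)
    (F : Ω₁ × Ω₂ → α) :
    H (glue p₁ f₁ q (fun ω => f₂ (π ω))) (fun ω => F (ω.1, π ω.2))
      = H (glue p₁ f₁ p₂ f₂) F :=
  (H_push (glue p₁ f₁ q (fun ω => f₂ (π ω))) (glue p₁ f₁ p₂ f₂) (fun ω => (ω.1, π ω.2))
    (mass_glue_map q π hq) F).symm

end H51K
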