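import Pool.Agent.Lib.H51K.K1

/-!
# H51K/K2: boxes under conditioning
-/

namespace H51K

open Finset

/-- **Conditional box.** Apply `hB` to every conditional probability `cnd p Z (Z ω)` with
`p ω ≠ 0` (a probability by `cnd_isPr`; `t` determines `x` on its support by `hd`, `cnd_supp`),
multiply by `p ω`, sum, and use `H_chain` for the functions `(x,t)`, `x`, `x + r i t`. -/
theorem BoxI.cond {l m ε : ℝ} {n : ℕ} {r : Fin n → ℚ} {w : Fin n → ℝ}
    (hB : BoxI l m ε r w) {Ω : Type} [Fintype Ω] {p : Ω → ℝ} (hp : IsPr p) (x t : Ω → ℚ)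
    {ζ : Type*} (Z : Ω → ζ) (hd : Det p (fun ω => (t ω, Z ω)) x) :
    H p (fun ω => ((x ω, t ω), Z ω)) - H p Z
      ≤ l * (H p (fun ω => (x ω, Z ω)) - H p Z)
        + m * ∑ i, w i * (H p (fun ω => (x ω + r i * t ω, Z ω)) - H p Z)
        + ε * (H p (fun ω => ((x ω, t ω), Z ω)) - H p Z) := by
  have c1 := H_chain hp (fun ω => (x ω, t ω)) Z
  have c2 := H_chain hp x Z
  have c3 : ∀ i, H p (fun ω => (x ω + r i * t ω, Z ω)) - H p Z
      = ∑ ω, p ω * H (cnd p Z (Z ω)) (fun ω' => x ω' + r i * t ω') :=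
    fun i => H_chain hp (fun ω => x ω + r i * t ω) Z
  have c4 : ∑ i, w i * (H p (fun ω => (x ω + r i * t ω, Z ω)) - H p Z)
      = ∑ ω, p ω * ∑ i, w i * H (cnd p Z (Z ω)) (fun ω' => x ω' + r i * t ω') := by
    rw [Finset.sum_congr rfl (fun i _ => by rw [c3 i, Finset.mul_sum]), Finset.sum_comm]
    refine Finset.sum_congr rfl (fun ω _ => ?_)
    rw [Finset.mul_sum]
    refine Finset.sum_congr rfl (fun i _ => ?_)
    ring
  have c1' : H p (fun ω => ((x ω, t ω), Z ω)) - H p Z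
      = ∑ ω, p ω * H (cnd p Z (Z ω)) (fun ω => (x ω, t ω)) := c1
  have c2' : H p (fun ω => (x ω, Z ω)) - H p Z = ∑ ω, p ω * H (cnd p Z (Z ω)) x := c2
  rw [c4, c1', c2', Finset.mul_sum, Finset.mul_sum, Finset.mul_sum, ← Finset.sum_add_distrib,
    ← Finset.sum_add_distrib]
  refine Finset.sum_le_sum (fun ω _ => ?_)
  by_cases h0 : p ω = 0
  · simp [h0]
  · have hm : mass p Z (Z ω) ≠ 0 := (mass_pos hp Z h0).ne'
    have hdd : Det (cnd p Z (Z ω)) t x := by
      intro a b ha hb hab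
      obtain ⟨ha1, ha2⟩ := cnd_supp ha
      obtain ⟨hb1, hb2⟩ := cnd_supp hb
      refine hd a b ha1 hb1 ?_
      simp only [Prod.mk.injEq]
      exact ⟨hab, ha2.trans hb2.symm⟩
    have key := hB Ω (cnd p Z (Z ω)) x t (cnd_isPr hp Z hm) hdd
    have h := mul_le_mul_of_nonneg_left key (hp.nonneg ω)
    refine h.trans (le_of_eq ?_)
    ring

end H51K
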