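import Pool.Agent.Lib.H51K.S1
import Pool.Agent.Lib.H51K.G3
import Pool.Agent.Lib.H51K.K2

/-!
# H51K/P2: second inequality of P3
-/

namespace H51K

open Finset

variable {Ω : Type} [Fintype Ω] {p : Ω → ℝ} {x t : Ω → ℚ}

/-- The marginal of `P3(s, τ)` on lines 1, 2 is `V_s`: for every function `F` of the pair
`H_{P3}(F(line 1, line 2)) = H_{V_s}(F)`. `H_glue_map` with `π = Prod.fst : Ω × Ω → Ω`,
`q = V_{s+τ}` (`mass_glue_fst`). -/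
theorem PP_marg (hp : IsPr p) (s τ : ℚ) {α : Type*} (F : Ω × Ω → α) :
    H (PP p x t s τ) (fun ω => F (ω.1, ω.2.1)) = H (VV p x t s) F :=
  H_glue_map (p₁ := p) (f₁ := yy x t s) (p₂ := p) (f₂ := yy x t s) (VV p x t (s + τ)) Prod.fst
    (fun b => mass_glue_fst hp hp (fun _ => rfl) b) F

/-- In `P3(s, τ)`, for `k > 1`, `c₁`, `τ` arbitrary: with `z = y_{s+τ} + c₁ t₁ + c₃ t₃`,
`q = y_{s+τ+c₃ k}` of line 3 (`= y_{s+τ} + k c₃ t₃`):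
`H(q, z) ≤ φ(s+τ+c₃ k) + A^s(c₁ k/(k-1), τ)`.
Proof: `w = y_{s+τ} + (c₁ k/(k-1)) t₁`, `z = (1/k) q + (1 - 1/k) w`, so `(q, w)` determines
`(q, z)`: `H_le_add`. On the support `y_{s+τ}(line 2) = y_s(line 1) + τ t₂`
(`y_s(line 1) = y_s(line 2)`), so `w = y_{s + c₁k/(k-1)}(line 1) + τ t₂`, a function of the
lines 1, 2, and its entropy is `A^s(c₁ k/(k-1), τ)` by `PP_marg`. -/
theorem p3_member (hp : IsPr p) (s τ c₁ c₃ : ℚ) {k : ℚ} (hk : 1 < k) :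
    H (PP p x t s τ) (fun ω => (yy x t (s + τ) ω.2.1 + k * (c₃ * t ω.2.2),
        yy x t (s + τ) ω.2.1 + c₁ * t ω.1 + c₃ * t ω.2.2))
      ≤ ph p x t (s + τ + c₃ * k) + AA p x t s (k / (k - 1) * c₁) τ := by
  have hP := PP_isPr (x := x) (t := t) hp s τ
  have hq : H (PP p x t s τ) (fun ω => yy x t (s + τ + c₃ * k) ω.2.2) =
      ph p x t (s + τ + c₃ * k) := by
    have e1 := H_glue_snd hp (VV_isPr (x := x) (t := t) hp (s + τ)) (PP_law hp s τ)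
      (fun ω : Ω × Ω => yy x t (s + τ + c₃ * k) ω.2)
    have e2 := H_glue_snd (f₁ := yy x t (s + τ)) (f₂ := yy x t (s + τ)) hp hp (fun _ => rfl)
      (yy x t (s + τ + c₃ * k))
    exact e1.trans e2
  have hw : H (PP p x t s τ) (fun ω => yy x t (s + k / (k - 1) * c₁) ω.1 + τ * t ω.2.1) =
      AA p x t s (k / (k - 1) * c₁) τ :=
    PP_marg hp s τ (fun ω : Ω × Ω => yy x t (s + k / (k - 1) * c₁) ω.1 + τ * t ω.2)
  rw [← hq, ← hw]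
  refine H_le_add hP _ _ _ ?_
  intro ω ω' h0 h0' he
  rw [Prod.mk.injEq] at he ⊢
  obtain ⟨hq', hw'⟩ := he
  obtain ⟨-, -, -, e1, e2⟩ := PP_supp h0
  obtain ⟨-, -, -, g1, g2⟩ := PP_supp h0'
  have hk0 : k ≠ 0 := by linarith
  have hk1 : k - 1 ≠ 0 := by linarith
  obtain ⟨u, hu⟩ : ∃ u, u = k / (k - 1) * c₁ := ⟨_, rfl⟩
  have hu' : (k - 1) * u = k * c₁ := by
    rw [hu]
    field_simp
  rw [← hu] at hw'
  simp only [yy] at *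
  constructor
  · linear_combination hq' + e2 - g2
  · apply mul_left_cancel₀ hk0
    linear_combination hq' + e2 - g2 + (k - 1) * hw' - (k - 1) * e1 + (k - 1) * g1 -
      (t ω.1 - t ω'.1) * hu'

/-- `c₃ t₃` and `z` determine everything. -/
theorem p2_det (hd : Det p t x) (s : ℚ) {τ c₁ c₃ : ℚ} (hτ : τ ≠ 0) (h1 : c₁ ≠ 0) (h3 : c₃ ≠ 0)
    {ω ω' : Ω × (Ω × Ω)} (h0 : PP p x t s τ ω ≠ 0) (h0' : PP p x t s τ ω' ≠ 0)
    (hT : c₃ * t ω.2.2 = c₃ * t ω'.2.2)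
    (hz : yy x t (s + τ) ω.2.1 + c₁ * t ω.1 + c₃ * t ω.2.2 =
      yy x t (s + τ) ω'.2.1 + c₁ * t ω'.1 + c₃ * t ω'.2.2) :
    (x ω.1 = x ω'.1 ∧ t ω.1 = t ω'.1) ∧ (x ω.2.1 = x ω'.2.1 ∧ t ω.2.1 = t ω'.2.1) ∧
      (x ω.2.2 = x ω'.2.2 ∧ t ω.2.2 = t ω'.2.2) := by
  obtain ⟨p1, p2, p3, e1, e2⟩ := PP_supp h0
  obtain ⟨q1, q2, q3, g1, g2⟩ := PP_supp h0'
  simp only [yy] at *
  have t3 : t ω.2.2 = t ω'.2.2 := mul_left_cancel₀ h3 hT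
  have x3 : x ω.2.2 = x ω'.2.2 := hd _ _ p3 q3 t3
  have t1 : t ω.1 = t ω'.1 := mul_left_cancel₀ h1
    (by linear_combination hz - hT - e2 + g2 - x3 - (s + τ) * t3)
  have x1 : x ω.1 = x ω'.1 := hd _ _ p1 q1 t1
  have t2 : t ω.2.1 = t ω'.2.1 := mul_left_cancel₀ hτ
    (by linear_combination e2 - g2 + x3 + (s + τ) * t3 + e1 - g1 - x1 - s * t1)
  have x2 : x ω.2.1 = x ω'.2.1 := hd _ _ p2 q2 t2
  exact ⟨⟨x1, t1⟩, ⟨x2, t2⟩, ⟨x3, t3⟩⟩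

/-- `H(P3) - Z ≤ α ∑ w_k (φ(s+τ+c₃k) + A^s(c₁k/(k-1), τ) - Z) + 3 ε h`.

Proof. `BoxI.cond` on `P3(s, τ)` for the system `(y_{s+τ}(line 2), c₃ t₃)` given `z`: given `z`,
`c₃ t₃` determines `t₃`, line 3 (`hd`), `y_{s+τ}`, then `c₁ t₁ = z - y_{s+τ} - c₃ t₃`, line 1,
`y_s`, then `τ t₂ = y_{s+τ} - y_s`, line 2. So the left side is `H(P3) - Z` (`H_PP`,
`H_eq_of_det`), each member is bounded by `p3_member`, and the error term is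
`ε (H(P3) - Z) ≤ 3 ε h`. -/
theorem p3_second (hp : IsPr p) (hd : Det p t x) {α ε : ℝ} {n : ℕ} {r : Fin n → ℚ}
    {w : Fin n → ℝ} (hα : 0 ≤ α) (hε : 0 ≤ ε) (hr : ∀ i, 1 < r i) (hw : ∀ i, 0 ≤ w i)
    (hB : BoxI 0 α ε r w) (s : ℚ) {τ c₁ c₃ : ℚ} (hτ : τ ≠ 0) (h1 : c₁ ≠ 0) (h3 : c₃ ≠ 0) :
    (3 * hh p x t - ph p x t s - ph p x t (s + τ)) - ZZ p x t s τ c₁ c₃
      ≤ α * ∑ i, w i * (ph p x t (s + τ + c₃ * r i) + AA p x t s (r i / (r i - 1) * c₁) τ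
          - ZZ p x t s τ c₁ c₃) + ε * (3 * hh p x t) := by
  have hP := PP_isPr (x := x) (t := t) hp s τ
  have hbox := hB.cond hP
    (fun ω => yy x t (s + τ) ω.2.1) (fun ω => c₃ * t ω.2.2)
    (fun ω => yy x t (s + τ) ω.2.1 + c₁ * t ω.1 + c₃ * t ω.2.2)
    (by
      intro ω ω' h0 h0' he
      rw [Prod.mk.injEq] at he
      obtain ⟨-, ⟨x2, t2⟩, -⟩ := p2_det hd s hτ h1 h3 h0 h0' he.1 he.2
      simp only [yy]
      rw [x2, t2])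
  have hfull : H (PP p x t s τ) (fun ω => ((yy x t (s + τ) ω.2.1, c₃ * t ω.2.2),
      yy x t (s + τ) ω.2.1 + c₁ * t ω.1 + c₃ * t ω.2.2)) =
      3 * hh p x t - ph p x t s - ph p x t (s + τ) := by
    rw [← H_PP hp s τ]
    refine H_eq_of_det hP ?_ ?_
    · intro ω ω' h0 h0' he
      rw [Prod.mk.injEq, Prod.mk.injEq] at he
      obtain ⟨⟨x1, t1⟩, ⟨x2, t2⟩, ⟨x3, t3⟩⟩ := p2_det hd s hτ h1 h3 h0 h0' he.1.2 he.2
      simp only [fl]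
      rw [x1, t1, x2, t2, x3, t3]
    · intro ω ω' h0 h0' he
      simp only [fl, Prod.mk.injEq] at he
      obtain ⟨⟨x1, t1⟩, ⟨x2, t2⟩, ⟨x3, t3⟩⟩ := he
      simp only [yy]
      rw [t1, x2, t2, t3]
  have hZ : H (PP p x t s τ) (fun ω => yy x t (s + τ) ω.2.1 + c₁ * t ω.1 + c₃ * t ω.2.2) =
      ZZ p x t s τ c₁ c₃ := rfl
  rw [hfull, hZ, zero_mul, zero_add] at hbox
  refine hbox.trans ?_
  have hsum : ∑ i, w i * (H (PP p x t s τ) (fun ω => (yy x t (s + τ) ω.2.1 +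
      r i * (c₃ * t ω.2.2), yy x t (s + τ) ω.2.1 + c₁ * t ω.1 + c₃ * t ω.2.2)) -
        ZZ p x t s τ c₁ c₃) ≤
      ∑ i, w i * (ph p x t (s + τ + c₃ * r i) + AA p x t s (r i / (r i - 1) * c₁) τ
          - ZZ p x t s τ c₁ c₃) := by
    refine Finset.sum_le_sum fun i _ => mul_le_mul_of_nonneg_left ?_ (hw i)
    have := p3_member (x := x) (t := t) hp s τ c₁ c₃ (hr i)
    linarith
  have hZ0 : 0 ≤ ZZ p x t s τ c₁ c₃ := H_nonneg hP _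
  have hφ : 0 ≤ ph p x t s := H_nonneg hp _
  have hφ' : 0 ≤ ph p x t (s + τ) := H_nonneg hp _
  have he : ε * (3 * hh p x t - ph p x t s - ph p x t (s + τ) - ZZ p x t s τ c₁ c₃) ≤
      ε * (3 * hh p x t) := mul_le_mul_of_nonneg_left (by linarith) hε
  have hs := mul_le_mul_of_nonneg_left hsum hα
  linarith

end H51K
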