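import Pool.Agent.Lib.H51K.A0
import Pool.Agent.Lib.H51K.P2

/-!
# H51K/A2: the second averaged inequality
-/

namespace H51K

open Finset

variable {Ω : Type} [Fintype Ω] {p : Ω → ℝ} {x t : Ω → ℚ} {K : Finset ℚˣ}
  {T : Finset (ℚˣ → ℚˣ → ℚˣ → ℚ)} {δ : ℝ} {m n : ℕ} {σ : Fin m → ℚ} {u : Fin n → ℚˣ}

/-- (II) Average of `p3_second` with `τ = a`, `c₁ = b`, `c₃ = c`: `E φ(s+a) ≤ avf + δ h`,
`E φ(s + a + c r_i) ≤ avf + δ h`, `E A^s(κ_i b, a) ≤ E A^s(b, a) + 2 δ h`
(`E3_swap12`, `Good.dil`), and `E A^s(b, a) = avA`. Weights `w_i` of sum one. -/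
theorem avg_II (hp : IsPr p) (hd : Det p t x) (hδ : 0 ≤ δ) (hG : Good K T δ σ u)
    (h1 : (1 : ℚˣ) ∈ K) (hT1 : tA ∈ T) {α ε : ℝ} (hα : 0 ≤ α)
    (hε : 0 ≤ ε) {q : ℕ} {r : Fin q → ℚ} {w : Fin q → ℝ} (hr : ∀ i, 1 < r i)
    (hw : ∀ i, 0 ≤ w i) (hw1 : ∑ i, w i = 1) (hB : BoxI 0 α ε r w)
    (hT2 : ∀ i, tAC (r i) ∈ T)
    (hK : ∀ i, ∃ κ ∈ K, ((κ : ℚˣ) : ℚ) = r i / (r i - 1)) :
    3 * hh p x t - 2 * avf p x t σ u - avZ p x t σ u
      ≤ α * (avf p x t σ u + avA p x t σ u - avZ p x t σ u)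
        + ((1 + 3 * α) * δ + 3 * ε) * hh p x t := by
  have hm := hG.hm
  have hn := hG.hn
  have hh0 : 0 ≤ hh p x t := hh_nonneg hp
  have h0 : E3 σ u (fun s a b c => (3 * hh p x t - ph p x t s - ph p x t (s + tA a b c))
      - ZZ p x t s a b c) ≤ E3 σ u (fun s a b c => α * ∑ i, w i *
        (ph p x t (s + tAC (r i) a b c) + AA p x t s (r i / (r i - 1) * (b : ℚ)) a
          - ZZ p x t s a b c) + ε * (3 * hh p x t)) := by
    apply E3_mono
    intro s a b c
    have := p3_second hp hd hα hε hr hw hB s (τ := (a : ℚ)) (c₁ := (b : ℚ)) (c₃ := (c : ℚ))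
      a.ne_zero b.ne_zero c.ne_zero
    simp only [tA, tAC, ← add_assoc]
    exact this
  have eL : E3 σ u (fun s a b c => (3 * hh p x t - ph p x t s - ph p x t (s + tA a b c))
      - ZZ p x t s a b c) = 3 * hh p x t - avf p x t σ u
        - E3 σ u (fun s a b c => ph p x t (s + tA a b c)) - avZ p x t σ u := by
    rw [E3_sub (g := fun s a b c => 3 * hh p x t - ph p x t s - ph p x t (s + tA a b c))
      (g' := fun s a b c => ZZ p x t s a b c),
      E3_sub (g := fun s _ _ _ => 3 * hh p x t - ph p x t s)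
      (g' := fun s a b c => ph p x t (s + tA a b c)),
      E3_sub (g := fun _ _ _ _ => 3 * hh p x t) (g' := fun s _ _ _ => ph p x t s),
      E3_const σ u hm hn]
    rfl
  have eR : E3 σ u (fun s a b c => α * ∑ i, w i *
        (ph p x t (s + tAC (r i) a b c) + AA p x t s (r i / (r i - 1) * (b : ℚ)) a
          - ZZ p x t s a b c) + ε * (3 * hh p x t))
      = α * ∑ i, w i * (E3 σ u (fun s a b c => ph p x t (s + tAC (r i) a b c))
        + E3 σ u (fun s a b _ => AA p x t s (r i / (r i - 1) * (b : ℚ)) a)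
        - avZ p x t σ u) + ε * (3 * hh p x t) := by
    rw [E3_add (g := fun s a b c => α * ∑ i, w i *
        (ph p x t (s + tAC (r i) a b c) + AA p x t s (r i / (r i - 1) * (b : ℚ)) a
          - ZZ p x t s a b c)) (g' := fun _ _ _ _ => ε * (3 * hh p x t)),
      E3_const σ u hm hn, E3_mul (g := fun s a b c => ∑ i, w i *
        (ph p x t (s + tAC (r i) a b c) + AA p x t s (r i / (r i - 1) * (b : ℚ)) a
          - ZZ p x t s a b c)),
      E3_sum (G := fun i s a b c => w i *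
        (ph p x t (s + tAC (r i) a b c) + AA p x t s (r i / (r i - 1) * (b : ℚ)) a
          - ZZ p x t s a b c))]
    congr 2
    apply sum_congr rfl
    intro i _
    rw [E3_mul (g := fun s a b c => ph p x t (s + tAC (r i) a b c)
          + AA p x t s (r i / (r i - 1) * (b : ℚ)) a - ZZ p x t s a b c),
      E3_sub (g := fun s a b c => ph p x t (s + tAC (r i) a b c)
          + AA p x t s (r i / (r i - 1) * (b : ℚ)) a) (g' := fun s a b c => ZZ p x t s a b c),
      E3_add (g := fun s a b c => ph p x t (s + tAC (r i) a b c))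
        (g' := fun s a b _ => AA p x t s (r i / (r i - 1) * (b : ℚ)) a)]
    rfl
  rw [eL, eR] at h0
  have h2 := (abs_le.1 (av_ph_tra hp hG hT1 (x := x) (t := t))).2
  have h3 : ∀ i, w i * (E3 σ u (fun s a b c => ph p x t (s + tAC (r i) a b c))
        + E3 σ u (fun s a b _ => AA p x t s (r i / (r i - 1) * (b : ℚ)) a)
        - avZ p x t σ u)
      ≤ w i * (avf p x t σ u + avA p x t σ u - avZ p x t σ u + 3 * δ * hh p x t) := by
    intro i
    apply mul_le_mul_of_nonneg_left _ (hw i)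
    have h4 := (abs_le.1 (av_ph_tra hp hG (hT2 i) (x := x) (t := t))).2
    obtain ⟨κ, hκ, hκ'⟩ := hK i
    have h5 := (abs_le.1 (av_AA_dil hp hG h1 hκ h1 (x := x) (t := t))).2
    have h6 : E3 σ u (fun s a b _ => AA p x t s (r i / (r i - 1) * (b : ℚ)) a)
        = E3 σ u (fun s a b _ => AA p x t s ((κ : ℚ) * a) (((1 : ℚˣ) : ℚ) * b)) := by
      rw [← E3_swap12 σ u (fun s a b _ => AA p x t s ((κ : ℚ) * a) (((1 : ℚˣ) : ℚ) * b))]
      simp only [hκ', Units.val_one, one_mul]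
    rw [h6]
    linarith
  have h7 := sum_le_sum fun i (_ : i ∈ univ) => h3 i
  rw [← sum_mul, hw1, one_mul] at h7
  have h8 := mul_le_mul_of_nonneg_left h7 hα
  nlinarith [h8, h2, h0]

end H51K
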