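import Pool.Agent.Lib.H51K.S1
import Pool.Agent.Lib.H51K.K2

/-!
# H51K/C2: the box over the line `(f₁, f₂)` of C4
-/

namespace H51K

open Finset

variable {Ω : Type} [Fintype Ω] {p : Ω → ℝ} {x t : Ω → ℚ}

omit [Fintype Ω] in
theorem c2_line {s a : ℚ} (ha : a ≠ 0) {ω ω' : Ω} (h1 : yy x t s ω = yy x t s ω')
    (h2 : yy x t (s + a) ω = yy x t (s + a) ω') : fl x t ω = fl x t ω' := by
  unfold yy at h1 h2
  have h3 : a * (t ω - t ω') = 0 := by linear_combination h2 - h1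
  have h4 : t ω = t ω' := by
    rcases mul_eq_zero.mp h3 with h | h
    · exact absurd h ha
    · exact sub_eq_zero.mp h
  have h5 : x ω = x ω' := by
    rw [h4] at h1
    exact add_right_cancel h1
  unfold fl
  rw [h4, h5]

/-- `H(w) = A^s(..)` for `w = P - k P'`. -/
theorem c2_w (hp : IsPr p) (s a b : ℚ) {k : ℚ} (hk : 1 < k) :
    H (CC p x t s a b) (fun ω => yy x t (s + a) ω.1.1 - k * yy x t (s + b) ω.1.2) =
      AA p x t s (-(1 / (k - 1)) * a) (k / (k - 1) * b) := by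
  have hV := VV_isPr (x := x) (t := t) hp s
  have e1 : H (CC p x t s a b) (fun ω => yy x t (s + a) ω.1.1 - k * yy x t (s + b) ω.1.2) =
      H (VV p x t s) (fun ω => yy x t (s + a) ω.1 - k * yy x t (s + b) ω.2) :=
    H_glue_fst hV hV (fun _ => rfl) (fun ω : Ω × Ω => yy x t (s + a) ω.1 - k * yy x t (s + b) ω.2)
  rw [e1]
  have hk1 : k - 1 ≠ 0 := by
    intro h
    linarith
  have key : ∀ ω : Ω × Ω, VV p x t s ω ≠ 0 → yy x t (s + a) ω.1 - k * yy x t (s + b) ω.2 =
      (1 - k) * (yy x t (s + -(1 / (k - 1)) * a) ω.1 + k / (k - 1) * b * t ω.2) := by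
    intro ω hω
    obtain ⟨_, _, h3⟩ := VV_supp hω
    unfold yy at h3 ⊢
    have h4 : (1 - k) * (x ω.1 + (s + -(1 / (k - 1)) * a) * t ω.1 + k / (k - 1) * b * t ω.2) =
        (1 - k) * (x ω.1 + s * t ω.1) + a * t ω.1 - k * b * t ω.2 := by
      field_simp
      ring
    rw [h4]
    linear_combination k * h3
  unfold AA
  refine H_eq_of_det hV ?_ ?_
  · intro ω ω' h1 h2 h3
    have h3' : yy x t (s + a) ω.1 - k * yy x t (s + b) ω.2 =
      yy x t (s + a) ω'.1 - k * yy x t (s + b) ω'.2 := h3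
    rw [key ω h1, key ω' h2] at h3'
    exact mul_left_cancel₀ (by intro h; apply hk1; linarith) h3'
  · intro ω ω' h1 h2 h3
    have h3' : yy x t (s + -(1 / (k - 1)) * a) ω.1 + k / (k - 1) * b * t ω.2 =
      yy x t (s + -(1 / (k - 1)) * a) ω'.1 + k / (k - 1) * b * t ω'.2 := h3
    show yy x t (s + a) ω.1 - k * yy x t (s + b) ω.2 = yy x t (s + a) ω'.1 - k * yy x t (s + b) ω'.2
    rw [key ω h1, key ω' h2, h3']

/-- The members. Write `X = y_s(line 1)`, `P = y_{s+a}(line 1)`, `P' = y_{s+b}(line 2)`,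
`X' = y_s(line 3)`; on the support `X = y_s(line 2)`, `X' = y_s(line 4)`,
`P = y_{s+a}(line 3)`, `P' = y_{s+b}(line 4)`. With slope `k > 1` and `r > 0` put
`q₁ = y_{s+(1+k)a}(line 1)`, `q₂ = y_{s+((1+k)/k)b}(line 2)`,
`q₃ = y_{s+ρ₃a}(line 3)`, `q₄ = y_{s+ρ₄b}(line 4)`, `ρ₃ = 1 + k r/(k-1)`,
`ρ₄ = (k r + k - 1)/((k-1)(r+1))`. Then
`q₁ = P + k (P - X)`, `k q₂ = (1+k) P' - X`, `(k-1) q₃ = (k r + k - 1) P - k r X'`,
`(k-1)(r+1) q₄ = (k r + k - 1) P' - r X'`,
`(1+k) f₁ = q₁ + k q₂`, `k f₂ = q₁ + (k-1) q₃`, and with `w = P - k P'`: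
`(1+k) w = q₁ - k² q₂` and `(k r + k - 1) w = (k-1) q₃ - k (k-1)(r+1) q₄`.
So `H_submod'` with `f = (q₁, q₂)`, `g = (q₃, q₄)`, `k = w`, `l = (P + k (P - X), (f₁, f₂))`
gives the claim: `H(q₁,q₂) = B^s((1+k)a, ((1+k)/k)b)` (`H_glue_fst`),
`H(q₃,q₄) = B^s(ρ₃a, ρ₄b)` (`H_glue_snd`), and `H(w) = A^s(-a/(k-1), k b/(k-1))`, because
`w = (1-k) (y_{s - a/(k-1)}(line 1) + (k b/(k-1)) t₂)` on the support. -/
theorem c4_member (hp : IsPr p) (s a b : ℚ) {k r : ℚ} (hk : 1 < k) (hr : 0 < r) :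
    H (CC p x t s a b) (fun ω => (yy x t (s + a) ω.1.1
        + k * (yy x t (s + a) ω.1.1 - yy x t s ω.1.1), (f1 x t s a b ω, f2 x t s a r ω)))
      ≤ BB p x t s ((1 + k) * a) ((1 + k) / k * b)
        + BB p x t s ((1 + k * r / (k - 1)) * a) ((k * r + k - 1) / ((k - 1) * (r + 1)) * b)
        - AA p x t s (-(1 / (k - 1)) * a) (k / (k - 1) * b) := by
  have hV := VV_isPr (x := x) (t := t) hp s
  have hC := CC_isPr (x := x) (t := t) hp s a b
  have hk0 : k ≠ 0 := by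
    intro h
    linarith
  have hk1 : k - 1 ≠ 0 := by
    intro h
    linarith
  have hk2 : 1 + k ≠ 0 := by
    intro h
    linarith
  have hr1 : r + 1 ≠ 0 := by
    intro h
    linarith
  have hkr : k * r + k - 1 ≠ 0 := by
    intro h
    nlinarith
  have e1 : H (CC p x t s a b) (fun ω => (yy x t (s + (1 + k) * a) ω.1.1,
      yy x t (s + (1 + k) / k * b) ω.1.2)) = BB p x t s ((1 + k) * a) ((1 + k) / k * b) :=
    H_glue_fst hV hV (fun _ => rfl)
      (fun ω : Ω × Ω => (yy x t (s + (1 + k) * a) ω.1, yy x t (s + (1 + k) / k * b) ω.2))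
  have e2 : H (CC p x t s a b) (fun ω => (yy x t (s + (1 + k * r / (k - 1)) * a) ω.2.1,
      yy x t (s + (k * r + k - 1) / ((k - 1) * (r + 1)) * b) ω.2.2)) =
      BB p x t s ((1 + k * r / (k - 1)) * a) ((k * r + k - 1) / ((k - 1) * (r + 1)) * b) :=
    H_glue_snd hV hV (fun _ => rfl)
      (fun ω : Ω × Ω => (yy x t (s + (1 + k * r / (k - 1)) * a) ω.1,
        yy x t (s + (k * r + k - 1) / ((k - 1) * (r + 1)) * b) ω.2))
  have e3 := c2_w (x := x) (t := t) hp s a b hk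
  -- the linear identities on the support
  have I1 : ∀ ω : (Ω × Ω) × (Ω × Ω), yy x t (s + (1 + k) * a) ω.1.1 =
      yy x t (s + a) ω.1.1 + k * (yy x t (s + a) ω.1.1 - yy x t s ω.1.1) := by
    intro ω
    unfold yy
    ring
  have I2 : ∀ ω : (Ω × Ω) × (Ω × Ω), CC p x t s a b ω ≠ 0 →
      k * yy x t (s + (1 + k) / k * b) ω.1.2 =
      (1 + k) * yy x t (s + b) ω.1.2 - yy x t s ω.1.1 := by
    intro ω hω
    obtain ⟨_, h1, _, _, _⟩ := CC_supp hω
    rw [h1]
    unfold yy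
    field_simp
    ring
  have I3 : ∀ ω : (Ω × Ω) × (Ω × Ω), CC p x t s a b ω ≠ 0 →
      (k - 1) * yy x t (s + (1 + k * r / (k - 1)) * a) ω.2.1 =
      (k * r + k - 1) * yy x t (s + a) ω.1.1 - k * r * yy x t s ω.2.1 := by
    intro ω hω
    obtain ⟨_, _, _, h1, _⟩ := CC_supp hω
    rw [h1]
    unfold yy
    field_simp
    ring
  have I4 : ∀ ω : (Ω × Ω) × (Ω × Ω), CC p x t s a b ω ≠ 0 →
      (k - 1) * (r + 1) * yy x t (s + (k * r + k - 1) / ((k - 1) * (r + 1)) * b) ω.2.2 =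
      (k * r + k - 1) * yy x t (s + b) ω.1.2 - r * yy x t s ω.2.1 := by
    intro ω hω
    obtain ⟨_, _, h1, _, h2⟩ := CC_supp hω
    rw [h1, h2]
    unfold yy
    field_simp
    ring
  have key := H_submod' hC
    (fun ω => (yy x t (s + (1 + k) * a) ω.1.1, yy x t (s + (1 + k) / k * b) ω.1.2))
    (fun ω => (yy x t (s + (1 + k * r / (k - 1)) * a) ω.2.1,
      yy x t (s + (k * r + k - 1) / ((k - 1) * (r + 1)) * b) ω.2.2))
    (fun ω => yy x t (s + a) ω.1.1 - k * yy x t (s + b) ω.1.2)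
    (fun ω => (yy x t (s + a) ω.1.1
        + k * (yy x t (s + a) ω.1.1 - yy x t s ω.1.1), (f1 x t s a b ω, f2 x t s a r ω)))
    (by
      intro ω ω' hω hω' h
      have h1 : yy x t (s + (1 + k) * a) ω.1.1 = yy x t (s + (1 + k) * a) ω'.1.1 := congrArg Prod.fst h
      have h2 : yy x t (s + (1 + k) / k * b) ω.1.2 = yy x t (s + (1 + k) / k * b) ω'.1.2 :=
        congrArg Prod.snd h
      have a1 := I1 ω
      have a2 := I2 ω hω
      have b1 := I1 ω'
      have b2 := I2 ω' hω'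
      show yy x t (s + a) ω.1.1 - k * yy x t (s + b) ω.1.2 = yy x t (s + a) ω'.1.1 - k * yy x t (s + b) ω'.1.2
      refine mul_left_cancel₀ hk2 ?_
      linear_combination (-a1) + k * a2 + b1 - k * b2 + h1 - k ^ 2 * h2)
    (by
      intro ω ω' hω hω' h
      have h3 : yy x t (s + (1 + k * r / (k - 1)) * a) ω.2.1 =
        yy x t (s + (1 + k * r / (k - 1)) * a) ω'.2.1 := congrArg Prod.fst h
      have h4 : yy x t (s + (k * r + k - 1) / ((k - 1) * (r + 1)) * b) ω.2.2 =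
        yy x t (s + (k * r + k - 1) / ((k - 1) * (r + 1)) * b) ω'.2.2 := congrArg Prod.snd h
      have a3 := I3 ω hω
      have a4 := I4 ω hω
      have b3 := I3 ω' hω'
      have b4 := I4 ω' hω'
      show yy x t (s + a) ω.1.1 - k * yy x t (s + b) ω.1.2 = yy x t (s + a) ω'.1.1 - k * yy x t (s + b) ω'.1.2
      refine mul_left_cancel₀ hkr ?_
      linear_combination (-a3) + k * a4 + b3 - k * b4 + (k - 1) * h3 - k * (k - 1) * (r + 1) * h4)
    (by
      intro ω ω' hω hω' h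
      have h1 : yy x t (s + (1 + k) * a) ω.1.1 = yy x t (s + (1 + k) * a) ω'.1.1 :=
        congrArg (fun z => z.1.1) h
      have h2 : yy x t (s + (1 + k) / k * b) ω.1.2 = yy x t (s + (1 + k) / k * b) ω'.1.2 :=
        congrArg (fun z => z.1.2) h
      have h3 : yy x t (s + (1 + k * r / (k - 1)) * a) ω.2.1 =
        yy x t (s + (1 + k * r / (k - 1)) * a) ω'.2.1 := congrArg (fun z => z.2.1) h
      have a1 := I1 ω
      have a2 := I2 ω hω
      have a3 := I3 ω hω
      have b1 := I1 ω'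
      have b2 := I2 ω' hω'
      have b3 := I3 ω' hω'
      refine Prod.ext ?_ (Prod.ext ?_ ?_)
      · show yy x t (s + a) ω.1.1 + k * (yy x t (s + a) ω.1.1 - yy x t s ω.1.1) =
          yy x t (s + a) ω'.1.1 + k * (yy x t (s + a) ω'.1.1 - yy x t s ω'.1.1)
        rw [← a1, ← b1, h1]
      · show f1 x t s a b ω = f1 x t s a b ω'
        unfold f1
        refine mul_left_cancel₀ hk2 ?_
        linear_combination (-a1) - a2 + b1 + b2 + h1 + k * h2
      · show f2 x t s a r ω = f2 x t s a r ω'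
        unfold f2
        refine mul_left_cancel₀ hk0 ?_
        linear_combination (-a1) - a3 + b1 + b3 + h1 + (k - 1) * h3)
  rw [e1, e2, e3] at key
  linarith

/-- **C4, box over `(f₁, f₂)`.** `BoxI.cond` on `C4(s, a, b)` for the system `(P, P - X)` given
`Z = (f₁, f₂)`: given `Z`, the variable `P - X = a t₁` determines line 1 (`hd`), `X`, `P`, then
`P' = f₁ - P + X`, and `r (P - X') = f₂ - 2P + X` gives `P - X' = a t₃`, so line 3, and
`P' - X = b t₂` gives line 2, `P' - X' = b t₄` gives line 4. So the left side is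
`H(C4) - F_r` (`H_CC`); members: `c4_member`; error `ε (H(C4) - F_r) ≤ ε 4 h`. -/
theorem c4_second (hp : IsPr p) (hd : Det p t x) {α ε : ℝ} {n : ℕ} {k : Fin n → ℚ}
    {w : Fin n → ℝ} (hα : 0 ≤ α) (hε : 0 ≤ ε) (hk : ∀ i, 1 < k i) (hw : ∀ i, 0 ≤ w i)
    (hB : BoxI 0 α ε k w) (s : ℚ) {a b r : ℚ} (ha : a ≠ 0) (hb : b ≠ 0) (hr : 0 < r) :
    (4 * hh p x t - 2 * ph p x t s - BB p x t s a b) - FF p x t s a b r
      ≤ α * ∑ i, w i * (BB p x t s ((1 + k i) * a) ((1 + k i) / k i * b)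
          + BB p x t s ((1 + k i * r / (k i - 1)) * a)
            ((k i * r + k i - 1) / ((k i - 1) * (r + 1)) * b)
          - AA p x t s (-(1 / (k i - 1)) * a) (k i / (k i - 1) * b) - FF p x t s a b r)
        + ε * (4 * hh p x t) := by
  have hV := VV_isPr (x := x) (t := t) hp s
  have hC := CC_isPr (x := x) (t := t) hp s a b
  have hr0 : r ≠ 0 := hr.ne'
  have key := hB.cond hC (fun ω => yy x t (s + a) ω.1.1)
    (fun ω => yy x t (s + a) ω.1.1 - yy x t s ω.1.1)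
    (fun ω => (f1 x t s a b ω, f2 x t s a r ω))
    (by
      intro ω ω' hω hω' h
      obtain ⟨⟨p1, _, _, _⟩, _, _, _, _⟩ := CC_supp hω
      obtain ⟨⟨p1', _, _, _⟩, _, _, _, _⟩ := CC_supp hω'
      have h1 : yy x t (s + a) ω.1.1 - yy x t s ω.1.1 = yy x t (s + a) ω'.1.1 - yy x t s ω'.1.1 :=
        congrArg Prod.fst h
      unfold yy at h1
      have h2 : a * (t ω.1.1 - t ω'.1.1) = 0 := by linear_combination h1
      have h3 : t ω.1.1 = t ω'.1.1 := by
        rcases mul_eq_zero.mp h2 with h | h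
        · exact absurd h ha
        · exact sub_eq_zero.mp h
      have h4 : x ω.1.1 = x ω'.1.1 := hd _ _ p1 p1' h3
      show yy x t (s + a) ω.1.1 = yy x t (s + a) ω'.1.1
      unfold yy
      rw [h3, h4])
  have eF : H (CC p x t s a b) (fun ω => (f1 x t s a b ω, f2 x t s a r ω)) = FF p x t s a b r := rfl
  have eC : H (CC p x t s a b) (fun ω => ((yy x t (s + a) ω.1.1,
      yy x t (s + a) ω.1.1 - yy x t s ω.1.1), (f1 x t s a b ω, f2 x t s a r ω))) =
      4 * hh p x t - 2 * ph p x t s - BB p x t s a b := by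
    rw [← H_CC hp s a b]
    refine H_eq_of_det hC ?_ ?_
    · intro ω ω' hω hω' h
      obtain ⟨_, s1, s2, s3, s4⟩ := CC_supp hω
      obtain ⟨_, s1', s2', s3', s4'⟩ := CC_supp hω'
      have h1 : yy x t (s + a) ω.1.1 = yy x t (s + a) ω'.1.1 := congrArg (fun z => z.1.1) h
      have h2 : yy x t (s + a) ω.1.1 - yy x t s ω.1.1 = yy x t (s + a) ω'.1.1 - yy x t s ω'.1.1 :=
        congrArg (fun z => z.1.2) h
      have h3 : f1 x t s a b ω = f1 x t s a b ω' := congrArg (fun z => z.2.1) h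
      have h4 : f2 x t s a r ω = f2 x t s a r ω' := congrArg (fun z => z.2.2) h
      have h5 : yy x t s ω.1.1 = yy x t s ω'.1.1 := by linear_combination h1 - h2
      unfold f1 at h3
      unfold f2 at h4
      have h6 : yy x t (s + b) ω.1.2 = yy x t (s + b) ω'.1.2 := by linear_combination h3 - h1 + h5
      have h7 : r * (yy x t s ω.2.1 - yy x t s ω'.2.1) = 0 := by
        linear_combination (-1) * h4 + (2 + r) * h1 - h5
      have h8 : yy x t s ω.2.1 = yy x t s ω'.2.1 := by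
        rcases mul_eq_zero.mp h7 with h | h
        · exact absurd h hr0
        · exact sub_eq_zero.mp h
      have l1 : fl x t ω.1.1 = fl x t ω'.1.1 := c2_line ha h5 h1
      have l2 : fl x t ω.1.2 = fl x t ω'.1.2 := c2_line hb (by rw [← s1, ← s1', h5]) h6
      have l3 : fl x t ω.2.1 = fl x t ω'.2.1 := c2_line ha h8 (by rw [← s3, ← s3', h1])
      have l4 : fl x t ω.2.2 = fl x t ω'.2.2 :=
        c2_line hb (by rw [← s2, ← s2', h8]) (by rw [← s4, ← s4', h6])
      show ((fl x t ω.1.1, fl x t ω.1.2), (fl x t ω.2.1, fl x t ω.2.2)) =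
        ((fl x t ω'.1.1, fl x t ω'.1.2), (fl x t ω'.2.1, fl x t ω'.2.2))
      rw [l1, l2, l3, l4]
    · intro ω ω' _ _ h
      have h1 : fl x t ω.1.1 = fl x t ω'.1.1 := congrArg (fun z => z.1.1) h
      have h2 : fl x t ω.1.2 = fl x t ω'.1.2 := congrArg (fun z => z.1.2) h
      have h3 : fl x t ω.2.1 = fl x t ω'.2.1 := congrArg (fun z => z.2.1) h
      have hy : ∀ (u u' : Ω) (c : ℚ), fl x t u = fl x t u' → yy x t c u = yy x t c u' := by
        intro u u' c hu
        unfold fl at hu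
        have g1 : x u = x u' := congrArg Prod.fst hu
        have g2 : t u = t u' := congrArg Prod.snd hu
        unfold yy
        rw [g1, g2]
      show ((yy x t (s + a) ω.1.1, yy x t (s + a) ω.1.1 - yy x t s ω.1.1),
          (f1 x t s a b ω, f2 x t s a r ω)) =
        ((yy x t (s + a) ω'.1.1, yy x t (s + a) ω'.1.1 - yy x t s ω'.1.1),
          (f1 x t s a b ω', f2 x t s a r ω'))
      unfold f1 f2
      rw [hy _ _ (s + a) h1, hy _ _ s h1, hy _ _ (s + b) h2, hy _ _ s h3]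
  have hF0 : 0 ≤ FF p x t s a b r := H_nonneg hC _
  have hph : 0 ≤ ph p x t s := H_nonneg hp _
  have hBB : 0 ≤ BB p x t s a b := H_nonneg hV _
  rw [eF, eC, zero_mul, zero_add] at key
  refine key.trans (add_le_add ?_ ?_)
  · refine mul_le_mul_of_nonneg_left (Finset.sum_le_sum fun i _ => ?_) hα
    refine mul_le_mul_of_nonneg_left ?_ (hw i)
    have h := c4_member (x := x) (t := t) hp s a b (hk i) hr
    linarith
  · refine mul_le_mul_of_nonneg_left ?_ hε
    linarith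

end H51K
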