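import Pool.Agent.Lib.H51K.A0
import Pool.Agent.Lib.H51K.C2

/-!
# H51K/A3: the third averaged inequality
-/

namespace H51K

open Finset

variable {Ω : Type} [Fintype Ω] {p : Ω → ℝ} {x t : Ω → ℚ} {K : Finset ℚˣ}
  {T : Finset (ℚˣ → ℚˣ → ℚˣ → ℚ)} {δ : ℝ} {m n : ℕ} {σ : Fin m → ℚ} {u : Fin n → ℚˣ}

/-- (III) Average of `c4_second` over `(s; a, b)`: `E B^s(κ a, κ' b) ≤ avB + 2 δ h` twice,
`E A^s(κ a, κ' b) ≥ avA - 2 δ h`. -/
theorem avg_III (hp : IsPr p) (hd : Det p t x) (hδ : 0 ≤ δ) (hG : Good K T δ σ u)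
    (h1 : (1 : ℚˣ) ∈ K) {α ε : ℝ} (hα : 0 ≤ α)
    (hε : 0 ≤ ε) {q : ℕ} {k : Fin q → ℚ} {w : Fin q → ℝ} (hk : ∀ i, 1 < k i)
    (hw : ∀ i, 0 ≤ w i) (hw1 : ∑ i, w i = 1) (hB : BoxI 0 α ε k w) {r : ℚ} (hr : 0 < r)
    (hK1 : ∀ i, ∃ κ ∈ K, ((κ : ℚˣ) : ℚ) = 1 + k i)
    (hK2 : ∀ i, ∃ κ ∈ K, ((κ : ℚˣ) : ℚ) = (1 + k i) / k i)
    (hK3 : ∀ i, ∃ κ ∈ K, ((κ : ℚˣ) : ℚ) = 1 + k i * r / (k i - 1))
    (hK4 : ∀ i, ∃ κ ∈ K, ((κ : ℚˣ) : ℚ) = (k i * r + k i - 1) / ((k i - 1) * (r + 1)))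
    (hK5 : ∀ i, ∃ κ ∈ K, ((κ : ℚˣ) : ℚ) = -(1 / (k i - 1)))
    (hK6 : ∀ i, ∃ κ ∈ K, ((κ : ℚˣ) : ℚ) = k i / (k i - 1)) :
    4 * hh p x t - 2 * avf p x t σ u - avB p x t σ u - avF p x t σ u r
      ≤ α * (2 * avB p x t σ u - avA p x t σ u - avF p x t σ u r)
        + (6 * α * δ + 4 * ε) * hh p x t := by
  have hm := hG.hm
  have hn := hG.hn
  have h0 : E3 σ u (fun s a b _ => (4 * hh p x t - 2 * ph p x t s - BB p x t s a b)
      - FF p x t s a b r) ≤ E3 σ u (fun s a b _ => α * ∑ i, w i *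
        (BB p x t s ((1 + k i) * a) ((1 + k i) / k i * b)
          + BB p x t s ((1 + k i * r / (k i - 1)) * a)
            ((k i * r + k i - 1) / ((k i - 1) * (r + 1)) * b)
          - AA p x t s (-(1 / (k i - 1)) * a) (k i / (k i - 1) * b) - FF p x t s a b r)
        + ε * (4 * hh p x t)) := by
    apply E3_mono
    intro s a b c
    exact c4_second hp hd hα hε hk hw hB s (a := (a : ℚ)) (b := (b : ℚ)) a.ne_zero b.ne_zero hr
  have eL : E3 σ u (fun s a b _ => (4 * hh p x t - 2 * ph p x t s - BB p x t s a b)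
      - FF p x t s a b r) = 4 * hh p x t - 2 * avf p x t σ u - avB p x t σ u
        - avF p x t σ u r := by
    rw [E3_sub (g := fun s a b _ => 4 * hh p x t - 2 * ph p x t s - BB p x t s a b)
      (g' := fun s a b _ => FF p x t s a b r),
      E3_sub (g := fun s _ _ _ => 4 * hh p x t - 2 * ph p x t s)
      (g' := fun s a b _ => BB p x t s a b),
      E3_sub (g := fun _ _ _ _ => 4 * hh p x t) (g' := fun s _ _ _ => 2 * ph p x t s),
      E3_const σ u hm hn, E3_mul (g := fun s _ _ _ => ph p x t s)]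
    rfl
  have eR : E3 σ u (fun s a b _ => α * ∑ i, w i *
        (BB p x t s ((1 + k i) * a) ((1 + k i) / k i * b)
          + BB p x t s ((1 + k i * r / (k i - 1)) * a)
            ((k i * r + k i - 1) / ((k i - 1) * (r + 1)) * b)
          - AA p x t s (-(1 / (k i - 1)) * a) (k i / (k i - 1) * b) - FF p x t s a b r)
        + ε * (4 * hh p x t))
      = α * ∑ i, w i * (E3 σ u (fun s a b _ =>
            BB p x t s ((1 + k i) * a) ((1 + k i) / k i * b))
          + E3 σ u (fun s a b _ => BB p x t s ((1 + k i * r / (k i - 1)) * a)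
            ((k i * r + k i - 1) / ((k i - 1) * (r + 1)) * b))
          - E3 σ u (fun s a b _ =>
            AA p x t s (-(1 / (k i - 1)) * a) (k i / (k i - 1) * b))
          - avF p x t σ u r) + ε * (4 * hh p x t) := by
    rw [E3_add (g := fun s a b _ => α * ∑ i, w i *
        (BB p x t s ((1 + k i) * a) ((1 + k i) / k i * b)
          + BB p x t s ((1 + k i * r / (k i - 1)) * a)
            ((k i * r + k i - 1) / ((k i - 1) * (r + 1)) * b)
          - AA p x t s (-(1 / (k i - 1)) * a) (k i / (k i - 1) * b) - FF p x t s a b r))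
        (g' := fun _ _ _ _ => ε * (4 * hh p x t)),
      E3_const σ u hm hn, E3_mul (g := fun s a b _ => ∑ i, w i *
        (BB p x t s ((1 + k i) * a) ((1 + k i) / k i * b)
          + BB p x t s ((1 + k i * r / (k i - 1)) * a)
            ((k i * r + k i - 1) / ((k i - 1) * (r + 1)) * b)
          - AA p x t s (-(1 / (k i - 1)) * a) (k i / (k i - 1) * b) - FF p x t s a b r)),
      E3_sum (G := fun i s a b _ => w i *
        (BB p x t s ((1 + k i) * a) ((1 + k i) / k i * b)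
          + BB p x t s ((1 + k i * r / (k i - 1)) * a)
            ((k i * r + k i - 1) / ((k i - 1) * (r + 1)) * b)
          - AA p x t s (-(1 / (k i - 1)) * a) (k i / (k i - 1) * b) - FF p x t s a b r))]
    congr 2
    apply sum_congr rfl
    intro i _
    rw [E3_mul (g := fun s a b _ => BB p x t s ((1 + k i) * a) ((1 + k i) / k i * b)
          + BB p x t s ((1 + k i * r / (k i - 1)) * a)
            ((k i * r + k i - 1) / ((k i - 1) * (r + 1)) * b)
          - AA p x t s (-(1 / (k i - 1)) * a) (k i / (k i - 1) * b) - FF p x t s a b r),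
      E3_sub (g := fun s a b _ => BB p x t s ((1 + k i) * a) ((1 + k i) / k i * b)
          + BB p x t s ((1 + k i * r / (k i - 1)) * a)
            ((k i * r + k i - 1) / ((k i - 1) * (r + 1)) * b)
          - AA p x t s (-(1 / (k i - 1)) * a) (k i / (k i - 1) * b))
        (g' := fun s a b _ => FF p x t s a b r),
      E3_sub (g := fun s a b _ => BB p x t s ((1 + k i) * a) ((1 + k i) / k i * b)
          + BB p x t s ((1 + k i * r / (k i - 1)) * a)
            ((k i * r + k i - 1) / ((k i - 1) * (r + 1)) * b))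
        (g' := fun s a b _ => AA p x t s (-(1 / (k i - 1)) * a) (k i / (k i - 1) * b)),
      E3_add (g := fun s a b _ => BB p x t s ((1 + k i) * a) ((1 + k i) / k i * b))
        (g' := fun s a b _ => BB p x t s ((1 + k i * r / (k i - 1)) * a)
            ((k i * r + k i - 1) / ((k i - 1) * (r + 1)) * b))]
    rfl
  rw [eL, eR] at h0
  have h3 : ∀ i, w i * (E3 σ u (fun s a b _ =>
            BB p x t s ((1 + k i) * a) ((1 + k i) / k i * b))
          + E3 σ u (fun s a b _ => BB p x t s ((1 + k i * r / (k i - 1)) * a)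
            ((k i * r + k i - 1) / ((k i - 1) * (r + 1)) * b))
          - E3 σ u (fun s a b _ =>
            AA p x t s (-(1 / (k i - 1)) * a) (k i / (k i - 1) * b))
          - avF p x t σ u r)
      ≤ w i * (2 * avB p x t σ u - avA p x t σ u - avF p x t σ u r + 6 * δ * hh p x t) := by
    intro i
    apply mul_le_mul_of_nonneg_left _ (hw i)
    obtain ⟨κ1, hκ1, e1⟩ := hK1 i
    obtain ⟨κ2, hκ2, e2⟩ := hK2 i
    obtain ⟨κ3, hκ3, e3⟩ := hK3 i
    obtain ⟨κ4, hκ4, e4⟩ := hK4 i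
    obtain ⟨κ5, hκ5, e5⟩ := hK5 i
    obtain ⟨κ6, hκ6, e6⟩ := hK6 i
    have f1 := (abs_le.1 (av_BB_dil hp hG h1 hκ1 hκ2 (x := x) (t := t))).2
    have f2 := (abs_le.1 (av_BB_dil hp hG h1 hκ3 hκ4 (x := x) (t := t))).2
    have f3 := (abs_le.1 (av_AA_dil hp hG h1 hκ5 hκ6 (x := x) (t := t))).1
    rw [e1, e2] at f1
    rw [e3, e4] at f2
    rw [e5, e6] at f3
    linarith
  have h7 := sum_le_sum fun i (_ : i ∈ univ) => h3 i
  rw [← sum_mul, hw1, one_mul] at h7
  have h8 := mul_le_mul_of_nonneg_left h7 hα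
  nlinarith [h8, h0]

end H51K
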