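import Pool.Agent.Lib.H51K.S1
import Pool.Agent.Lib.H51K.K2

/-!
# H51K/C1: the weighted box over the point `f₁` of C4
-/

namespace H51K

open Finset

variable {Ω : Type} [Fintype Ω] {p : Ω → ℝ} {x t : Ω → ℚ}

/-- Functions which agree on the support have the same entropy. -/
theorem c1_congr {Ω' α : Type*} [Fintype Ω'] {q : Ω' → ℝ} (hq : IsPr q) {f g : Ω' → α}
    (h : ∀ ω, q ω ≠ 0 → f ω = g ω) : H q f = H q g :=
  H_eq_of_det hq (fun ω ω' h1 h2 he => by rw [← h ω h1, ← h ω' h2, he])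
    (fun ω ω' h1 h2 he => by rw [h ω h1, h ω' h2, he])

/-- `H(f₁) = A^s(a, b)` in `C4(s, a, b)`: on the support `f₁ = y_{s+a}(line 1) + b t₂`
(`y_s(line 1) = y_s(line 2)`), a function of the first copy of `V_s` (`H_glue_fst`). -/
theorem H_f1 (hp : IsPr p) (s a b : ℚ) :
    H (CC p x t s a b) (f1 x t s a b) = AA p x t s a b := by
  have h1 : H (CC p x t s a b) (f1 x t s a b) =
      H (CC p x t s a b) (fun ω => yy x t (s + a) ω.1.1 + b * t ω.1.2) := by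
    refine c1_congr (CC_isPr hp s a b) fun ω h0 => ?_
    obtain ⟨-, e1, -, -, -⟩ := CC_supp h0
    simp only [f1, yy] at e1 ⊢
    linear_combination -e1
  rw [h1]
  exact H_glue_fst (VV_isPr hp s) (VV_isPr hp s) (fun _ => rfl)
    (fun ω : Ω × Ω => yy x t (s + a) ω.1 + b * t ω.2)

/-- `H(2P - X, f₁) = B^s(2a, 2b)`: on the support `2P - X = y_{s+2a}(line 1)` and
`2 f₁ - (2P - X) = 2P' - X = y_{s+2b}(line 2)`. -/
theorem H_cheap (hp : IsPr p) (s a b : ℚ) :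
    H (CC p x t s a b) (fun ω => (2 * yy x t (s + a) ω.1.1 - yy x t s ω.1.1, f1 x t s a b ω))
      = BB p x t s (2 * a) (2 * b) := by
  have h1 : H (CC p x t s a b)
      (fun ω => (2 * yy x t (s + a) ω.1.1 - yy x t s ω.1.1, f1 x t s a b ω)) =
      H (CC p x t s a b)
        (fun ω => (yy x t (s + 2 * a) ω.1.1, yy x t (s + 2 * b) ω.1.2)) := by
    have hval : ∀ ω, CC p x t s a b ω ≠ 0 →
        2 * yy x t (s + a) ω.1.1 - yy x t s ω.1.1 = yy x t (s + 2 * a) ω.1.1 ∧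
        2 * f1 x t s a b ω - yy x t (s + 2 * a) ω.1.1 = yy x t (s + 2 * b) ω.1.2 := by
      intro ω h0
      obtain ⟨-, e1, -, -, -⟩ := CC_supp h0
      simp only [f1, yy] at e1 ⊢
      constructor
      · ring
      · linear_combination -e1
    refine H_eq_of_det (CC_isPr hp s a b) ?_ ?_
    · intro ω ω' h1 h2 he
      obtain ⟨a1, a2⟩ := hval ω h1
      obtain ⟨b1, b2⟩ := hval ω' h2
      rw [Prod.mk.injEq] at he ⊢
      obtain ⟨c1, c2⟩ := he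
      constructor
      · rw [← a1, ← b1, c1]
      · rw [← a2, ← b2, ← a1, ← b1, c1, c2]
    · intro ω ω' h1 h2 he
      obtain ⟨a1, a2⟩ := hval ω h1
      obtain ⟨b1, b2⟩ := hval ω' h2
      rw [Prod.mk.injEq] at he ⊢
      obtain ⟨c1, c2⟩ := he
      constructor
      · rw [a1, b1, c1]
      · linarith
  rw [h1]
  exact H_glue_fst (VV_isPr hp s) (VV_isPr hp s) (fun _ => rfl)
    (fun ω : Ω × Ω => (yy x t (s + 2 * a) ω.1, yy x t (s + 2 * b) ω.2))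

/-- `f₁` and `P - X'` determine everything. -/
theorem c1_det (hd : Det p t x) (s : ℚ) {a b : ℚ} (ha : a ≠ 0) (hb : b ≠ 0)
    {ω ω' : (Ω × Ω) × (Ω × Ω)} (h0 : CC p x t s a b ω ≠ 0) (h0' : CC p x t s a b ω' ≠ 0)
    (hT : yy x t (s + a) ω.1.1 - yy x t s ω.2.1 = yy x t (s + a) ω'.1.1 - yy x t s ω'.2.1)
    (hf : f1 x t s a b ω = f1 x t s a b ω') :
    (x ω.1.1 = x ω'.1.1 ∧ t ω.1.1 = t ω'.1.1) ∧ (x ω.1.2 = x ω'.1.2 ∧ t ω.1.2 = t ω'.1.2) ∧
      (x ω.2.1 = x ω'.2.1 ∧ t ω.2.1 = t ω'.2.1) ∧ (x ω.2.2 = x ω'.2.2 ∧ t ω.2.2 = t ω'.2.2) := by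
  obtain ⟨⟨p1, p2, p3, p4⟩, e1, e2, e3, e4⟩ := CC_supp h0
  obtain ⟨⟨q1, q2, q3, q4⟩, g1, g2, g3, g4⟩ := CC_supp h0'
  simp only [f1, yy] at *
  have t3 : t ω.2.1 = t ω'.2.1 := mul_left_cancel₀ ha (by linear_combination hT - e3 + g3)
  have x3 : x ω.2.1 = x ω'.2.1 := hd _ _ p3 q3 t3
  have t2 : t ω.1.2 = t ω'.1.2 := mul_left_cancel₀ hb
    (by linear_combination hf + e1 - g1 - e3 + g3 - x3 - (s + a) * t3)
  have x2 : x ω.1.2 = x ω'.1.2 := hd _ _ p2 q2 t2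
  have t1 : t ω.1.1 = t ω'.1.1 := mul_left_cancel₀ ha
    (by linear_combination e3 - g3 + x3 + (s + a) * t3 - e1 + g1 - x2 - s * t2)
  have x1 : x ω.1.1 = x ω'.1.1 := hd _ _ p1 q1 t1
  have t4 : t ω.2.2 = t ω'.2.2 := mul_left_cancel₀ hb
    (by linear_combination -e4 + g4 + x2 + (s + b) * t2 + e2 - g2 - x3 - s * t3)
  have x4 : x ω.2.2 = x ω'.2.2 := hd _ _ p4 q4 t4
  exact ⟨⟨x1, t1⟩, ⟨x2, t2⟩, ⟨x3, t3⟩, ⟨x4, t4⟩⟩

/-- **C4, weighted box over `f₁`.** `BoxI.cond` on `C4(s, a, b)` for the system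
`(2P - X, P - X')` given `f₁ = P + P' - X`. Given `f₁`, the variable `P - X' = a t₃` (support:
`P = y_{s+a}(line 3)`) determines `t₃`, line 3 (`hd`), `P`, then `P' - X = f₁ - P = b t₂`
(`X = y_s(line 2)`), line 2, `X`, `P'`, then `P - X = a t₁`, line 1, and `P' - X' = b t₄`
(`P' = y_{s+b}(line 4)`, `X' = y_s(line 4)`), line 4. So the full variable
is determined and the left side is `H(C4) - A^s(a,b)` (`H_CC`, `H_f1`). The member of slope
`r` is `f₂`. Error: `ε (H(C4) - A) ≤ ε 4 h`. -/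
theorem c4_first (hp : IsPr p) (hd : Det p t x) {l m ε : ℝ} {n : ℕ} {r : Fin n → ℚ}
    {w : Fin n → ℝ} (hε : 0 ≤ ε) (hB : BoxI l m ε r w) (s : ℚ) {a b : ℚ} (ha : a ≠ 0)
    (hb : b ≠ 0) :
    (4 * hh p x t - 2 * ph p x t s - BB p x t s a b) - AA p x t s a b
      ≤ l * (BB p x t s (2 * a) (2 * b) - AA p x t s a b)
        + m * ∑ i, w i * (FF p x t s a b (r i) - AA p x t s a b) + ε * (4 * hh p x t) := by
  have hC := CC_isPr (x := x) (t := t) hp s a b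
  have hbox := hB.cond hC
    (fun ω => 2 * yy x t (s + a) ω.1.1 - yy x t s ω.1.1)
    (fun ω => yy x t (s + a) ω.1.1 - yy x t s ω.2.1) (f1 x t s a b)
    (by
      intro ω ω' h1 h2 he
      rw [Prod.mk.injEq] at he
      obtain ⟨⟨x1, t1⟩, -, -, -⟩ := c1_det hd s ha hb h1 h2 he.1 he.2
      simp only [yy]
      rw [x1, t1])
  have hfull : H (CC p x t s a b) (fun ω => ((2 * yy x t (s + a) ω.1.1 - yy x t s ω.1.1,
      yy x t (s + a) ω.1.1 - yy x t s ω.2.1), f1 x t s a b ω)) =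
      4 * hh p x t - 2 * ph p x t s - BB p x t s a b := by
    rw [← H_CC hp s a b]
    refine H_eq_of_det hC ?_ ?_
    · intro ω ω' h1 h2 he
      rw [Prod.mk.injEq, Prod.mk.injEq] at he
      obtain ⟨⟨x1, t1⟩, ⟨x2, t2⟩, ⟨x3, t3⟩, ⟨x4, t4⟩⟩ :=
        c1_det hd s ha hb h1 h2 he.1.2 he.2
      simp only [fl]
      rw [x1, t1, x2, t2, x3, t3, x4, t4]
    · intro ω ω' h1 h2 he
      simp only [fl, Prod.mk.injEq] at he
      obtain ⟨⟨⟨x1, t1⟩, ⟨x2, t2⟩⟩, ⟨x3, t3⟩, ⟨x4, t4⟩⟩ := he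
      simp only [yy, f1]
      rw [x1, t1, x2, t2, x3, t3]
  have hmem : ∀ i, H (CC p x t s a b) (fun ω => (2 * yy x t (s + a) ω.1.1 - yy x t s ω.1.1 +
      r i * (yy x t (s + a) ω.1.1 - yy x t s ω.2.1), f1 x t s a b ω)) =
      FF p x t s a b (r i) := by
    intro i
    refine H_eq_of_det hC ?_ ?_
    · intro ω ω' _ _ he
      rw [Prod.mk.injEq] at he ⊢
      exact ⟨he.2, he.1⟩
    · intro ω ω' _ _ he
      rw [Prod.mk.injEq] at he ⊢
      exact ⟨he.2, he.1⟩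
  simp only [hmem] at hbox
  rw [hfull, H_cheap hp s a b, H_f1 hp s a b] at hbox
  refine hbox.trans ?_
  have hA : 0 ≤ AA p x t s a b := by
    rw [← H_f1 hp s a b]
    exact H_nonneg hC _
  have hφ : 0 ≤ ph p x t s := H_nonneg hp _
  have hBB : 0 ≤ BB p x t s a b := H_nonneg (VV_isPr hp s) _
  have he : ε * (4 * hh p x t - 2 * ph p x t s - BB p x t s a b - AA p x t s a b) ≤
      ε * (4 * hh p x t) := mul_le_mul_of_nonneg_left (by linarith) hε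
  linarith

end H51K
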