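import Pool.Agent.Lib.H51K.A0
import Pool.Agent.Lib.H51K.C1

/-!
# H51K/A4: the fourth averaged inequality
-/

namespace H51K

open Finset

variable {Ω : Type} [Fintype Ω] {p : Ω → ℝ} {x t : Ω → ℚ} {K : Finset ℚˣ}
  {T : Finset (ℚˣ → ℚˣ → ℚˣ → ℚ)} {δ : ℝ} {m n : ℕ} {σ : Fin m → ℚ} {u : Fin n → ℚˣ}

/-- (IV) Average of `c4_first`: `l E B^s(2a, 2b) ≤ l avB + 2 l δ h`. -/
theorem avg_IV (hp : IsPr p) (hd : Det p t x) (hδ : 0 ≤ δ) (hG : Good K T δ σ u)
    (h1 : (1 : ℚˣ) ∈ K) {l μ ε : ℝ} (hl : 0 ≤ l)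
    (hε : 0 ≤ ε) {q : ℕ} {r : Fin q → ℚ} {w : Fin q → ℝ}
    (hw1 : ∑ i, w i = 1) (hB : BoxI l μ ε r w)
    (hK : ∃ κ ∈ K, ((κ : ℚˣ) : ℚ) = 2) :
    4 * hh p x t - 2 * avf p x t σ u - avB p x t σ u - avA p x t σ u
      ≤ l * (avB p x t σ u - avA p x t σ u)
        + μ * ((∑ i, w i * avF p x t σ u (r i)) - avA p x t σ u)
        + (2 * l * δ + 4 * ε) * hh p x t := by
  obtain ⟨κ, hκ, hκ2⟩ := hK
  have hmono := E3_mono σ u
    (fun s a b _ => (4 * hh p x t - 2 * ph p x t s - BB p x t s a b) - AA p x t s a b)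
    (fun s a b _ => l * (BB p x t s (2 * a) (2 * b) - AA p x t s a b)
        + μ * ∑ i, w i * (FF p x t s a b (r i) - AA p x t s a b) + ε * (4 * hh p x t))
    (fun s a b _ => c4_first hp hd hε hB s a.ne_zero b.ne_zero)
  have eL : E3 σ u
      (fun s a b _ => (4 * hh p x t - 2 * ph p x t s - BB p x t s a b) - AA p x t s a b)
      = 4 * hh p x t - 2 * avf p x t σ u - avB p x t σ u - avA p x t σ u := by
    rw [E3_sub σ u (fun s a b _ => 4 * hh p x t - 2 * ph p x t s - BB p x t s a b)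
        (fun s a b _ => AA p x t s a b),
      E3_sub σ u (fun s _ _ _ => 4 * hh p x t - 2 * ph p x t s) (fun s a b _ => BB p x t s a b),
      E3_sub σ u (fun _ _ _ _ => 4 * hh p x t) (fun s _ _ _ => 2 * ph p x t s),
      E3_const σ u hG.hm hG.hn, E3_mul σ u (fun s _ _ _ => ph p x t s) 2]
    rfl
  have eR : E3 σ u
      (fun s a b _ => l * (BB p x t s (2 * a) (2 * b) - AA p x t s a b)
        + μ * ∑ i, w i * (FF p x t s a b (r i) - AA p x t s a b) + ε * (4 * hh p x t))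
      = l * (E3 σ u (fun s a b _ => BB p x t s (2 * a) (2 * b)) - avA p x t σ u)
        + μ * ∑ i, w i * (avF p x t σ u (r i) - avA p x t σ u) + ε * (4 * hh p x t) := by
    rw [E3_add σ u (fun s a b _ => l * (BB p x t s (2 * a) (2 * b) - AA p x t s a b)
          + μ * ∑ i, w i * (FF p x t s a b (r i) - AA p x t s a b))
        (fun _ _ _ _ => ε * (4 * hh p x t)),
      E3_add σ u (fun s a b _ => l * (BB p x t s (2 * a) (2 * b) - AA p x t s a b))
        (fun s a b _ => μ * ∑ i, w i * (FF p x t s a b (r i) - AA p x t s a b)),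
      E3_const σ u hG.hm hG.hn,
      E3_mul σ u (fun s a b _ => BB p x t s (2 * a) (2 * b) - AA p x t s a b) l,
      E3_sub σ u (fun s a b _ => BB p x t s (2 * a) (2 * b)) (fun s a b _ => AA p x t s a b),
      E3_mul σ u (fun s a b _ => ∑ i, w i * (FF p x t s a b (r i) - AA p x t s a b)) μ,
      E3_sum σ u (fun i s a b _ => w i * (FF p x t s a b (r i) - AA p x t s a b))]
    have e : ∀ i, E3 σ u (fun s a b _ => w i * (FF p x t s a b (r i) - AA p x t s a b))
        = w i * (avF p x t σ u (r i) - avA p x t σ u) := by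
      intro i
      rw [E3_mul σ u (fun s a b _ => FF p x t s a b (r i) - AA p x t s a b) (w i),
        E3_sub σ u (fun s a b _ => FF p x t s a b (r i)) (fun s a b _ => AA p x t s a b)]
      rfl
    rw [Finset.sum_congr rfl fun i _ => e i]
    rfl
  have eS : ∑ i, w i * (avF p x t σ u (r i) - avA p x t σ u)
      = (∑ i, w i * avF p x t σ u (r i)) - avA p x t σ u := by
    simp_rw [mul_sub]
    rw [Finset.sum_sub_distrib, ← Finset.sum_mul, hw1, one_mul]
  have hdil := av_BB_dil (x := x) (t := t) hp hG h1 hκ hκ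
  rw [hκ2] at hdil
  have hdil' := (abs_le.1 hdil).2
  have hlm := mul_le_mul_of_nonneg_left hdil' hl
  rw [eL, eR, eS] at hmono
  linarith

end H51K
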