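import Pool.Agent.Lib.H51K.E1

/-!
# H51K/E3: the bound by the number of values, uniform weights
-/

namespace H51K

open Finset

variable {Ω α : Type*} [Fintype Ω] {p : Ω → ℝ}

theorem e3_sum (hp : IsPr p) (f : Ω → α) (S : Finset α) (hS : ∀ ω, p ω ≠ 0 → f ω ∈ S) :
    ∑ ω, p ω / mass p f (f ω) ≤ (S.card : ℝ) := by
  classical
  have h1 : ∀ ω, p ω / mass p f (f ω) ≤ ∑ a ∈ S, (if f ω = a then p ω else 0) / mass p f a := by
    intro ω
    by_cases h0 : p ω = 0
    · rw [h0, zero_div]
      refine Finset.sum_nonneg fun a _ => ?_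
      rw [ite_self, zero_div]
    · have h2 := Finset.single_le_sum (f := fun a => (if f ω = a then p ω else 0) / mass p f a)
        (s := S) (fun a _ => div_nonneg (by split_ifs; exacts [hp.nonneg ω, le_rfl])
          (mass_nonneg hp f a)) (hS ω h0)
      simpa using h2
  refine (Finset.sum_le_sum fun ω _ => h1 ω).trans ?_
  rw [Finset.sum_comm]
  have h3 : ∀ a ∈ S, ∑ ω, (if f ω = a then p ω else 0) / mass p f a ≤ 1 := by
    intro a _
    rw [← Finset.sum_div]
    have h4 : (∑ ω, if f ω = a then p ω else 0) = mass p f a := by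
      unfold mass
      refine Finset.sum_congr rfl fun ω _ => ?_
      by_cases hc : f ω = a
      · simp only [if_pos hc]
      · simp only [if_neg hc]
    rw [h4]
    exact div_self_le_one _
  refine (Finset.sum_le_sum h3).trans ?_
  rw [Finset.sum_const, nsmul_eq_mul, mul_one]

/-- `H p f ≤ log (number of values)`. Proof: `H p f - log #S = ∑ p ω log (1 / (#S mass))`
`≤ ∑ p ω (1 / (#S mass p f (f ω)) - 1)` and `∑ p ω / mass p f (f ω) ≤ #S`
(sum over the values `a ∈ S`: each fibre with positive mass contributes `1`). -/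
theorem H_le_log (hp : IsPr p) (f : Ω → α) (S : Finset α) (hS : ∀ ω, p ω ≠ 0 → f ω ∈ S) :
    H p f ≤ Real.log (S.card : ℝ) := by
  have hne : ∃ ω, p ω ≠ 0 := by
    by_contra hcon
    push Not at hcon
    have h := hp.sum_one
    rw [Finset.sum_congr rfl fun ω _ => hcon ω] at h
    simp at h
  obtain ⟨ω₀, h0⟩ := hne
  have hc : (0 : ℝ) < S.card := by
    exact_mod_cast Finset.card_pos.mpr ⟨_, hS ω₀ h0⟩
  have h1 : H p f ≤ ∑ ω, (p ω * Real.log S.card + p ω / mass p f (f ω) / S.card - p ω) := by
    unfold H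
    refine Finset.sum_le_sum fun ω _ => ?_
    by_cases hω : p ω = 0
    · rw [hω]
      simp
    · have hm := mass_pos hp f hω
      have h2 := Real.log_le_sub_one_of_pos (inv_pos.mpr (mul_pos hc hm))
      rw [Real.log_inv, Real.log_mul hc.ne' hm.ne'] at h2
      have h3 := mul_le_mul_of_nonneg_left h2 (hp.nonneg ω)
      have h4 : p ω / mass p f (f ω) / S.card = p ω * (S.card * mass p f (f ω))⁻¹ := by
        field_simp
      rw [h4]
      linarith
  refine h1.trans ?_
  rw [Finset.sum_sub_distrib, Finset.sum_add_distrib, hp.sum_one, ← Finset.sum_mul, hp.sum_one,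
    ← Finset.sum_div]
  have h5 : (∑ ω, p ω / mass p f (f ω)) / S.card ≤ 1 := by
    rw [div_le_one hc]
    exact e3_sum hp f S hS
  linarith

theorem unif_isPr [Nonempty Ω] : IsPr (fun _ : Ω => 1 / (Fintype.card Ω : ℝ)) := by
  refine ⟨fun _ => by positivity, ?_⟩
  rw [Finset.sum_const, Finset.card_univ, nsmul_eq_mul]
  have h : (Fintype.card Ω : ℝ) ≠ 0 := by exact_mod_cast Fintype.card_ne_zero
  field_simp

/-- Every mass is `1 / card`. -/
theorem H_unif [Nonempty Ω] (f : Ω → α) (hf : Function.Injective f) :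
    H (fun _ : Ω => 1 / (Fintype.card Ω : ℝ)) f = Real.log (Fintype.card Ω : ℝ) := by
  classical
  have h1 : ∀ ω, mass (fun _ : Ω => 1 / (Fintype.card Ω : ℝ)) f (f ω) = 1 / (Fintype.card Ω : ℝ) := by
    intro ω
    unfold mass
    rw [Finset.sum_eq_single ω]
    · rw [if_pos rfl]
    · intro ω' _ hne
      rw [if_neg fun h => hne (hf h)]
    · intro h
      exact absurd (Finset.mem_univ ω) h
  unfold H
  rw [Finset.sum_congr rfl fun ω _ => by rw [h1 ω], Finset.sum_const, Finset.card_univ, nsmul_eq_mul]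
  have h : (Fintype.card Ω : ℝ) ≠ 0 := by exact_mod_cast Fintype.card_ne_zero
  rw [one_div, Real.log_inv, neg_neg]
  field_simp

end H51K
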