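import Pool.Agent.Lib.H51K.B0
import Pool.Agent.Lib.H51K.E3

/-!
# H51K/AP: application to sums and differences and to progressions
-/

namespace H51K

open Finset

/-- **The sums-differences form.** -/
theorem sd_form {σ θ : ℝ} (hθ : 1 ≤ θ) (hσ : σ < θ) (hB : Box 0 σ) :
    ∃ (n : ℕ) (r : Fin n → ℚ), (∀ i, 0 < r i) ∧ ∀ G : Finset (ℚ × ℚ),
      Set.InjOn Prod.snd (G : Set (ℚ × ℚ)) → ∀ M : ℕ,
        (∀ i, (G.image (fun g => g.1 + r i * g.2)).card ≤ M) → (G.card : ℝ) ≤ (M : ℝ) ^ θ := by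
  classical
  obtain ⟨σ', hσ'0, hσ', hB'⟩ : ∃ σ' : ℝ, 0 < σ' ∧ σ' < θ ∧ Box 0 σ' :=
    ⟨max σ (1 / 2), lt_max_of_lt_right (by norm_num), max_lt hσ (by linarith),
      hB.mono (le_max_left _ _)⟩
  have hθ0 : 0 < θ := by linarith
  have hε : 0 < 1 - σ' / θ := by
    rw [sub_pos, div_lt_one hθ0]
    exact hσ'
  obtain ⟨n, r, w, hr, hw, hw1, hI⟩ := hB' (1 - σ' / θ) hε 0
  refine ⟨n, r, hr, ?_⟩
  intro G hG M hM
  rcases G.eq_empty_or_nonempty with rfl | hne
  · simpa using Real.rpow_nonneg (Nat.cast_nonneg M) θ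
  have hnG : Nonempty G := ⟨⟨hne.choose, hne.choose_spec⟩⟩
  have hn : 0 < n := by
    rcases Nat.eq_zero_or_pos n with rfl | h
    · simp at hw1
    · exact h
  have hM1 : 1 ≤ M := by
    refine le_trans ?_ (hM ⟨0, hn⟩)
    exact Finset.card_pos.2 (hne.image _)
  have hp : IsPr (fun _ : G => 1 / (Fintype.card G : ℝ)) := unif_isPr
  have hdet : Det (fun _ : G => 1 / (Fintype.card G : ℝ)) (fun g : G => g.1.2)
      (fun g : G => g.1.1) := by
    intro g g' _ _ h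
    have h1 : g.1 = g'.1 := hG g.2 g'.2 h
    simp only [h1]
  have hinj : Function.Injective (fun g : G => (g.1.1, g.1.2)) := by
    intro g g' h
    apply Subtype.ext
    simpa using h
  have h1 := hI G (fun _ : G => 1 / (Fintype.card G : ℝ)) (fun g : G => g.1.1)
    (fun g : G => g.1.2) hp hdet
  rw [H_unif _ hinj, Fintype.card_coe] at h1
  have hM0 : (0 : ℝ) < M := by exact_mod_cast hM1
  have h2 : ∀ i, H (fun _ : G => 1 / (Fintype.card G : ℝ))
      (fun g : G => g.1.1 + r i * g.1.2) ≤ Real.log (M : ℝ) := by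
    intro i
    refine le_trans (H_le_log hp _ (G.image (fun g => g.1 + r i * g.2)) ?_) ?_
    · intro g _
      exact mem_image.2 ⟨g.1, g.2, rfl⟩
    · apply Real.log_le_log
      · exact_mod_cast Finset.card_pos.2 (hne.image _)
      · exact_mod_cast hM i
  rw [Fintype.card_coe] at h2
  have h3 : ∑ i, w i * H (fun _ : G => 1 / (G.card : ℝ))
      (fun g : G => g.1.1 + r i * g.1.2) ≤ Real.log (M : ℝ) := by
    calc ∑ i, w i * H (fun _ : G => 1 / (G.card : ℝ)) (fun g : G => g.1.1 + r i * g.1.2)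
        ≤ ∑ i, w i * Real.log (M : ℝ) :=
          sum_le_sum fun i _ => mul_le_mul_of_nonneg_left (h2 i) (hw i)
      _ = Real.log (M : ℝ) := by rw [← sum_mul, hw1, one_mul]
  have h4 : σ' / θ * Real.log (G.card : ℝ) ≤ σ' * Real.log (M : ℝ) := by
    have h5 := mul_le_mul_of_nonneg_left h3 hσ'0.le
    linarith
  have h6 : Real.log (G.card : ℝ) ≤ θ * Real.log (M : ℝ) := by
    have h7 := mul_le_mul_of_nonneg_left h4 (div_pos hθ0 hσ'0).le
    have h8 : θ / σ' * (σ' / θ * Real.log (G.card : ℝ)) = Real.log (G.card : ℝ) := by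
      field_simp
    have h9 : θ / σ' * (σ' * Real.log (M : ℝ)) = θ * Real.log (M : ℝ) := by
      field_simp
    rwa [h8, h9] at h7
  have hG0 : (0 : ℝ) < G.card := by exact_mod_cast Finset.card_pos.2 hne
  rw [Real.rpow_def_of_pos hM0, ← Real.log_le_iff_le_exp hG0]
  linarith

theorem ap_den {n : ℕ} (r : Fin n → ℚ) (hr : ∀ i, 0 < r i) :
    ∃ D : ℕ, 0 < D ∧ ∀ i, ∃ m : ℕ, (D : ℚ) * r i = m := by
  refine ⟨∏ i, (r i).den, Finset.prod_pos fun i _ => (r i).den_pos, ?_⟩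
  intro i
  refine ⟨(∏ j ∈ univ.erase i, (r j).den) * (r i).num.toNat, ?_⟩
  rw [← Finset.mul_prod_erase univ (fun j => (r j).den) (mem_univ i)]
  have h1 : ((r i).num.toNat : ℤ) = (r i).num := Int.toNat_of_nonneg (Rat.num_nonneg.2 (hr i).le)
  have h2 : ((r i).num.toNat : ℚ) = (r i).num := by exact_mod_cast congrArg (Int.cast (R := ℚ)) h1
  push_cast
  rw [h2]
  have h3 : ((r i).den : ℚ) * r i = (r i).num := Rat.den_mul_eq_num (r i)
  calc ((r i).den : ℚ) * (∏ j ∈ univ.erase i, ((r j).den : ℚ)) * r i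
      = (∏ j ∈ univ.erase i, ((r j).den : ℚ)) * ((r i).den * r i) := by ring
    _ = _ := by rw [h3]

/-- **Application.** If `Box 0 σ`, `σ < θ`, then there is `k₀` such that for all `N ≥ 1` and
every finite `A ⊆ ℕ` containing a progression `{a d + i d : i < k₀}` for each `d = 1, ..., N`:
`N ≤ #A ^ θ`. -/
theorem application {σ θ : ℝ} (hθ : 1 ≤ θ) (hσ : σ < θ) (hB : Box 0 σ) :
    ∃ k₀ : ℕ, ∀ N : ℕ, 1 ≤ N → ∀ (A : Finset ℕ) (a : ℕ → ℕ),
      (∀ d, 1 ≤ d → d ≤ N → ∀ i, i < k₀ → a d + i * d ∈ A) → (N : ℝ) ≤ (A.card : ℝ) ^ θ := by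
  classical
  obtain ⟨n, r, hr, h⟩ := sd_form hθ hσ hB
  obtain ⟨D, hD, hm⟩ := ap_den r hr
  choose m hm using hm
  refine ⟨1 + ∑ i, m i, ?_⟩
  intro N hN A a hA
  have hD0 : (D : ℚ) ≠ 0 := by exact_mod_cast hD.ne'
  have hinj : Set.InjOn (fun d : ℕ => ((a d : ℚ), (D : ℚ) * (d : ℚ))) (Icc 1 N : Finset ℕ) := by
    intro d _ d' _ hdd
    have h1 := congrArg Prod.snd hdd
    simp only at h1
    have h2 := mul_left_cancel₀ hD0 h1
    exact_mod_cast h2
  have h1 := h ((Icc 1 N).image (fun d : ℕ => ((a d : ℚ), (D : ℚ) * (d : ℚ)))) ?_ A.card ?_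
  · rwa [card_image_of_injOn hinj, Nat.card_Icc, Nat.add_sub_cancel] at h1
  · intro g hg g' hg' hgg
    simp only [coe_image, Set.mem_image, mem_coe, mem_Icc] at hg hg'
    obtain ⟨d, _, rfl⟩ := hg
    obtain ⟨d', _, rfl⟩ := hg'
    simp only at hgg
    have h2 := mul_left_cancel₀ hD0 hgg
    have h3 : d = d' := by exact_mod_cast h2
    rw [h3]
  · intro i
    have h2 : ((Icc 1 N).image (fun d : ℕ => ((a d : ℚ), (D : ℚ) * (d : ℚ)))).image
        (fun g => g.1 + r i * g.2) ⊆ A.image (fun z : ℕ => (z : ℚ)) := by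
      intro z hz
      simp only [mem_image, mem_Icc] at hz
      obtain ⟨g, ⟨d, ⟨hd1, hd2⟩, rfl⟩, rfl⟩ := hz
      refine mem_image.2 ⟨a d + m i * d, hA d hd1 hd2 (m i) ?_, ?_⟩
      · have := Finset.single_le_sum (f := m) (fun j _ => Nat.zero_le _) (mem_univ i)
        omega
      · push_cast
        rw [← hm i]
        ring
    exact le_trans (card_le_card h2) card_image_le

end H51K
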