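import Pool.Agent.Lib.H51K.E2b

/-!
# H51K/B0: first properties of boxes
-/

namespace H51K

open Finset

/-- The trivial exponent: `n = 2`, slopes `R + 1`, `R + 2`, weights `1/2`:
`H(x,t) ≤ H(x + r t) + H(x + r' t)` (`H_le_add`; the two members determine `x` and `t`);
`ε * h ≥ 0` by `H_nonneg`. -/
theorem box_two : Box 0 2 := by
  intro ε hε R
  refine ⟨2, ![R + 1, R + 2], ![1 / 2, 1 / 2], ?_, ?_, ?_, ?_⟩
  · intro i
    fin_cases i <;> simp
  · intro i
    fin_cases i <;> simp
  · rw [Fin.sum_univ_two]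
    simp only [Matrix.cons_val_zero, Matrix.cons_val_one]
    norm_num
  · intro Ω _ p x t hp _
    have h1 := H_le_add hp (fun ω => x ω + (R + 1) * t ω) (fun ω => x ω + (R + 2) * t ω)
      (fun ω => (x ω, t ω)) (by
        intro ω ω' _ _ h
        obtain ⟨ha, hb⟩ := Prod.ext_iff.1 h
        simp only at ha hb
        have ht : t ω = t ω' := by linear_combination hb - ha
        have hx : x ω = x ω' := by
          rw [ht] at ha
          linear_combination ha
        simp only
        rw [ht, hx])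
    have h2 := mul_nonneg hε.le (H_nonneg hp (fun ω => (x ω, t ω)))
    rw [Fin.sum_univ_two]
    simp only [Matrix.cons_val_zero, Matrix.cons_val_one]
    linarith

/-- The first argument may be dropped to nonnegative error: monotone in the exponent
(`m * ∑ w_i H_i ≤ m' * ∑ w_i H_i` as `∑ w_i H_i ≥ 0`). -/
theorem Box.mono {l m m' : ℝ} (h : Box l m) (hm : m ≤ m') : Box l m' := by
  intro ε hε R
  obtain ⟨n, r, w, hr, hw, hw1, hB⟩ := h ε hε R
  refine ⟨n, r, w, hr, hw, hw1, ?_⟩
  intro Ω _ p x t hp hd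
  have h1 := hB Ω p x t hp hd
  have h2 : 0 ≤ ∑ i, w i * H p (fun ω => x ω + r i * t ω) :=
    Finset.sum_nonneg fun i _ => mul_nonneg (hw i) (H_nonneg hp _)
  have h3 := mul_le_mul_of_nonneg_right hm h2
  linarith

/-- Closedness: if `Box 0 m'` for every `m' > m` then `Box 0 m`. With `m' = m + ε / 2` and the
error `ε / 2`: `m' ∑ w_i H_i ≤ m ∑ w_i H_i + ε / 2 * h`, since `H(x + r t) ≤ H(x, t)`
(`H_le_of_det`) and the weights have sum one. -/
theorem box_closed {l m : ℝ} (h : ∀ m', m < m' → Box l m') : Box l m := by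
  intro ε hε R
  obtain ⟨n, r, w, hr, hw, hw1, hB⟩ := h (m + ε / 2) (by linarith) (ε / 2) (by linarith) R
  refine ⟨n, r, w, hr, hw, hw1, ?_⟩
  intro Ω _ p x t hp hd
  have h1 := hB Ω p x t hp hd
  have h2 : ∑ i, w i * H p (fun ω => x ω + r i * t ω) ≤ H p (fun ω => (x ω, t ω)) := by
    calc ∑ i, w i * H p (fun ω => x ω + r i * t ω)
        ≤ ∑ i, w i * H p (fun ω => (x ω, t ω)) := by
          refine Finset.sum_le_sum fun i _ => mul_le_mul_of_nonneg_left ?_ (hw i)
          refine H_le_of_det hp ?_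
          intro ω ω' _ _ he
          obtain ⟨ha, hb⟩ := Prod.ext_iff.1 he
          simp only at ha hb
          simp only
          rw [ha, hb]
      _ = H p (fun ω => (x ω, t ω)) := by
          rw [← Finset.sum_mul, hw1, one_mul]
  have h3 := mul_le_mul_of_nonneg_left h2 (by linarith : (0 : ℝ) ≤ ε / 2)
  linarith

/-- Slopes may be arbitrary for `l = 0`: shift `x` to `x + S t` with a large rational `S`
(`x + S t + r_i t = x + (S + r_i) t`; `(x + S t, t)` and `(x, t)` determine each other, `t`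
determines `x + S t` if it determines `x`). -/
theorem box_of_weak {m : ℝ} (h : ∀ ε : ℝ, 0 < ε → ∃ (n : ℕ) (r : Fin n → ℚ) (w : Fin n → ℝ),
    (∀ i, 0 ≤ w i) ∧ ∑ i, w i = 1 ∧ BoxI 0 m ε r w) : Box 0 m := by
  intro ε hε R
  obtain ⟨n, r, w, hw, hw1, hB⟩ := h ε hε
  obtain ⟨S, hS⟩ : ∃ S : ℚ, ∀ i, R < S + r i := by
    refine ⟨|R| + 1 + ∑ j, |r j|, fun i => ?_⟩
    have h1 : |r i| ≤ ∑ j, |r j| :=
      Finset.single_le_sum (f := fun j => |r j|) (fun j _ => abs_nonneg _) (Finset.mem_univ i)
    have h2 := neg_abs_le (r i)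
    have h3 := le_abs_self R
    linarith
  refine ⟨n, fun i => S + r i, w, hS, hw, hw1, ?_⟩
  intro Ω _ p x t hp hd
  have h1 := hB Ω p (fun ω => x ω + S * t ω) t hp (by
    intro ω ω' h0 h0' he
    simp only
    rw [hd ω ω' h0 h0' he, he])
  have h2 : H p (fun ω => (x ω + S * t ω, t ω)) = H p (fun ω => (x ω, t ω)) := by
    refine H_eq_of_det hp ?_ ?_
    · intro ω ω' _ _ he
      obtain ⟨ha, hb⟩ := Prod.ext_iff.1 he
      simp only at ha hb
      have hx : x ω = x ω' := by
        rw [hb] at ha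
        linear_combination ha
      simp only
      rw [hx, hb]
    · intro ω ω' _ _ he
      obtain ⟨ha, hb⟩ := Prod.ext_iff.1 he
      simp only at ha hb
      simp only
      rw [ha, hb]
  rw [h2, zero_mul, zero_add] at h1
  rw [zero_mul, zero_add]
  have h3 : ∀ i, H p (fun ω => x ω + S * t ω + r i * t ω) = H p (fun ω => x ω + (S + r i) * t ω) := by
    intro i
    congr 1
    funext ω
    ring
  rw [Finset.sum_congr rfl fun i _ => by rw [h3 i]] at h1
  exact h1

end H51K
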