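import Mathlib

/-!
# H51K: entropy of finite random variables, gluings, the configurations V, P3, C4 (MP_87ec9a_co)

All probability spaces are finite: a `Fintype` with a weight function `p : Ω → ℝ`.
A random variable is any function on `Ω`; `H p f` is its Shannon entropy.
-/

namespace H51K

open Finset

/-- `p` is a probability on the finite set `Ω`. -/
structure IsPr {Ω : Type*} [Fintype Ω] (p : Ω → ℝ) : Prop where
  nonneg : ∀ ω, 0 ≤ p ω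
  sum_one : ∑ ω, p ω = 1

open Classical in
/-- The probability that `f = a`. -/
noncomputable def mass {Ω α : Type*} [Fintype Ω] (p : Ω → ℝ) (f : Ω → α) (a : α) : ℝ :=
  ∑ ω, if f ω = a then p ω else 0

/-- Shannon entropy (natural logarithm) of the random variable `f`. -/
noncomputable def H {Ω α : Type*} [Fintype Ω] (p : Ω → ℝ) (f : Ω → α) : ℝ :=
  ∑ ω, p ω * (-Real.log (mass p f (f ω)))

/-- `f` determines `g` on the support of `p`. -/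
def Det {Ω α β : Type*} (p : Ω → ℝ) (f : Ω → α) (g : Ω → β) : Prop :=
  ∀ ω ω', p ω ≠ 0 → p ω' ≠ 0 → f ω = f ω' → g ω = g ω'

/-- `f₁` and `f₂` have the same law. -/
def SameLaw {Ω₁ Ω₂ γ : Type*} [Fintype Ω₁] [Fintype Ω₂] (p₁ : Ω₁ → ℝ) (f₁ : Ω₁ → γ)
    (p₂ : Ω₂ → ℝ) (f₂ : Ω₂ → γ) : Prop :=
  ∀ c, mass p₁ f₁ c = mass p₂ f₂ c

open Classical in
/-- The gluing of `(Ω₁, p₁)` and `(Ω₂, p₂)` over `f₁ = f₂` (conditionally independent). -/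
noncomputable def glue {Ω₁ Ω₂ γ : Type*} [Fintype Ω₁] (p₁ : Ω₁ → ℝ) (f₁ : Ω₁ → γ)
    (p₂ : Ω₂ → ℝ) (f₂ : Ω₂ → γ) : Ω₁ × Ω₂ → ℝ :=
  fun ω => if f₁ ω.1 = f₂ ω.2 then p₁ ω.1 * p₂ ω.2 / mass p₁ f₁ (f₁ ω.1) else 0

open Classical in
/-- The conditional weights of `p` given `Z = z`. -/
noncomputable def cnd {Ω ζ : Type*} [Fintype Ω] (p : Ω → ℝ) (Z : Ω → ζ) (z : ζ) : Ω → ℝ :=
  fun ω => if Z ω = z then p ω / mass p Z z else 0

/-! ## Boxes -/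

/-- One explicit weighted inequality
`h ≤ l * H(x) + m * ∑ w_i * H(x + r_i t) + ε * h`, `h = H(x,t)`, for all systems. -/
def BoxI (l m ε : ℝ) {n : ℕ} (r : Fin n → ℚ) (w : Fin n → ℝ) : Prop :=
  ∀ (Ω : Type) [Fintype Ω] (p : Ω → ℝ) (x t : Ω → ℚ), IsPr p → Det p t x →
    H p (fun ω => (x ω, t ω)) ≤ l * H p x + m * ∑ i, w i * H p (fun ω => x ω + r i * t ω)
      + ε * H p (fun ω => (x ω, t ω))

/-- The property `W(l, m)`: for every `ε > 0` and every bound `R` there is such an inequality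
with slopes `> R` and weights of sum one. `Box 0 α` is the sums-differences property of
exponent `α`. -/
def Box (l m : ℝ) : Prop :=
  ∀ ε : ℝ, 0 < ε → ∀ R : ℚ, ∃ (n : ℕ) (r : Fin n → ℚ) (w : Fin n → ℝ),
    (∀ i, R < r i) ∧ (∀ i, 0 ≤ w i) ∧ ∑ i, w i = 1 ∧ BoxI l m ε r w

/-! ## The quantities of one system `(x, t)` -/

section sys
variable {Ω : Type} [Fintype Ω]

/-- `y_s = x + s t`. -/
def yy (x t : Ω → ℚ) (s : ℚ) : Ω → ℚ := fun ω => x ω + s * t ω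

/-- `h = H(x, t)`. -/
noncomputable def hh (p : Ω → ℝ) (x t : Ω → ℚ) : ℝ := H p (fun ω => (x ω, t ω))

/-- `φ(s) = H(x + s t)`. -/
noncomputable def ph (p : Ω → ℝ) (x t : Ω → ℚ) (s : ℚ) : ℝ := H p (yy x t s)

/-- `V_s`: two copies glued over `y_s`. -/
noncomputable def VV (p : Ω → ℝ) (x t : Ω → ℚ) (s : ℚ) : Ω × Ω → ℝ :=
  glue p (yy x t s) p (yy x t s)

/-- `A^s(u, v) = H(y_s + u t₁ + v t₂)` in `V_s`. -/
noncomputable def AA (p : Ω → ℝ) (x t : Ω → ℚ) (s u v : ℚ) : ℝ :=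
  H (VV p x t s) (fun ω => yy x t (s + u) ω.1 + v * t ω.2)

/-- `B^s(u, v) = H(y_s + u t₁, y_s + v t₂)` in `V_s`. -/
noncomputable def BB (p : Ω → ℝ) (x t : Ω → ℚ) (s u v : ℚ) : ℝ :=
  H (VV p x t s) (fun ω => (yy x t (s + u) ω.1, yy x t (s + v) ω.2))

/-- `P3(s, τ)`: line 1 glued over `y_s` to the first line of `V_{s+τ}` (lines 2 and 3). -/
noncomputable def PP (p : Ω → ℝ) (x t : Ω → ℚ) (s τ : ℚ) : Ω × (Ω × Ω) → ℝ :=
  glue p (yy x t s) (VV p x t (s + τ)) (fun ω => yy x t s ω.1)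

/-- `Z = H(y_{s+τ} + c₁ t₁ + c₃ t₃)` in `P3(s, τ)`. -/
noncomputable def ZZ (p : Ω → ℝ) (x t : Ω → ℚ) (s τ c₁ c₃ : ℚ) : ℝ :=
  H (PP p x t s τ) (fun ω => yy x t (s + τ) ω.2.1 + c₁ * t ω.1 + c₃ * t ω.2.2)

/-- The pair `L = (y_s + a t₁, y_s + b t₂)` on `V_s`. -/
def LL (x t : Ω → ℚ) (s a b : ℚ) : Ω × Ω → ℚ × ℚ :=
  fun ω => (yy x t (s + a) ω.1, yy x t (s + b) ω.2)

/-- `C4(s, a, b)`: two copies of `V_s` glued over `L`. -/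
noncomputable def CC (p : Ω → ℝ) (x t : Ω → ℚ) (s a b : ℚ) : (Ω × Ω) × (Ω × Ω) → ℝ :=
  glue (VV p x t s) (LL x t s a b) (VV p x t s) (LL x t s a b)

/-- `f₁ = P + P' - X` on `C4(s, a, b)`; `X = y_s` of line 1, `P = y_{s+a}` of line 1,
`P' = y_{s+b}` of line 2. -/
def f1 (x t : Ω → ℚ) (s a b : ℚ) : (Ω × Ω) × (Ω × Ω) → ℚ :=
  fun ω => yy x t (s + a) ω.1.1 + yy x t (s + b) ω.1.2 - yy x t s ω.1.1

/-- `f₂ = 2 P - X + r (P - X')`; `X' = y_s` of line 3. -/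
def f2 (x t : Ω → ℚ) (s a r : ℚ) : (Ω × Ω) × (Ω × Ω) → ℚ :=
  fun ω => 2 * yy x t (s + a) ω.1.1 - yy x t s ω.1.1
    + r * (yy x t (s + a) ω.1.1 - yy x t s ω.2.1)

/-- `F_r = H(f₁, f₂)` in `C4(s, a, b)`. -/
noncomputable def FF (p : Ω → ℝ) (x t : Ω → ℚ) (s a b r : ℚ) : ℝ :=
  H (CC p x t s a b) (fun ω => (f1 x t s a b ω, f2 x t s a r ω))

end sys

/-! ## Averages over parameters -/

/-- The average of `g s a b c` over `s = σ i` and independent `a, b, c` in the family `u`. -/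
noncomputable def E3 {m n : ℕ} (σ : Fin m → ℚ) (u : Fin n → ℚˣ)
    (g : ℚ → ℚˣ → ℚˣ → ℚˣ → ℝ) : ℝ :=
  (∑ i, ∑ j, ∑ k, ∑ l, g (σ i) (u j) (u k) (u l)) / ((m : ℝ) * (n : ℝ) ^ 3)

/-- `E3 σ u` is `δ`-invariant under the dilations in `K` (of each argument separately)
and under the translations `s ↦ s + T₀ a b c`, `T₀ ∈ T`. -/
structure Good (K : Finset ℚˣ) (T : Finset (ℚˣ → ℚˣ → ℚˣ → ℚ)) (δ : ℝ) {m n : ℕ}
    (σ : Fin m → ℚ) (u : Fin n → ℚˣ) : Prop where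
  hm : 0 < m
  hn : 0 < n
  dil : ∀ (g : ℚ → ℚˣ → ℚˣ → ℚˣ → ℝ) (M : ℝ), (∀ s a b c, |g s a b c| ≤ M) →
    ∀ κ₁ ∈ K, ∀ κ₂ ∈ K, ∀ κ₃ ∈ K,
      |E3 σ u (fun s a b c => g s (κ₁ * a) (κ₂ * b) (κ₃ * c)) - E3 σ u g| ≤ δ * M
  tra : ∀ (g : ℚ → ℚˣ → ℚˣ → ℚˣ → ℝ) (M : ℝ), (∀ s a b c, |g s a b c| ≤ M) →
    ∀ T₀ ∈ T,
      |E3 σ u (fun s a b c => g (s + T₀ a b c) a b c) - E3 σ u g| ≤ δ * M

end H51K
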