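import Pool.Agent.Lib.H51K.Defs

/-!
# H51K/E1: masses, entropy and determination
-/

namespace H51K

open Finset

variable {Ω α β γ : Type*} [Fintype Ω] {p : Ω → ℝ}

theorem mass_nonneg (hp : IsPr p) (f : Ω → α) (a : α) : 0 ≤ mass p f a := by
  unfold mass
  refine Finset.sum_nonneg fun ω _ => ?_
  split_ifs
  · exact hp.nonneg ω
  · exact le_rfl

/-- One term of the sum. -/
theorem le_mass (hp : IsPr p) (f : Ω → α) (ω : Ω) : p ω ≤ mass p f (f ω) := by
  classical
  unfold mass
  have h := Finset.single_le_sum (f := fun ω' => if f ω' = f ω then p ω' else 0)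
    (s := Finset.univ) (fun ω' _ => by
      split_ifs
      · exact hp.nonneg ω'
      · exact le_rfl) (Finset.mem_univ ω)
  simpa using h

theorem mass_pos (hp : IsPr p) (f : Ω → α) {ω : Ω} (h : p ω ≠ 0) : 0 < mass p f (f ω) :=
  lt_of_lt_of_le (lt_of_le_of_ne (hp.nonneg ω) (Ne.symm h)) (le_mass hp f ω)

theorem mass_le_one (hp : IsPr p) (f : Ω → α) (a : α) : mass p f a ≤ 1 := by
  rw [← hp.sum_one]
  unfold mass
  refine Finset.sum_le_sum fun ω _ => ?_
  split_ifs
  · exact le_rfl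
  · exact hp.nonneg ω

/-- `-log (mass) ≥ 0` as `0 ≤ mass ≤ 1`. -/
theorem H_nonneg (hp : IsPr p) (f : Ω → α) : 0 ≤ H p f := by
  unfold H
  refine Finset.sum_nonneg fun ω _ => mul_nonneg (hp.nonneg ω) ?_
  have h := Real.log_nonpos (mass_nonneg hp f (f ω)) (mass_le_one hp f (f ω))
  linarith

/-- Termwise: if `f ω' = f ω` and `p ω' ≠ 0` then `g ω' = g ω`. -/
theorem mass_mono (hp : IsPr p) {f : Ω → α} {g : Ω → β} (hd : Det p f g) {ω : Ω}
    (h : p ω ≠ 0) : mass p f (f ω) ≤ mass p g (g ω) := by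
  unfold mass
  refine Finset.sum_le_sum fun ω' _ => ?_
  by_cases h0 : p ω' = 0
  · simp [h0]
  · by_cases h1 : f ω' = f ω
    · rw [if_pos h1, if_pos (hd ω' ω h0 h h1)]
    · rw [if_neg h1]
      split_ifs
      · exact hp.nonneg ω'
      · exact le_rfl

/-- Termwise by `mass_mono` and monotonicity of `log` (terms with `p ω = 0` vanish). -/
theorem H_le_of_det (hp : IsPr p) {f : Ω → α} {g : Ω → β} (hd : Det p f g) :
    H p g ≤ H p f := by
  unfold H
  refine Finset.sum_le_sum fun ω _ => ?_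
  by_cases h0 : p ω = 0
  · simp [h0]
  · refine mul_le_mul_of_nonneg_left ?_ (hp.nonneg ω)
    have h := Real.log_le_log (mass_pos hp f h0) (mass_mono hp hd h0)
    linarith

theorem H_eq_of_det (hp : IsPr p) {f : Ω → α} {g : Ω → β} (h1 : Det p f g)
    (h2 : Det p g f) : H p f = H p g :=
  le_antisymm (H_le_of_det hp h2) (H_le_of_det hp h1)

end H51K
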