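import Pool.Agent.Lib.H51K.E1

/-!
# H51K/E2: submodularity
-/

namespace H51K

open Finset

variable {Ω α β γ δ : Type*} [Fintype Ω] {p : Ω → ℝ}

open Classical in
/-- The inner sum over `ω`. -/
theorem e2_inner (hp : IsPr p) (f : Ω → α) (g : Ω → β) (k : Ω → γ) (h1 : Det p f k)
    (h2 : Det p g k) (ω₁ ω₂ : Ω) (hω₁ : p ω₁ ≠ 0) (hω₂ : p ω₂ ≠ 0) :
    (∑ ω, (if f ω₁ = f ω then p ω₁ else 0) * (if g ω₂ = g ω then p ω₂ else 0) *
      (p ω / (mass p (fun ω => (f ω, g ω)) (f ω, g ω) * mass p k (k ω)))) ≤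
      p ω₁ * ((if k ω₂ = k ω₁ then p ω₂ else 0) / mass p k (k ω₁)) := by
  classical
  by_cases h : ∃ ω, p ω ≠ 0 ∧ f ω₁ = f ω ∧ g ω₂ = g ω
  · obtain ⟨ω₀, h0, hf0, hg0⟩ := h
    have hk1 : k ω₀ = k ω₁ := h1 _ _ h0 hω₁ hf0.symm
    have hk2 : k ω₀ = k ω₂ := h2 _ _ h0 hω₂ hg0.symm
    rw [if_pos (hk2.symm.trans hk1)]
    have hm : 0 < mass p (fun ω => (f ω, g ω)) (f ω₀, g ω₀) :=
      mass_pos hp (fun ω => (f ω, g ω)) h0
    have hmk : 0 < mass p k (k ω₁) := mass_pos hp k hω₁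
    have hterm : ∀ ω, (if f ω₁ = f ω then p ω₁ else 0) * (if g ω₂ = g ω then p ω₂ else 0) *
        (p ω / (mass p (fun ω => (f ω, g ω)) (f ω, g ω) * mass p k (k ω))) =
        (if (f ω, g ω) = (f ω₀, g ω₀) then p ω else 0) *
          (p ω₁ * p ω₂ / (mass p (fun ω => (f ω, g ω)) (f ω₀, g ω₀) * mass p k (k ω₁))) := by
      intro ω
      by_cases hc : (f ω, g ω) = (f ω₀, g ω₀)
      · have hcf : f ω = f ω₀ := (Prod.ext_iff.1 hc).1
        have hcg : g ω = g ω₀ := (Prod.ext_iff.1 hc).2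
        rw [if_pos (hf0.trans hcf.symm), if_pos (hg0.trans hcg.symm), if_pos hc]
        by_cases hp0 : p ω = 0
        · rw [hp0, zero_div, mul_zero, zero_mul]
        · have hk : k ω = k ω₁ := h1 _ _ hp0 hω₁ (hcf.trans hf0.symm)
          rw [hc, hk]
          ring
      · rw [if_neg hc, zero_mul]
        by_cases ha : f ω₁ = f ω
        · by_cases hb : g ω₂ = g ω
          · exfalso
            exact hc (Prod.ext (ha.symm.trans hf0) (hb.symm.trans hg0))
          · rw [if_neg hb, mul_zero, zero_mul]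
        · rw [if_neg ha, zero_mul, zero_mul]
    rw [Finset.sum_congr rfl fun ω _ => hterm ω, ← Finset.sum_mul]
    have hs : (∑ ω, if (f ω, g ω) = (f ω₀, g ω₀) then p ω else 0) =
        mass p (fun ω => (f ω, g ω)) (f ω₀, g ω₀) := by
      unfold mass
      refine Finset.sum_congr rfl fun ω _ => ?_
      by_cases hc : (f ω, g ω) = (f ω₀, g ω₀)
      · rw [if_pos hc, if_pos hc]
      · rw [if_neg hc, if_neg hc]
    rw [hs]
    apply le_of_eq
    field_simp
  · have hz : (∑ ω, (if f ω₁ = f ω then p ω₁ else 0) * (if g ω₂ = g ω then p ω₂ else 0) *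
        (p ω / (mass p (fun ω => (f ω, g ω)) (f ω, g ω) * mass p k (k ω)))) = 0 := by
      refine Finset.sum_eq_zero fun ω _ => ?_
      by_cases ha : f ω₁ = f ω
      · by_cases hb : g ω₂ = g ω
        · have h0 : p ω = 0 := by
            by_contra h0
            exact h ⟨ω, h0, ha, hb⟩
          rw [h0, zero_div, mul_zero]
        · rw [if_neg hb, mul_zero, zero_mul]
      · rw [if_neg ha, zero_mul, zero_mul]
    rw [hz]
    refine mul_nonneg (hp.nonneg _) (div_nonneg ?_ (mass_nonneg hp _ _))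
    split_ifs
    · exact hp.nonneg _
    · exact le_rfl

/-- The sum of the quotients is at most `1`. -/
theorem e2_sum (hp : IsPr p) (f : Ω → α) (g : Ω → β) (k : Ω → γ) (h1 : Det p f k)
    (h2 : Det p g k) :
    ∑ ω, p ω * (mass p f (f ω) * mass p g (g ω) /
      (mass p (fun ω => (f ω, g ω)) (f ω, g ω) * mass p k (k ω))) ≤ 1 := by
  classical
  have hexp : ∀ ω, p ω * (mass p f (f ω) * mass p g (g ω) /
      (mass p (fun ω => (f ω, g ω)) (f ω, g ω) * mass p k (k ω))) =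
      ∑ ω₁, ∑ ω₂, (if f ω₁ = f ω then p ω₁ else 0) * (if g ω₂ = g ω then p ω₂ else 0) *
        (p ω / (mass p (fun ω => (f ω, g ω)) (f ω, g ω) * mass p k (k ω))) := by
    intro ω
    have hf : mass p f (f ω) = ∑ ω₁, if f ω₁ = f ω then p ω₁ else 0 := by
      unfold mass
      refine Finset.sum_congr rfl fun ω' _ => ?_
      by_cases hc : f ω' = f ω
      · simp only [if_pos hc]
      · simp only [if_neg hc]
    have hg : mass p g (g ω) = ∑ ω₂, if g ω₂ = g ω then p ω₂ else 0 := by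
      unfold mass
      refine Finset.sum_congr rfl fun ω' _ => ?_
      by_cases hc : g ω' = g ω
      · simp only [if_pos hc]
      · simp only [if_neg hc]
    rw [hf, hg]
    simp_rw [← Finset.sum_mul]
    rw [← Finset.sum_mul_sum]
    ring
  rw [Finset.sum_congr rfl fun ω _ => hexp ω, Finset.sum_comm]
  have hle : ∀ ω₁, (∑ ω, ∑ ω₂, (if f ω₁ = f ω then p ω₁ else 0) *
      (if g ω₂ = g ω then p ω₂ else 0) *
      (p ω / (mass p (fun ω => (f ω, g ω)) (f ω, g ω) * mass p k (k ω)))) ≤ p ω₁ := by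
    intro ω₁
    rw [Finset.sum_comm]
    by_cases hω₁ : p ω₁ = 0
    · rw [hω₁]
      apply le_of_eq
      refine Finset.sum_eq_zero fun ω₂ _ => Finset.sum_eq_zero fun ω _ => ?_
      rw [ite_self, zero_mul, zero_mul]
    · have hb : ∀ ω₂, (∑ ω, (if f ω₁ = f ω then p ω₁ else 0) *
          (if g ω₂ = g ω then p ω₂ else 0) *
          (p ω / (mass p (fun ω => (f ω, g ω)) (f ω, g ω) * mass p k (k ω)))) ≤
          p ω₁ * ((if k ω₂ = k ω₁ then p ω₂ else 0) / mass p k (k ω₁)) := by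
        intro ω₂
        by_cases hω₂ : p ω₂ = 0
        · rw [hω₂]
          apply le_of_eq
          rw [ite_self, zero_div, mul_zero]
          refine Finset.sum_eq_zero fun ω _ => ?_
          rw [ite_self, mul_zero, zero_mul]
        · exact e2_inner hp f g k h1 h2 ω₁ ω₂ hω₁ hω₂
      refine (Finset.sum_le_sum fun ω₂ _ => hb ω₂).trans ?_
      rw [← Finset.mul_sum, ← Finset.sum_div]
      have hs : (∑ ω₂, if k ω₂ = k ω₁ then p ω₂ else 0) = mass p k (k ω₁) := by
        unfold mass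
        refine Finset.sum_congr rfl fun ω' _ => ?_
        by_cases hc : k ω' = k ω₁
        · simp only [if_pos hc]
        · simp only [if_neg hc]
      rw [hs, div_self (mass_pos hp k hω₁).ne', mul_one]
  refine (Finset.sum_le_sum fun ω₁ _ => hle ω₁).trans ?_
  rw [hp.sum_one]

/-- **Submodularity.** If `f` determines `k` and `g` determines `k` (on the support of `p`), then
`H(f,g) + H(k) ≤ H(f) + H(g)`.

Proof. `H(f,g) + H(k) - H(f) - H(g) = ∑_ω p ω log (mf mg / (mfg mk))` with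
`mf = mass p f (f ω)`, `mg = mass p g (g ω)`, `mfg = mass p (f,g) (f ω, g ω)`,
`mk = mass p k (k ω)` (all positive if `p ω ≠ 0`), and `log z ≤ z - 1`
(`Real.log_le_sub_one_of_pos`), so the sum is
`≤ ∑_ω p ω * (mf mg / (mfg mk)) - 1`, and
`∑_ω p ω mf(ω) mg(ω) / (mfg(ω) mk(ω)) ≤ 1`:
write `mf(ω) mg(ω) = ∑_{ω1, ω2} [f ω1 = f ω][g ω2 = g ω] p ω1 p ω2`, exchange the sums; for fixed
`ω1, ω2` with `p ω1, p ω2 ≠ 0` the inner sum over `ω` with `f ω = f ω1`, `g ω = g ω2` of
`p ω / (mfg(ω) mk(ω))` is `0` if there is no such `ω` with `p ω ≠ 0`, and otherwise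
`mk(ω) = mass p k (k ω1)`, `k ω2 = k ω1`, and the sum equals `1 / mass p k (k ω1)`. So the total
is `≤ ∑_{ω1} p ω1 / mass p k (k ω1) * ∑_{ω2 : k ω2 = k ω1} p ω2 = ∑_{ω1} p ω1 = 1`. -/
theorem H_submod (hp : IsPr p) (f : Ω → α) (g : Ω → β) (k : Ω → γ) (h1 : Det p f k)
    (h2 : Det p g k) : H p (fun ω => (f ω, g ω)) + H p k ≤ H p f + H p g := by
  have hkey : H p (fun ω => (f ω, g ω)) + H p k - (H p f + H p g) ≤
      ∑ ω, (p ω * (mass p f (f ω) * mass p g (g ω) /
        (mass p (fun ω => (f ω, g ω)) (f ω, g ω) * mass p k (k ω))) - p ω) := by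
    unfold H
    rw [← Finset.sum_add_distrib, ← Finset.sum_add_distrib, ← Finset.sum_sub_distrib]
    refine Finset.sum_le_sum fun ω _ => ?_
    by_cases h0 : p ω = 0
    · rw [h0]
      simp
    · have hpos : 0 < p ω := lt_of_le_of_ne (hp.nonneg ω) (Ne.symm h0)
      have m1 := mass_pos hp f h0
      have m2 := mass_pos hp g h0
      have m3 := mass_pos hp (fun ω => (f ω, g ω)) h0
      have m4 := mass_pos hp k h0
      have hl := Real.log_le_sub_one_of_pos (div_pos (mul_pos m1 m2) (mul_pos m3 m4))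
      rw [Real.log_div (mul_pos m1 m2).ne' (mul_pos m3 m4).ne', Real.log_mul m1.ne' m2.ne',
        Real.log_mul m3.ne' m4.ne'] at hl
      have h2' := mul_le_mul_of_nonneg_left hl hpos.le
      linarith
  rw [Finset.sum_sub_distrib, hp.sum_one] at hkey
  have h3 := e2_sum hp f g k h1 h2
  linarith

end H51K
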