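import Pool.Agent.Lib.H51K.E2

/-!
# H51K/E2b: consequences of submodularity
-/

namespace H51K

open Finset

variable {Ω α β γ δ : Type*} [Fintype Ω] {p : Ω → ℝ}

/-- `H_submod` and `H_le_of_det`. -/
theorem H_submod' (hp : IsPr p) (f : Ω → α) (g : Ω → β) (k : Ω → γ) (l : Ω → δ)
    (h1 : Det p f k) (h2 : Det p g k) (h3 : Det p (fun ω => (f ω, g ω)) l) :
    H p l + H p k ≤ H p f + H p g := by
  have e1 := H_submod hp f g k h1 h2
  have e2 := H_le_of_det hp h3
  linarith

/-- `H_submod` with `k` constant (`Unit`), `H_nonneg`. -/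
theorem H_pair_le (hp : IsPr p) (f : Ω → α) (g : Ω → β) :
    H p (fun ω => (f ω, g ω)) ≤ H p f + H p g := by
  have e1 := H_submod hp f g (fun _ => ()) (fun _ _ _ _ _ => rfl) (fun _ _ _ _ _ => rfl)
  have e2 := H_nonneg hp (fun _ : Ω => ())
  linarith

theorem H_le_add (hp : IsPr p) (f : Ω → α) (g : Ω → β) (l : Ω → δ)
    (h3 : Det p (fun ω => (f ω, g ω)) l) : H p l ≤ H p f + H p g :=
  (H_le_of_det hp h3).trans (H_pair_le hp f g)

end H51K
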