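import Pool.Agent.Lib.H51K.E1

/-!
# H51K/E4: images of probabilities
-/

namespace H51K

open Finset

variable {Ω Ω' α : Type*} [Fintype Ω] [Fintype Ω']

/-- Exchange the sums. -/
theorem sum_push (p : Ω → ℝ) (q : Ω' → ℝ) (π : Ω → Ω') (hq : ∀ b, q b = mass p π b)
    (G : Ω' → ℝ) : ∑ b, q b * G b = ∑ ω, p ω * G (π ω) := by
  classical
  have h1 : ∀ b, q b * G b = ∑ ω, (if π ω = b then p ω * G b else 0) := by
    intro b
    rw [hq, mass, Finset.sum_mul]
    refine Finset.sum_congr rfl fun ω _ => ?_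
    by_cases hc : π ω = b
    · simp only [if_pos hc]
    · simp only [if_neg hc, zero_mul]
  rw [Finset.sum_congr rfl fun b _ => h1 b, Finset.sum_comm]
  refine Finset.sum_congr rfl fun ω _ => ?_
  rw [Finset.sum_ite_eq Finset.univ (π ω) (fun b => p ω * G b), if_pos (Finset.mem_univ _)]

theorem mass_push (p : Ω → ℝ) (q : Ω' → ℝ) (π : Ω → Ω') (hq : ∀ b, q b = mass p π b)
    (F : Ω' → α) (a : α) : mass q F a = mass p (fun ω => F (π ω)) a := by
  classical
  have h1 : mass q F a = ∑ b, q b * (if F b = a then 1 else 0) := by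
    unfold mass
    refine Finset.sum_congr rfl fun b _ => ?_
    by_cases hc : F b = a
    · simp only [if_pos hc, mul_one]
    · simp only [if_neg hc, mul_zero]
  have h2 : mass p (fun ω => F (π ω)) a = ∑ ω, p ω * (if F (π ω) = a then 1 else 0) := by
    unfold mass
    refine Finset.sum_congr rfl fun ω _ => ?_
    by_cases hc : F (π ω) = a
    · simp only [if_pos hc, mul_one]
    · simp only [if_neg hc, mul_zero]
  rw [h1, h2]
  exact sum_push p q π hq (fun b => if F b = a then 1 else 0)

theorem H_push (p : Ω → ℝ) (q : Ω' → ℝ) (π : Ω → Ω') (hq : ∀ b, q b = mass p π b)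
    (F : Ω' → α) : H q F = H p (fun ω => F (π ω)) := by
  unfold H
  rw [sum_push p q π hq (fun b => -Real.log (mass q F (F b)))]
  refine Finset.sum_congr rfl fun ω _ => ?_
  rw [mass_push p q π hq F]

theorem push_isPr {p : Ω → ℝ} {q : Ω' → ℝ} (π : Ω → Ω') (hq : ∀ b, q b = mass p π b)
    (hp : IsPr p) : IsPr q := by
  refine ⟨fun b => ?_, ?_⟩
  · rw [hq]
    exact mass_nonneg hp π b
  · have h1 := sum_push p q π hq (fun _ => 1)
    simp only [mul_one] at h1
    rw [h1, hp.sum_one]

end H51K
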