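import Pool.Agent.Lib.H51K.IT
import Pool.Agent.Lib.H51K.AP
import Pool.Agent.Lib.H38K.Exponent

/-!
# H51K/Final: the growth of `m(N, k)`
-/

namespace H51K

open Finset Pool.Agent.Lib.H21AP Pool.Agent.Lib.H38K Filter Topology

/-- With the growth exponent of `m(N, k₀)` in `N`, one has
`m(N, k) ≥ (k / (2 k₀)) (N - 1) ^ growthExp k₀` for all `k ≥ k₀` and all `N ≥ 1`. -/
theorem final_uniform {N k k₀ : ℕ} (h₀ : 1 ≤ k₀) (h : k₀ ≤ k) (hN : 1 ≤ N) :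
    (k : ℝ) / (2 * k₀) * ((N : ℝ) - 1) ^ growthExp k₀ ≤ minCard N k := by
  obtain ⟨j, hj1, hj2⟩ := exists_pow h₀ h
  obtain ⟨A, hA, hAc⟩ := exists_minCard N k
  obtain ⟨F, hF, hF'⟩ := split (Nat.pow_pos (n := j) two_pos) hj1 hA
  have hN' : (1 : ℝ) ≤ N := by exact_mod_cast hN
  obtain ⟨b, hbN, hb, hb'⟩ : ∃ b, b ≤ N ∧ Odd b ∧ N ≤ b + 1 := by
    rcases Nat.even_or_odd N with he | ho
    · obtain ⟨m, rfl⟩ := he
      exact ⟨m + m - 1, by omega, ⟨m - 1, by omega⟩, by omega⟩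
    · exact ⟨N, le_rfl, ho, by omega⟩
  obtain ⟨X, hX⟩ : ∃ X, X = ((N : ℝ) - 1) ^ growthExp k₀ := ⟨_, rfl⟩
  have hX0 : 0 ≤ X := by
    rw [hX]
    exact Real.rpow_nonneg (by linarith) _
  have h1 : ∀ r ∈ range (2 ^ j), X ≤ ((F r).card : ℝ) := by
    intro r hr
    have h2 := rpow_le_card_of_odd hb h₀ (A := F r) (fun d hd1 hd2 hd3 =>
      hF' r (mem_range.1 hr) d hd1 (hd2.trans hbN) (Nat.Coprime.pow_right j hd3))
    refine le_trans ?_ h2
    rw [hX]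
    apply Real.rpow_le_rpow (by linarith) _ (growthExp_nonneg k₀)
    have : (N : ℝ) ≤ b + 1 := by exact_mod_cast hb'
    linarith
  have h2 := sum_le_sum h1
  rw [sum_const, card_range, nsmul_eq_mul, ← Nat.cast_sum, hF, hAc] at h2
  rw [← hX]
  refine le_trans (mul_le_mul_of_nonneg_right ?_ hX0) h2
  have h3 : (0 : ℝ) < 2 * k₀ := by
    have : (0 : ℝ) < k₀ := by exact_mod_cast h₀
    linarith
  rw [div_le_iff₀ h3, mul_comm]
  exact_mod_cast hj2.le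

/-- A lower bound for one length and all `N`. -/
theorem final_one {σ θ : ℝ} (hθ : 1 ≤ θ) (hσ : σ < θ) (hB : Box 0 σ) :
    ∃ k₀ : ℕ, 1 ≤ k₀ ∧ ∀ N : ℕ, 1 ≤ N → (N : ℝ) ≤ (minCard N k₀ : ℝ) ^ θ := by
  obtain ⟨k₀, h⟩ := application hθ hσ hB
  refine ⟨k₀ + 1, by omega, ?_⟩
  intro N hN
  obtain ⟨A, hA, hAc⟩ := exists_minCard N (k₀ + 1)
  rw [← hAc]
  choose! a ha using hA
  exact h N hN A a (fun d hd1 hd2 i hi => ha d hd1 hd2 i (by omega))

theorem final_exp {θ : ℝ} (hθ : 1 ≤ θ) {k₀ : ℕ} (h₀ : 1 ≤ k₀)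
    (h : ∀ N : ℕ, 1 ≤ N → (N : ℝ) ≤ (minCard N k₀ : ℝ) ^ θ) : 1 / θ ≤ growthExp k₀ := by
  have hθ0 : 0 < θ := by linarith
  have hlog : Tendsto (fun N : ℕ => Real.log ((N : ℝ) + 1)) atTop atTop := by
    have h1 : Tendsto (fun N : ℕ => ((N + 1 : ℕ) : ℝ)) atTop atTop :=
      tendsto_natCast_atTop_atTop.comp (tendsto_add_atTop_nat 1)
    have h2 := Real.tendsto_log_atTop.comp h1
    refine h2.congr ?_
    intro N
    simp
  have hlim : Tendsto (fun N : ℕ => 1 / θ * (1 - (Real.log ((N : ℝ) + 1))⁻¹)) atTop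
      (𝓝 (1 / θ)) := by
    have h1 : Tendsto (fun N : ℕ => (Real.log ((N : ℝ) + 1))⁻¹) atTop (𝓝 0) :=
      tendsto_inv_atTop_zero.comp hlog
    have h2 := (tendsto_const_nhds (x := (1 : ℝ))).sub h1
    have h3 := h2.const_mul (1 / θ)
    simpa using h3
  refine le_of_tendsto_of_tendsto hlim (tendsto_growthExp h₀) ?_
  filter_upwards [eventually_ge_atTop 1] with N hN
  have hN0 : (0 : ℝ) < N := by exact_mod_cast hN
  have hL := log_succ_pos hN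
  have hm : (0 : ℝ) < minCard N k₀ := by exact_mod_cast minCard_pos hN h₀
  have h1 : Real.log N ≤ θ * Real.log (minCard N k₀) := by
    have := Real.log_le_log hN0 (h N hN)
    rwa [Real.log_rpow hm] at this
  have h2 : Real.log ((N : ℝ) + 1) - 1 ≤ Real.log N := by
    have h3 : Real.log ((N : ℝ) + 1) - Real.log N = Real.log (1 + 1 / N) := by
      rw [← Real.log_div (by positivity) hN0.ne']
      congr 1
      field_simp
    have h4 : Real.log (1 + 1 / (N : ℝ)) ≤ 1 / (N : ℝ) := by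
      have := Real.log_le_sub_one_of_pos (x := 1 + 1 / (N : ℝ)) (by positivity)
      linarith
    have h5 : 1 / (N : ℝ) ≤ 1 := by
      rw [div_le_one hN0]
      exact_mod_cast hN
    linarith
  rw [le_div_iff₀ hL]
  have h6 : 1 / θ * (1 - (Real.log ((N : ℝ) + 1))⁻¹) * Real.log ((N : ℝ) + 1)
      = (Real.log ((N : ℝ) + 1) - 1) / θ := by
    field_simp
  rw [h6, div_le_iff₀ hθ0]
  linarith

/-- **Theorem.** For every `θ ≥ 1` with `13 θ³ - 30 θ² + 15 θ - 2 > 0` there are `k₀` and `c > 0`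
with `m(N, k) ≥ c k N ^ (1/θ)` for all `k ≥ k₀`, `N ≥ 1`. -/
theorem final_main {θ : ℝ} (hθ : 1 ≤ θ) (hc : 0 < 13 * θ ^ 3 - 30 * θ ^ 2 + 15 * θ - 2) :
    ∃ (k₀ : ℕ) (c : ℝ), 0 < c ∧ ∀ k N : ℕ, k₀ ≤ k → 1 ≤ N →
      c * k * (N : ℝ) ^ (1 / θ) ≤ minCard N k := by
  obtain ⟨σ, hσ1, hσB, hσc⟩ := exists_sigma
  have hσθ : σ < θ := sigma_lt hσ1 hσc hθ hc
  obtain ⟨k₀, h₀, hk⟩ := final_one hθ hσθ hσB
  have hexp := final_exp hθ h₀ hk
  have hθ0 : 0 < θ := by linarith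
  have hθi : 1 / θ ≤ 1 := by rw [div_le_one hθ0]; exact hθ
  have hθi0 : 0 < 1 / θ := by positivity
  have hk0 : (1 : ℝ) ≤ k₀ := by exact_mod_cast h₀
  refine ⟨k₀, 1 / (4 * k₀), by positivity, ?_⟩
  intro k N hk1 hN
  have hkk : (0 : ℝ) ≤ k := Nat.cast_nonneg k
  rcases Nat.lt_or_ge N 2 with h2 | h2
  · have hN1 : N = 1 := by omega
    subst hN1
    have h3 : (k : ℝ) ≤ minCard 1 k := by exact_mod_cast le_minCard (N := 1) (k := k) le_rfl
    rw [Nat.cast_one, Real.one_rpow, mul_one]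
    have h4 : 1 / (4 * (k₀ : ℝ)) ≤ 1 := by
      rw [div_le_one (by positivity)]
      linarith
    have h5 := mul_le_mul_of_nonneg_right h4 hkk
    linarith
  · have h3 := final_uniform h₀ hk1 hN
    refine le_trans ?_ h3
    have hN2 : (2 : ℝ) ≤ N := by exact_mod_cast h2
    have h4 : ((N : ℝ) / 2) ^ (1 / θ) ≤ ((N : ℝ) - 1) ^ growthExp k₀ := by
      calc ((N : ℝ) / 2) ^ (1 / θ) ≤ ((N : ℝ) - 1) ^ (1 / θ) :=
            Real.rpow_le_rpow (by positivity) (by linarith) hθi0.le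
        _ ≤ ((N : ℝ) - 1) ^ growthExp k₀ :=
            Real.rpow_le_rpow_of_exponent_le (by linarith) hexp
    have h5 : (N : ℝ) ^ (1 / θ) / 2 ≤ ((N : ℝ) / 2) ^ (1 / θ) := by
      rw [Real.div_rpow (by positivity) (by norm_num)]
      apply div_le_div_of_nonneg_left (by positivity) (by positivity)
      calc (2 : ℝ) ^ (1 / θ) ≤ 2 ^ (1 : ℝ) :=
            Real.rpow_le_rpow_of_exponent_le (by norm_num) hθi
        _ = 2 := by norm_num
    have h6 : 1 / (4 * (k₀ : ℝ)) * k * (N : ℝ) ^ (1 / θ)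
        = (k : ℝ) / (2 * k₀) * ((N : ℝ) ^ (1 / θ) / 2) := by
      field_simp
      ring
    rw [h6]
    apply mul_le_mul_of_nonneg_left (le_trans h5 h4) (by positivity)

end H51K
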