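import Pool.Agent.Lib.H51K.E4

/-!
# H51K/G1: gluings, marginals
-/

namespace H51K

open Finset

variable {Ω₁ Ω₂ γ α : Type*} [Fintype Ω₁] [Fintype Ω₂] {p₁ : Ω₁ → ℝ} {f₁ : Ω₁ → γ}
  {p₂ : Ω₂ → ℝ} {f₂ : Ω₂ → γ}

theorem glue_supp {ω : Ω₁ × Ω₂} (h : glue p₁ f₁ p₂ f₂ ω ≠ 0) :
    p₁ ω.1 ≠ 0 ∧ p₂ ω.2 ≠ 0 ∧ f₁ ω.1 = f₂ ω.2 := by
  classical
  by_cases he : f₁ ω.1 = f₂ ω.2
  · refine ⟨fun h0 => h ?_, fun h0 => h ?_, he⟩
    · simp [glue, h0]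
    · simp [glue, h0]
  · exact absurd (by simp [glue, he]) h

/-- `∑_b [f₁ a = f₂ b] p₁ a p₂ b / mass p₁ f₁ (f₁ a) = p₁ a mass p₂ f₂ (f₁ a) / mass p₁ f₁ (f₁ a)`
`= p₁ a` (if `p₁ a = 0` both sides vanish). -/
theorem mass_glue_fst (h1 : IsPr p₁) (h2 : IsPr p₂) (hl : SameLaw p₁ f₁ p₂ f₂) (a : Ω₁) :
    p₁ a = mass (glue p₁ f₁ p₂ f₂) Prod.fst a := by
  classical
  have e1 : mass (glue p₁ f₁ p₂ f₂) Prod.fst a = ∑ b, glue p₁ f₁ p₂ f₂ (a, b) := by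
    unfold mass
    rw [Fintype.sum_prod_type]
    rw [Finset.sum_eq_single a]
    · simp
    · intro b _ hb
      simp [hb]
    · intro h
      exact absurd (Finset.mem_univ a) h
  have e2 : ∀ b, glue p₁ f₁ p₂ f₂ (a, b)
      = p₁ a / mass p₁ f₁ (f₁ a) * (if f₂ b = f₁ a then p₂ b else 0) := by
    intro b
    by_cases hb : f₁ a = f₂ b
    · have hb' : f₂ b = f₁ a := hb.symm
      simp only [glue, hb', if_true]
      ring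
    · have hb' : ¬ f₂ b = f₁ a := fun h => hb h.symm
      simp [glue, hb, hb']
  rw [e1, Finset.sum_congr rfl (fun b _ => e2 b), ← Finset.mul_sum]
  have e3 : ∑ b, (if f₂ b = f₁ a then p₂ b else 0) = mass p₂ f₂ (f₁ a) := by
    unfold mass
    rfl
  rw [e3, ← hl (f₁ a)]
  by_cases h0 : p₁ a = 0
  · simp [h0]
  · have hm := mass_pos h1 f₁ h0
    field_simp

theorem mass_glue_snd (h1 : IsPr p₁) (h2 : IsPr p₂) (hl : SameLaw p₁ f₁ p₂ f₂) (b : Ω₂) :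
    p₂ b = mass (glue p₁ f₁ p₂ f₂) Prod.snd b := by
  classical
  have e1 : mass (glue p₁ f₁ p₂ f₂) Prod.snd b = ∑ a, glue p₁ f₁ p₂ f₂ (a, b) := by
    unfold mass
    rw [Fintype.sum_prod_type]
    refine Finset.sum_congr rfl (fun a _ => ?_)
    rw [Finset.sum_eq_single b]
    · simp
    · intro c _ hc
      simp [hc]
    · intro h
      exact absurd (Finset.mem_univ b) h
  have e2 : ∀ a, glue p₁ f₁ p₂ f₂ (a, b)
      = p₂ b / mass p₁ f₁ (f₂ b) * (if f₁ a = f₂ b then p₁ a else 0) := by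
    intro a
    by_cases hb : f₁ a = f₂ b
    · simp only [glue, hb, if_true]
      ring
    · simp [glue, hb]
  rw [e1, Finset.sum_congr rfl (fun a _ => e2 a), ← Finset.mul_sum]
  have e3 : ∑ a, (if f₁ a = f₂ b then p₁ a else 0) = mass p₁ f₁ (f₂ b) := by
    unfold mass
    rfl
  rw [e3]
  by_cases h0 : p₂ b = 0
  · simp [h0]
  · have hm := mass_pos h2 f₂ h0
    rw [← hl (f₂ b)] at hm
    field_simp

theorem glue_isPr (h1 : IsPr p₁) (h2 : IsPr p₂) (hl : SameLaw p₁ f₁ p₂ f₂) :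
    IsPr (glue p₁ f₁ p₂ f₂) := by
  classical
  constructor
  · intro ω
    by_cases he : f₁ ω.1 = f₂ ω.2
    · simp only [glue, he, if_true]
      exact div_nonneg (mul_nonneg (h1.nonneg _) (h2.nonneg _)) (mass_nonneg h1 _ _)
    · simp [glue, he]
  · have e := sum_push (glue p₁ f₁ p₂ f₂) p₁ Prod.fst (mass_glue_fst h1 h2 hl) (fun _ => 1)
    simp only [mul_one] at e
    rw [← e, h1.sum_one]

/-- From `sum_push`. -/
theorem sum_glue_fst (h1 : IsPr p₁) (h2 : IsPr p₂) (hl : SameLaw p₁ f₁ p₂ f₂)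
    (G : Ω₁ → ℝ) : ∑ ω, glue p₁ f₁ p₂ f₂ ω * G ω.1 = ∑ a, p₁ a * G a :=
  (sum_push (glue p₁ f₁ p₂ f₂) p₁ Prod.fst (mass_glue_fst h1 h2 hl) G).symm

theorem sum_glue_snd (h1 : IsPr p₁) (h2 : IsPr p₂) (hl : SameLaw p₁ f₁ p₂ f₂)
    (G : Ω₂ → ℝ) : ∑ ω, glue p₁ f₁ p₂ f₂ ω * G ω.2 = ∑ b, p₂ b * G b :=
  (sum_push (glue p₁ f₁ p₂ f₂) p₂ Prod.snd (mass_glue_snd h1 h2 hl) G).symm

/-- From `H_push`. -/
theorem H_glue_fst (h1 : IsPr p₁) (h2 : IsPr p₂) (hl : SameLaw p₁ f₁ p₂ f₂)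
    (F : Ω₁ → α) : H (glue p₁ f₁ p₂ f₂) (fun ω => F ω.1) = H p₁ F :=
  (H_push (glue p₁ f₁ p₂ f₂) p₁ Prod.fst (mass_glue_fst h1 h2 hl) F).symm

theorem H_glue_snd (h1 : IsPr p₁) (h2 : IsPr p₂) (hl : SameLaw p₁ f₁ p₂ f₂)
    (F : Ω₂ → α) : H (glue p₁ f₁ p₂ f₂) (fun ω => F ω.2) = H p₂ F :=
  (H_push (glue p₁ f₁ p₂ f₂) p₂ Prod.snd (mass_glue_snd h1 h2 hl) F).symm

/-- The law of `F₁` under the gluing (needed for `SameLaw` of further gluings). -/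
theorem law_glue_fst (h1 : IsPr p₁) (h2 : IsPr p₂) (hl : SameLaw p₁ f₁ p₂ f₂)
    (F : Ω₁ → α) (c : α) :
    mass (glue p₁ f₁ p₂ f₂) (fun ω => F ω.1) c = mass p₁ F c :=
  (mass_push (glue p₁ f₁ p₂ f₂) p₁ Prod.fst (mass_glue_fst h1 h2 hl) F c).symm

theorem law_glue_snd (h1 : IsPr p₁) (h2 : IsPr p₂) (hl : SameLaw p₁ f₁ p₂ f₂)
    (F : Ω₂ → α) (c : α) :
    mass (glue p₁ f₁ p₂ f₂) (fun ω => F ω.2) c = mass p₂ F c :=
  (mass_push (glue p₁ f₁ p₂ f₂) p₂ Prod.snd (mass_glue_snd h1 h2 hl) F c).symm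

end H51K
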