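import Pool.Agent.Lib.H51K.G1

/-!
# H51K/G2: the entropy of a gluing
-/

namespace H51K

open Finset

variable {Ω₁ Ω₂ γ α β : Type*} [Fintype Ω₁] [Fintype Ω₂] {p₁ : Ω₁ → ℝ} {f₁ : Ω₁ → γ}
  {p₂ : Ω₂ → ℝ} {f₂ : Ω₂ → γ}

/-- For `ω` in the support: `mass (F₁, F₂) = mass F₁ * mass F₂ / mass f₁`. The sum over
`(a', b')` with `F₁ a' = F₁ ω.1`, `F₂ b' = F₂ ω.2`: for `p₁ a', p₂ b' ≠ 0` one has
`f₁ a' = f₁ ω.1 = f₂ ω.2 = f₂ b'`, so the sum is the product of the two sums divided by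
`mass p₁ f₁ (f₁ ω.1)`. -/
theorem mass_glue_pair (h1 : IsPr p₁) (h2 : IsPr p₂) (hl : SameLaw p₁ f₁ p₂ f₂)
    (F₁ : Ω₁ → α) (F₂ : Ω₂ → β) (d1 : Det p₁ F₁ f₁) (d2 : Det p₂ F₂ f₂) {ω : Ω₁ × Ω₂}
    (hω : glue p₁ f₁ p₂ f₂ ω ≠ 0) :
    mass (glue p₁ f₁ p₂ f₂) (fun ω => (F₁ ω.1, F₂ ω.2)) (F₁ ω.1, F₂ ω.2)
      = mass p₁ F₁ (F₁ ω.1) * mass p₂ F₂ (F₂ ω.2) / mass p₁ f₁ (f₁ ω.1) := by
  classical
  obtain ⟨ha, hb, hab⟩ := glue_supp hω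
  have hterm : ∀ a b, (if (F₁ a, F₂ b) = (F₁ ω.1, F₂ ω.2) then glue p₁ f₁ p₂ f₂ (a, b) else 0) =
      (if F₁ a = F₁ ω.1 then p₁ a else 0) * (if F₂ b = F₂ ω.2 then p₂ b else 0) /
        mass p₁ f₁ (f₁ ω.1) := by
    intro a b
    by_cases hA : F₁ a = F₁ ω.1
    · by_cases hB : F₂ b = F₂ ω.2
      · rw [if_pos (by rw [hA, hB]), if_pos hA, if_pos hB]
        unfold glue
        by_cases ha0 : p₁ a = 0
        · rw [ha0]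
          simp
        · by_cases hb0 : p₂ b = 0
          · rw [hb0]
            simp
          · have e1 : f₁ a = f₁ ω.1 := d1 _ _ ha0 ha hA
            have e2 : f₂ b = f₂ ω.2 := d2 _ _ hb0 hb hB
            have e3 : f₁ (a, b).1 = f₂ (a, b).2 := e1.trans (hab.trans e2.symm)
            rw [if_pos e3, e1]
      · rw [if_neg (fun h => hB (Prod.ext_iff.1 h).2), if_neg hB, mul_zero, zero_div]
    · rw [if_neg (fun h => hA (Prod.ext_iff.1 h).1), if_neg hA, zero_mul, zero_div]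
  have hsum : mass (glue p₁ f₁ p₂ f₂) (fun ω => (F₁ ω.1, F₂ ω.2)) (F₁ ω.1, F₂ ω.2) =
      ∑ a, ∑ b, (if (F₁ a, F₂ b) = (F₁ ω.1, F₂ ω.2) then glue p₁ f₁ p₂ f₂ (a, b) else 0) := by
    unfold mass
    rw [Fintype.sum_prod_type]
    refine Finset.sum_congr rfl fun a _ => Finset.sum_congr rfl fun b _ => ?_
    by_cases hc : (F₁ a, F₂ b) = (F₁ ω.1, F₂ ω.2)
    · rw [if_pos hc, if_pos hc]
    · rw [if_neg hc, if_neg hc]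
  rw [hsum]
  simp_rw [hterm]
  simp_rw [← Finset.sum_div]
  rw [← Finset.sum_mul_sum]
  rfl

/-- `log` of `mass_glue_pair`, `sum_glue_fst`, `sum_glue_snd`. -/
theorem H_glue (h1 : IsPr p₁) (h2 : IsPr p₂) (hl : SameLaw p₁ f₁ p₂ f₂)
    (F₁ : Ω₁ → α) (F₂ : Ω₂ → β) (d1 : Det p₁ F₁ f₁) (d2 : Det p₂ F₂ f₂) :
    H (glue p₁ f₁ p₂ f₂) (fun ω => (F₁ ω.1, F₂ ω.2)) = H p₁ F₁ + H p₂ F₂ - H p₁ f₁ := by
  have hterm : ∀ ω : Ω₁ × Ω₂, glue p₁ f₁ p₂ f₂ ω *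
      (-Real.log (mass (glue p₁ f₁ p₂ f₂) (fun ω => (F₁ ω.1, F₂ ω.2)) (F₁ ω.1, F₂ ω.2))) =
      glue p₁ f₁ p₂ f₂ ω * (-Real.log (mass p₁ F₁ (F₁ ω.1))) +
        glue p₁ f₁ p₂ f₂ ω * (-Real.log (mass p₂ F₂ (F₂ ω.2))) -
        glue p₁ f₁ p₂ f₂ ω * (-Real.log (mass p₁ f₁ (f₁ ω.1))) := by
    intro ω
    by_cases h0 : glue p₁ f₁ p₂ f₂ ω = 0
    · rw [h0]
      simp
    · obtain ⟨ha, hb, hab⟩ := glue_supp h0
      have m1 := mass_pos h1 F₁ ha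
      have m2 := mass_pos h2 F₂ hb
      have m3 := mass_pos h1 f₁ ha
      rw [mass_glue_pair h1 h2 hl F₁ F₂ d1 d2 h0,
        Real.log_div (mul_pos m1 m2).ne' m3.ne', Real.log_mul m1.ne' m2.ne']
      ring
  have hH : H (glue p₁ f₁ p₂ f₂) (fun ω => (F₁ ω.1, F₂ ω.2)) =
      ∑ ω : Ω₁ × Ω₂, glue p₁ f₁ p₂ f₂ ω *
        (-Real.log (mass (glue p₁ f₁ p₂ f₂) (fun ω => (F₁ ω.1, F₂ ω.2)) (F₁ ω.1, F₂ ω.2))) := rfl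
  rw [hH, Finset.sum_congr rfl fun ω _ => hterm ω, Finset.sum_sub_distrib,
    Finset.sum_add_distrib,
    sum_glue_fst h1 h2 hl (fun a => -Real.log (mass p₁ F₁ (F₁ a))),
    sum_glue_snd h1 h2 hl (fun b => -Real.log (mass p₂ F₂ (F₂ b))),
    sum_glue_fst h1 h2 hl (fun a => -Real.log (mass p₁ f₁ (f₁ a)))]
  rfl

end H51K
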