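import Pool.Agent.Lib.H51K.W1
import Pool.Agent.Lib.H51K.S2

/-!
# H51K/W2: the weighted box
-/

namespace H51K

open Finset

/-- A box from an arbitrary finite index set. -/
theorem W2_index {l m ε : ℝ} {R : ℚ} {ι : Type} [Fintype ι] (r : ι → ℚ) (w : ι → ℝ)
    (hr : ∀ i, R < r i) (hw : ∀ i, 0 ≤ w i) (hs : ∑ i, w i = 1)
    (hB : ∀ (Ω : Type) [Fintype Ω] (p : Ω → ℝ) (x t : Ω → ℚ), IsPr p → Det p t x →
      H p (fun ω => (x ω, t ω)) ≤ l * H p x + m * ∑ i, w i * H p (fun ω => x ω + r i * t ω)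
        + ε * H p (fun ω => (x ω, t ω))) :
    ∃ (n : ℕ) (r : Fin n → ℚ) (w : Fin n → ℝ),
      (∀ i, R < r i) ∧ (∀ i, 0 ≤ w i) ∧ ∑ i, w i = 1 ∧ BoxI l m ε r w := by
  have e := Fintype.equivFin ι
  refine ⟨Fintype.card ι, fun i => r (e.symm i), fun i => w (e.symm i), fun i => hr _,
    fun i => hw _, ?_, ?_⟩
  · rw [Equiv.sum_comp e.symm w, hs]
  · intro Ω _ p x t hp hd
    have h1 := hB Ω p x t hp hd
    have h2 := Equiv.sum_comp e.symm (fun i => w i * H p (fun ω => x ω + r i * t ω))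
    rw [← h2] at h1
    exact h1

/-- **Weighted box.** `Box 0 α` implies `Box (1/2) (3/2 - 1/(2α))`.

Given `ε` and `R` (take `R' = max R 0 + 1 > 0`): apply `Box 0 α` with error
`ε' = min ε 1 * α / 2` or simply `ε * α / 2` (so that `(2 ε' / α) / 2 ≤ ε`) and bound
`max R 1`: slopes `k_i > 1`, `k_i > R`. Fix `u = v = R'`. `w2_ineq` at `s = 0` and
`w1_ineq` give, with `ν = 2 h - φ(0)`, `W = A^0(u,v)`,
`Φ = ∑ w_i (φ(u k_i) + φ(v k_i/(k_i-1)))`: `ν - W ≤ α (Φ - W) + 2 ε' h`, `ν ≤ W + φ(v)`, so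
(`α ≥ 1`) `α ν ≤ α Φ + (α - 1) φ(v) + 2 ε' h`, that is
`h ≤ φ(0)/2 + Φ/2 + (1 - 1/α) φ(v)/2 + (ε'/α) h`. Total weight of the second part:
`μ = 1 + (1 - 1/α)/2 = 3/2 - 1/(2α) > 0`. Index set `Fin (n + n + 1)` (or any `Fintype`
transported by `Fintype.equivFin`): weights `w_i/(2μ)` at `u k_i`, `w_i/(2μ)` at
`v k_i/(k_i-1)`, `(1-1/α)/(2μ)` at `v`; slopes `> R` as `k_i > 1`, `k_i/(k_i-1) > 1`,
`u = v = R' > R`, `R' > 0`. -/
theorem weighted_box {α : ℝ} (hα : 1 ≤ α) (hB : Box 0 α) :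
    Box (1 / 2) (3 / 2 - 1 / (2 * α)) := by
  intro ε hε R
  have hα0 : 0 < α := by linarith
  obtain ⟨n, k, w, hk, hw, hsum, hbox⟩ := hB (ε * α) (mul_pos hε hα0) 1
  obtain ⟨u, hu0, huR⟩ : ∃ u : ℚ, 0 < u ∧ R < u :=
    ⟨max R 0 + 1, by have := le_max_right R 0; linarith, by have := le_max_left R 0; linarith⟩
  have hinv : 1 / α ≤ 1 := by rw [div_le_one hα0]; exact hα
  have hinv0 : 0 < 1 / α := by positivity
  have hμe : 3 / 2 - 1 / (2 * α) = (3 - 1 / α) / 2 := by field_simp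
  have hμ : 0 < 3 - 1 / α := by linarith
  have hkk : ∀ i, 1 < k i / (k i - 1) := by
    intro i
    have := hk i
    rw [one_lt_div (by linarith)]
    linarith
  rw [hμe]
  refine W2_index (ι := (Fin n ⊕ Fin n) ⊕ Unit)
    (Sum.elim (Sum.elim (fun i => u * k i) (fun i => u * (k i / (k i - 1)))) (fun _ => u))
    (Sum.elim (Sum.elim (fun i => w i / (3 - 1 / α)) (fun i => w i / (3 - 1 / α)))
      (fun _ => (1 - 1 / α) / (3 - 1 / α))) ?_ ?_ ?_ ?_
  · rintro ((i | i) | i)
    · have h1 := hk i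
      simp only [Sum.elim_inl]
      nlinarith
    · have h1 := hkk i
      simp only [Sum.elim_inl, Sum.elim_inr]
      nlinarith
    · simp only [Sum.elim_inr]
      exact huR
  · rintro ((i | i) | i)
    · exact div_nonneg (hw i) hμ.le
    · exact div_nonneg (hw i) hμ.le
    · exact div_nonneg (by linarith) hμ.le
  · rw [Fintype.sum_sum_type, Fintype.sum_sum_type]
    simp only [Sum.elim_inl, Sum.elim_inr, ← Finset.sum_div, hsum, Finset.univ_unique,
      Finset.sum_const, Finset.card_singleton, one_smul]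
    have e : 1 / (3 - 1 / α) + 1 / (3 - 1 / α) + (1 - 1 / α) / (3 - 1 / α)
        = (3 - 1 / α) / (3 - 1 / α) := by ring
    rw [e, div_self hμ.ne']
  · intro Ω _ p x t hp hd
    have h2 := w2_ineq hp hd hα0.le (mul_pos hε hα0).le hk hw hbox 0 hu0.ne' hu0.ne'
    have h1 := w1_ineq hp hd 0 hu0.ne' hu0.ne'
    have e0 : ph p x t 0 = H p x := by
      unfold ph
      have : yy x t 0 = x := by
        funext ω
        simp [yy]
      rw [this]
    have ephi : ∀ s : ℚ, H p (fun ω => x ω + s * t ω) = ph p x t s := fun s => rfl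
    have ehh : H p (fun ω => (x ω, t ω)) = hh p x t := rfl
    simp only [zero_add] at h1 h2
    have es : ∑ i, w i * (ph p x t (u * k i) + ph p x t (u * (k i / (k i - 1)))
        - AA p x t 0 u u) = ∑ i, w i * ph p x t (u * k i)
          + ∑ i, w i * ph p x t (u * (k i / (k i - 1))) - AA p x t 0 u u := by
      have : ∀ i, w i * (ph p x t (u * k i) + ph p x t (u * (k i / (k i - 1)))
          - AA p x t 0 u u) = w i * ph p x t (u * k i)
            + w i * ph p x t (u * (k i / (k i - 1))) - w i * AA p x t 0 u u := by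
        intro i
        ring
      rw [Finset.sum_congr rfl (fun i _ => this i), Finset.sum_sub_distrib,
        Finset.sum_add_distrib, ← Finset.sum_mul, hsum, one_mul]
    rw [es] at h2
    rw [Fintype.sum_sum_type, Fintype.sum_sum_type]
    simp only [Sum.elim_inl, Sum.elim_inr, Finset.univ_unique, Finset.sum_const,
      Finset.card_singleton, one_smul, ephi, ehh]
    have t1 : ∑ i, w i / (3 - 1 / α) * ph p x t (u * k i)
        = (∑ i, w i * ph p x t (u * k i)) / (3 - 1 / α) := by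
      rw [Finset.sum_div]
      refine Finset.sum_congr rfl (fun i _ => ?_)
      ring
    have t2 : ∑ i, w i / (3 - 1 / α) * ph p x t (u * (k i / (k i - 1)))
        = (∑ i, w i * ph p x t (u * (k i / (k i - 1)))) / (3 - 1 / α) := by
      rw [Finset.sum_div]
      refine Finset.sum_congr rfl (fun i _ => ?_)
      ring
    rw [t1, t2, ← e0]
    set S1 := ∑ i, w i * ph p x t (u * k i)
    set S2 := ∑ i, w i * ph p x t (u * (k i / (k i - 1)))
    set W := AA p x t 0 u u
    set q := ph p x t u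
    set h := hh p x t
    set q0 := ph p x t 0
    have e : (3 - 1 / α) / 2 * (S1 / (3 - 1 / α) + S2 / (3 - 1 / α)
        + (1 - 1 / α) / (3 - 1 / α) * q) = (S1 + S2 + (1 - 1 / α) * q) / 2 := by
      have e1 : (3 - 1 / α) / 2 * (S1 / (3 - 1 / α) + S2 / (3 - 1 / α)
        + (1 - 1 / α) / (3 - 1 / α) * q)
        = ((3 - 1 / α) / (3 - 1 / α)) * ((S1 + S2 + (1 - 1 / α) * q) / 2) := by ring
      rw [e1, div_self hμ.ne', one_mul]
    rw [e]
    have h3 : α * (2 * h - q0) ≤ α * (S1 + S2) + (α - 1) * q + ε * α * (2 * h) := by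
      nlinarith
    have h4 : 2 * h - q0 ≤ S1 + S2 + (1 - 1 / α) * q + ε * (2 * h) := by
      have h5 : α * (S1 + S2 + (1 - 1 / α) * q + ε * (2 * h))
          = α * (S1 + S2) + (α - 1) * q + ε * α * (2 * h) := by
        have e2 : α * (1 / α) = 1 := mul_one_div_cancel hα0.ne'
        linear_combination (-q) * e2
      refine le_of_mul_le_mul_left ?_ hα0
      rw [h5]
      exact h3
    linarith

end H51K
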