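import Pool.Agent.Lib.H51K.ST
import Pool.Agent.Lib.H51K.W2

/-!
# H51K/IT: iteration
-/

namespace H51K

/-- `box_step` with the weighted box, `gnum_eq`, `gden_eq`. -/
theorem box_iter {α : ℝ} (hα : 1 ≤ α) (h : Box 0 α) :
    Box 0 ((27 * α ^ 3 + 4 * α ^ 2 - 11 * α + 2) / (13 * α ^ 3 + 10 * α ^ 2 - 11 * α + 2)) := by
  have hα0 : 0 < 2 * α := by linarith
  have hm : 0 ≤ 3 / 2 - 1 / (2 * α) := by
    have : 1 / (2 * α) ≤ 1 / 2 := by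
      apply one_div_le_one_div_of_le (by norm_num)
      linarith
    linarith
  have h1 := box_step hα hm (by norm_num) (cA_nonneg hα) (cB_nonneg hα) (gden_pos hα) h
    (weighted_box hα h)
  rwa [gnum_eq hα, gden_eq hα, div_div_div_cancel_right₀ hα0.ne'] at h1

/-- **The exponent.** There is `σ ≥ 1` with `Box 0 σ` and
`13 σ³ - 30 σ² + 15 σ - 2 ≤ 0`. -/
theorem exists_sigma : ∃ σ : ℝ, 1 ≤ σ ∧ Box 0 σ ∧ 13 * σ ^ 3 - 30 * σ ^ 2 + 15 * σ - 2 ≤ 0 := by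
  have hne : {α : ℝ | 1 ≤ α ∧ Box 0 α}.Nonempty := ⟨2, by norm_num, box_two⟩
  have hbdd : BddBelow {α : ℝ | 1 ≤ α ∧ Box 0 α} := ⟨1, fun α h => h.1⟩
  obtain ⟨σ, hσ⟩ : ∃ σ, σ = sInf {α : ℝ | 1 ≤ α ∧ Box 0 α} := ⟨_, rfl⟩
  have h1 : 1 ≤ σ := hσ ▸ le_csInf hne fun α h => h.1
  have hB : Box 0 σ := by
    apply box_closed
    intro m' hm'
    rw [hσ] at hm'
    obtain ⟨α, hα, hαm⟩ := exists_lt_of_csInf_lt hne hm'
    exact hα.2.mono hαm.le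
  refine ⟨σ, h1, hB, ?_⟩
  by_contra hc
  push Not at hc
  have hσ1 : 1 < σ := by
    rcases h1.eq_or_lt with h | h
    · rw [← h] at hc
      norm_num at hc
    · exact h
  have hden : 0 < 13 * σ ^ 3 + 10 * σ ^ 2 - 11 * σ + 2 := by
    nlinarith [mul_nonneg (sub_nonneg.2 h1) (sub_nonneg.2 h1),
      mul_nonneg (mul_nonneg (sub_nonneg.2 h1) (sub_nonneg.2 h1)) (sub_nonneg.2 h1)]
  have hlt : (27 * σ ^ 3 + 4 * σ ^ 2 - 11 * σ + 2) / (13 * σ ^ 3 + 10 * σ ^ 2 - 11 * σ + 2)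
      < σ := by
    rw [div_lt_iff₀ hden]
    have : 0 < (σ + 1) * (13 * σ ^ 3 - 30 * σ ^ 2 + 15 * σ - 2) := mul_pos (by linarith) hc
    nlinarith
  have h2 : max ((27 * σ ^ 3 + 4 * σ ^ 2 - 11 * σ + 2) /
      (13 * σ ^ 3 + 10 * σ ^ 2 - 11 * σ + 2)) 1 ∈ {α : ℝ | 1 ≤ α ∧ Box 0 α} :=
    ⟨le_max_right _ _, (box_iter h1 hB).mono (le_max_left _ _)⟩
  have h3 := csInf_le hbdd h2
  rw [← hσ] at h3
  exact absurd h3 (not_le.2 (max_lt hlt hσ1))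

/-- If the cubic is positive at `θ ≥ 1` and not positive at `σ ≥ 1` then `σ < θ`: first
`θ > 3/2` (the cubic is negative on `[1, 3/2]`); the cubic is increasing on `[3/2, ∞)`. -/
theorem sigma_lt {σ θ : ℝ} (hσ : 1 ≤ σ) (h1 : 13 * σ ^ 3 - 30 * σ ^ 2 + 15 * σ - 2 ≤ 0)
    (hθ : 1 ≤ θ) (h2 : 0 < 13 * θ ^ 3 - 30 * θ ^ 2 + 15 * θ - 2) : σ < θ := by
  have hθ2 : 3 / 2 < θ := by
    by_contra hc
    push Not at hc
    have h3 : 0 ≤ (θ - 1) * (3 / 2 - θ) := mul_nonneg (by linarith) (by linarith)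
    nlinarith [mul_nonneg h3 (by linarith : (0 : ℝ) ≤ θ)]
  by_contra hc
  push Not at hc
  have h3 : 0 ≤ (σ - θ) * (13 * (σ ^ 2 + σ * θ + θ ^ 2) - 30 * (σ + θ) + 15) := by
    apply mul_nonneg (by linarith)
    nlinarith [mul_nonneg (by linarith : (0 : ℝ) ≤ σ - 3 / 2) (by linarith : (0 : ℝ) ≤ θ - 3 / 2),
      mul_nonneg (by linarith : (0 : ℝ) ≤ σ - 3 / 2) (by linarith : (0 : ℝ) ≤ σ - 3 / 2),
      mul_nonneg (by linarith : (0 : ℝ) ≤ θ - 3 / 2) (by linarith : (0 : ℝ) ≤ θ - 3 / 2)]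
  nlinarith

end H51K
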