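import Pool.Agent.Lib.H51K.E1

/-!
# H51K/K1: conditioning
-/

namespace H51K

open Finset

variable {Ω α ζ : Type*} [Fintype Ω] {p : Ω → ℝ}

theorem cnd_isPr (hp : IsPr p) (Z : Ω → ζ) {z : ζ} (hz : mass p Z z ≠ 0) :
    IsPr (cnd p Z z) := by
  classical
  constructor
  · intro ω
    unfold cnd
    split_ifs
    · exact div_nonneg (hp.nonneg _) (mass_nonneg hp _ _)
    · exact le_rfl
  · have e : ∀ ω, cnd p Z z ω = (if Z ω = z then p ω else 0) * (mass p Z z)⁻¹ := by
      intro ω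
      unfold cnd
      split_ifs
      · rw [div_eq_mul_inv]
      · simp
    rw [Finset.sum_congr rfl (fun ω _ => e ω), ← Finset.sum_mul]
    have e3 : ∑ ω, (if Z ω = z then p ω else 0) = mass p Z z := by
      unfold mass
      rfl
    rw [e3, mul_inv_cancel₀ hz]

theorem cnd_supp {Z : Ω → ζ} {z : ζ} {ω : Ω} (h : cnd p Z z ω ≠ 0) :
    p ω ≠ 0 ∧ Z ω = z := by
  classical
  by_cases hz : Z ω = z
  · refine ⟨fun h0 => h ?_, hz⟩
    simp [cnd, h0]
  · exact absurd (by simp [cnd, hz]) h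

/-- The conditional masses. -/
theorem K1_mass (f : Ω → α) (Z : Ω → ζ) (a : α) (z : ζ) :
    mass (cnd p Z z) f a = mass p (fun ω => (f ω, Z ω)) (a, z) / mass p Z z := by
  classical
  have e : ∀ ω, (if f ω = a then cnd p Z z ω else 0)
      = (if (f ω, Z ω) = (a, z) then p ω else 0) * (mass p Z z)⁻¹ := by
    intro ω
    by_cases h1 : f ω = a
    · by_cases h2 : Z ω = z
      · simp [cnd, h1, h2, div_eq_mul_inv]
      · simp [cnd, h1, h2]
    · simp [h1]
  have l : mass (cnd p Z z) f a = ∑ ω, (if f ω = a then cnd p Z z ω else 0) := by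
    unfold mass
    rfl
  have r : mass p (fun ω => (f ω, Z ω)) (a, z)
      = ∑ ω, (if (f ω, Z ω) = (a, z) then p ω else 0) := by
    unfold mass
    refine Finset.sum_congr rfl (fun ω _ => ?_)
    by_cases h : (f ω, Z ω) = (a, z)
    · rw [if_pos h, if_pos h]
    · rw [if_neg h, if_neg h]
  rw [l, r, Finset.sum_congr rfl (fun ω _ => e ω), ← Finset.sum_mul, div_eq_mul_inv]

/-- **Chain rule.** `H(f, Z) - H(Z) = ∑_ω p ω H(f | Z = Z ω)`.

Proof. For `p ω' ≠ 0` and `z = Z ω'`:
`mass (cnd p Z z) f (f ω') = mass p (f, Z) (f ω', z) / mass p Z z`. So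
`∑_ω p ω ∑_ω' [Z ω' = Z ω] p ω' / mass p Z (Z ω) * (-log (...))`; exchange the sums and use
`∑_ω [Z ω = Z ω'] p ω = mass p Z (Z ω')`. -/
theorem H_chain (hp : IsPr p) (f : Ω → α) (Z : Ω → ζ) :
    H p (fun ω => (f ω, Z ω)) - H p Z = ∑ ω, p ω * H (cnd p Z (Z ω)) f := by
  classical
  -- the term of index `(ω, ω')`
  have e1 : ∀ ω, p ω * H (cnd p Z (Z ω)) f
      = ∑ ω', (if Z ω = Z ω' then p ω else 0) * (p ω' / mass p Z (Z ω')
          * (Real.log (mass p Z (Z ω'))
            - Real.log (mass p (fun ω => (f ω, Z ω)) (f ω', Z ω')))) := by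
    intro ω
    unfold H
    rw [Finset.mul_sum]
    refine Finset.sum_congr rfl (fun ω' _ => ?_)
    by_cases hz : Z ω' = Z ω
    · have hz' : Z ω = Z ω' := hz.symm
      have c1 : cnd p Z (Z ω) ω' = p ω' / mass p Z (Z ω') := by
        simp [cnd, hz]
      rw [if_pos hz', c1]
      by_cases h0 : p ω' = 0
      · simp [h0]
      · have hm1 := mass_pos hp Z h0
        have hm2 := mass_pos hp (fun ω => (f ω, Z ω)) h0
        rw [hz', K1_mass, Real.log_div hm2.ne' hm1.ne']
        ring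
    · have hz' : ¬ Z ω = Z ω' := fun h => hz h.symm
      simp [cnd, hz, hz']
  rw [Finset.sum_congr rfl (fun ω _ => e1 ω), Finset.sum_comm]
  have e2 : ∀ ω', ∑ ω, (if Z ω = Z ω' then p ω else 0) * (p ω' / mass p Z (Z ω')
          * (Real.log (mass p Z (Z ω'))
            - Real.log (mass p (fun ω => (f ω, Z ω)) (f ω', Z ω'))))
      = p ω' * (-Real.log (mass p (fun ω => (f ω, Z ω)) (f ω', Z ω')))
        - p ω' * (-Real.log (mass p Z (Z ω'))) := by
    intro ω'
    rw [← Finset.sum_mul]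
    have e3 : ∑ ω, (if Z ω = Z ω' then p ω else 0) = mass p Z (Z ω') := by
      unfold mass
      rfl
    rw [e3]
    by_cases h0 : p ω' = 0
    · simp [h0]
    · have hm1 := (mass_pos hp Z h0).ne'
      field_simp
      ring
  rw [Finset.sum_congr rfl (fun ω' _ => e2 ω'), Finset.sum_sub_distrib]
  unfold H
  rfl

end H51K
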