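import Pool.Agent.Lib.H51K.Defs

/-!
# H51K/M1: finite families almost invariant under finitely many elements (commutative case)
-/

namespace H51K

open Finset

/-- **Almost invariant families.** Proof by induction on the finite set `C`
(`Finset.induction_on`, all `ε`). `C = ∅`: `n = 1`, `u = 1`. `C = insert κ C'`: take `n', u'` for
`C'` and `ε`, take `N ≥ 1` with `2 / N ≤ ε`, and the family `κ ^ j * u' i`, `j < N`, `i < n'`
(index `Fin N × Fin n' ≃ Fin (N * n')`, `finProdFinEquiv`). For `c ∈ C'`: for each `j` apply the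
hypothesis to `v ↦ g (κ ^ j * v)`; total error `≤ N * (ε M n')`. For `κ` itself:
`∑_j g (κ ^ (j+1) * u' i) - g (κ ^ j * u' i) = g (κ ^ N * u' i) - g (u' i)`
(`Finset.sum_range_sub`), of absolute value `≤ 2 M`, total `≤ 2 M n' ≤ ε M N n'`.
(`M ≥ 0` as `|g 1| ≤ M`.) -/
theorem folner {G : Type*} [CommMonoid G] (C : Finset G) (ε : ℝ) (hε : 0 < ε) :
    ∃ (n : ℕ) (u : Fin n → G), 0 < n ∧ ∀ c ∈ C, ∀ (g : G → ℝ) (M : ℝ), (∀ v, |g v| ≤ M) →
      |∑ i, g (c * u i) - ∑ i, g (u i)| ≤ ε * M * n := by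
  classical
  induction C using Finset.induction_on with
  | empty => exact ⟨1, fun _ => 1, Nat.one_pos, fun c hc => absurd hc (Finset.notMem_empty c)⟩
  | insert κ C' hκ ih =>
    obtain ⟨n', u', hn', h'⟩ := ih
    obtain ⟨N, hN⟩ := exists_nat_gt (2 / ε)
    have hN0 : (0 : ℝ) < N := lt_trans (div_pos two_pos hε) hN
    have hNpos : 0 < N := by exact_mod_cast hN0
    have hN2 : 2 ≤ ε * N := by
      rw [div_lt_iff₀ hε] at hN
      linarith
    let e : Fin (N * n') ≃ Fin N × Fin n' := finProdFinEquiv.symm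
    refine ⟨N * n', fun i => κ ^ ((e i).1 : ℕ) * u' (e i).2, Nat.mul_pos hNpos hn', ?_⟩
    intro c hc g M hg
    have hM : 0 ≤ M := (abs_nonneg _).trans (hg 1)
    have s1 : ∑ i, g (c * (κ ^ ((e i).1 : ℕ) * u' (e i).2)) = ∑ j : Fin N, ∑ i : Fin n', g (c * (κ ^ (j : ℕ) * u' i)) := by
      rw [← Fintype.sum_prod_type' (fun (j : Fin N) (i : Fin n') => g (c * (κ ^ (j : ℕ) * u' i)))]
      exact Equiv.sum_comp e (fun x : Fin N × Fin n' => g (c * (κ ^ (x.1 : ℕ) * u' x.2)))
    have s2 : ∑ i, g (κ ^ ((e i).1 : ℕ) * u' (e i).2) = ∑ j : Fin N, ∑ i : Fin n', g (κ ^ (j : ℕ) * u' i) := by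
      rw [← Fintype.sum_prod_type' (fun (j : Fin N) (i : Fin n') => g (κ ^ (j : ℕ) * u' i))]
      exact Equiv.sum_comp e (fun x : Fin N × Fin n' => g (κ ^ (x.1 : ℕ) * u' x.2))
    rw [s1, s2, ← Finset.sum_sub_distrib]
    have hcast : ((N * n' : ℕ) : ℝ) = N * n' := by push_cast; rfl
    rw [hcast]
    rcases Finset.mem_insert.1 hc with rfl | hc'
    · have e1 : ∑ j : Fin N, (∑ i : Fin n', g (c * (c ^ (j : ℕ) * u' i)) - ∑ i : Fin n', g (c ^ (j : ℕ) * u' i)) =
          ∑ i : Fin n', (g (c ^ N * u' i) - g (c ^ 0 * u' i)) := by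
        rw [Finset.sum_sub_distrib, Finset.sum_comm, Finset.sum_comm (f := fun (j : Fin N) (i : Fin n') => g (c ^ (j : ℕ) * u' i)),
          ← Finset.sum_sub_distrib]
        refine Finset.sum_congr rfl fun i _ => ?_
        rw [← Finset.sum_sub_distrib]
        rw [Fin.sum_univ_eq_sum_range (fun j => g (c * (c ^ j * u' i)) - g (c ^ j * u' i)) N]
        rw [← Finset.sum_range_sub (fun j => g (c ^ j * u' i)) N]
        refine Finset.sum_congr rfl fun j _ => ?_
        rw [← mul_assoc, ← pow_succ']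
      rw [e1]
      have e2 : |∑ i : Fin n', (g (c ^ N * u' i) - g (c ^ 0 * u' i))| ≤ ∑ _i : Fin n', 2 * M := by
        refine (Finset.abs_sum_le_sum_abs _ _).trans (Finset.sum_le_sum fun i _ => ?_)
        have h1 := hg (c ^ N * u' i)
        have h2 := hg (c ^ 0 * u' i)
        rw [abs_le] at h1 h2 ⊢
        constructor <;> linarith
      refine e2.trans ?_
      rw [Finset.sum_const, Finset.card_univ, Fintype.card_fin, nsmul_eq_mul]
      have h3 : (0 : ℝ) ≤ n' := Nat.cast_nonneg n'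
      have h4 : 0 ≤ M * n' := mul_nonneg hM h3
      nlinarith [mul_le_mul_of_nonneg_right hN2 h4]
    · have e2 : |∑ j : Fin N, (∑ i : Fin n', g (c * (κ ^ (j : ℕ) * u' i)) - ∑ i : Fin n', g (κ ^ (j : ℕ) * u' i))| ≤
          ∑ _j : Fin N, ε * M * n' := by
        refine (Finset.abs_sum_le_sum_abs _ _).trans (Finset.sum_le_sum fun j _ => ?_)
        have h1 := h' c hc' (fun v => g (κ ^ (j : ℕ) * v)) M (fun v => hg _)
        have h2 : ∑ i, g (c * (κ ^ (j : ℕ) * u' i)) = ∑ i, g (κ ^ (j : ℕ) * (c * u' i)) :=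
          Finset.sum_congr rfl fun i _ => by rw [mul_left_comm]
        rw [h2]
        exact h1
      refine e2.trans (le_of_eq ?_)
      rw [Finset.sum_const, Finset.card_univ, Fintype.card_fin, nsmul_eq_mul]
      ring

/-- The additive form: `folner` for `Multiplicative ℚ`. -/
theorem folner_add (C : Finset ℚ) (ε : ℝ) (hε : 0 < ε) :
    ∃ (n : ℕ) (u : Fin n → ℚ), 0 < n ∧ ∀ c ∈ C, ∀ (g : ℚ → ℝ) (M : ℝ), (∀ v, |g v| ≤ M) →
      |∑ i, g (c + u i) - ∑ i, g (u i)| ≤ ε * M * n := by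
  classical
  obtain ⟨n, u, hn, h⟩ := folner (G := Multiplicative ℚ) (C.image Multiplicative.ofAdd) ε hε
  refine ⟨n, fun i => Multiplicative.toAdd (u i), hn, fun c hc g M hg => ?_⟩
  exact h (Multiplicative.ofAdd c) (Finset.mem_image_of_mem _ hc) (fun v => g (Multiplicative.toAdd v)) M (fun v => hg _)

end H51K
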