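import Pool.Agent.Lib.H51K.Defs

/-!
# H51K/M2: algebra of the average `E3`
-/

namespace H51K

open Finset

variable {m n : ℕ} (σ : Fin m → ℚ) (u : Fin n → ℚˣ) (g g' : ℚ → ℚˣ → ℚˣ → ℚˣ → ℝ)

theorem E3_add : E3 σ u (fun s a b c => g s a b c + g' s a b c) = E3 σ u g + E3 σ u g' := by
  unfold E3
  rw [← add_div]
  congr 1
  simp only [← Finset.sum_add_distrib]

theorem E3_sub : E3 σ u (fun s a b c => g s a b c - g' s a b c) = E3 σ u g - E3 σ u g' := by
  unfold E3
  rw [← sub_div]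
  congr 1
  simp only [← Finset.sum_sub_distrib]

theorem E3_mul (k : ℝ) : E3 σ u (fun s a b c => k * g s a b c) = k * E3 σ u g := by
  unfold E3
  rw [← mul_div_assoc]
  congr 1
  simp only [Finset.mul_sum]

theorem E3_sum {q : ℕ} (G : Fin q → ℚ → ℚˣ → ℚˣ → ℚˣ → ℝ) :
    E3 σ u (fun s a b c => ∑ i, G i s a b c) = ∑ i, E3 σ u (G i) := by
  unfold E3
  rw [← Finset.sum_div]
  congr 1
  rw [Finset.sum_comm (f := fun (q' : Fin q) (i : Fin m) => ∑ j, ∑ k, ∑ l, G q' (σ i) (u j) (u k) (u l))]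
  refine Finset.sum_congr rfl fun i _ => ?_
  rw [Finset.sum_comm (f := fun (q' : Fin q) (j : Fin n) => ∑ k, ∑ l, G q' (σ i) (u j) (u k) (u l))]
  refine Finset.sum_congr rfl fun j _ => ?_
  rw [Finset.sum_comm (f := fun (q' : Fin q) (k : Fin n) => ∑ l, G q' (σ i) (u j) (u k) (u l))]
  refine Finset.sum_congr rfl fun k _ => ?_
  rw [Finset.sum_comm]

theorem E3_const (hm : 0 < m) (hn : 0 < n) (k : ℝ) : E3 σ u (fun _ _ _ _ => k) = k := by
  unfold E3
  simp only [Finset.sum_const, Finset.card_univ, Fintype.card_fin, nsmul_eq_mul]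
  have h1 : (m : ℝ) ≠ 0 := by positivity
  have h2 : (n : ℝ) ≠ 0 := by positivity
  field_simp

theorem E3_mono (h : ∀ s a b c, g s a b c ≤ g' s a b c) : E3 σ u g ≤ E3 σ u g' := by
  unfold E3
  refine div_le_div_of_nonneg_right ?_ (by positivity)
  exact Finset.sum_le_sum fun i _ => Finset.sum_le_sum fun j _ => Finset.sum_le_sum fun k _ =>
    Finset.sum_le_sum fun l _ => h _ _ _ _

theorem E3_nonneg (h : ∀ s a b c, 0 ≤ g s a b c) : 0 ≤ E3 σ u g := by
  unfold E3
  refine div_nonneg ?_ (by positivity)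
  exact Finset.sum_nonneg fun i _ => Finset.sum_nonneg fun j _ => Finset.sum_nonneg fun k _ =>
    Finset.sum_nonneg fun l _ => h _ _ _ _

/-- `Finset.sum_comm`. -/
theorem E3_swap12 : E3 σ u (fun s a b c => g s b a c) = E3 σ u g := by
  unfold E3
  congr 1
  exact Finset.sum_congr rfl fun i _ => Finset.sum_comm

theorem E3_swap23 : E3 σ u (fun s a b c => g s a c b) = E3 σ u g := by
  unfold E3
  congr 1
  exact Finset.sum_congr rfl fun i _ => Finset.sum_congr rfl fun j _ => Finset.sum_comm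

/-- A function of `s` alone. -/
theorem E3_s (hn : 0 < n) (f : ℚ → ℝ) :
    E3 σ u (fun s _ _ _ => f s) = (∑ i, f (σ i)) / (m : ℝ) := by
  unfold E3
  simp only [Finset.sum_const, Finset.card_univ, Fintype.card_fin, nsmul_eq_mul]
  have h2 : (n : ℝ) ≠ 0 := by positivity
  rw [← Finset.mul_sum]
  rw [← Finset.mul_sum]
  rw [← Finset.mul_sum]
  rw [← mul_assoc, ← mul_assoc]
  have h3 : (n : ℝ) * n * n = n ^ 3 := by ring
  rw [h3, mul_comm (m : ℝ) _]
  exact mul_div_mul_left _ _ (pow_ne_zero 3 h2)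

end H51K
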