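import Pool.Agent.Lib.H51K.M1
import Pool.Agent.Lib.H51K.M2

/-!
# H51K/M3: good averages exist
-/

namespace H51K

open Finset

/-- A bound for the difference of two averages from a bound for the inner sums over the second
argument, the third and the fourth being fixed. -/
theorem E3_diff_le {m n : ℕ} (hm : 0 < m) (hn : 0 < n) (σ : Fin m → ℚ) (u : Fin n → ℚˣ)
    (f g : ℚ → ℚˣ → ℚˣ → ℚˣ → ℝ) (c : ℝ)
    (h : |(∑ i, ∑ j, ∑ k, ∑ l, f (σ i) (u j) (u k) (u l)) -
      ∑ i, ∑ j, ∑ k, ∑ l, g (σ i) (u j) (u k) (u l)| ≤ c * (m * (n : ℝ) ^ 3)) :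
    |E3 σ u f - E3 σ u g| ≤ c := by
  have hp : (0 : ℝ) < (m : ℝ) * (n : ℝ) ^ 3 := by positivity
  unfold E3
  rw [← sub_div, abs_div, abs_of_pos hp, div_le_iff₀ hp]
  exact h

/-- **Good averages exist.** First `folner` for the group `ℚˣ`, the finite set `K` and `δ / 3`
(dilating one argument at a time: `g s (κ₁ a) (κ₂ b) (κ₃ c) → g s a (κ₂ b) (κ₃ c) → ...`,
each step costs `δ / 3 * M` after division by `m n ^ 3`). Then `folner_add` for the finite set of
all `T₀ (u j) (u k) (u l)`, `T₀ ∈ T`, and `δ`: for fixed `j, k, l` the sum over `i` changes by at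
most `δ M m`. -/
theorem good_exists (K : Finset ℚˣ) (T : Finset (ℚˣ → ℚˣ → ℚˣ → ℚ)) (δ : ℝ) (hδ : 0 < δ) :
    ∃ (m n : ℕ) (σ : Fin m → ℚ) (u : Fin n → ℚˣ), Good K T δ σ u := by
  classical
  obtain ⟨n, u, hn, hu⟩ := folner (G := ℚˣ) K (δ / 3) (by positivity)
  obtain ⟨m, σ, hm, hs⟩ := folner_add
    (T.biUnion fun T₀ => (Finset.univ : Finset (Fin n × Fin n × Fin n)).image
      fun x => T₀ (u x.1) (u x.2.1) (u x.2.2)) δ hδ
  refine ⟨m, n, σ, u, hm, hn, ?_, ?_⟩
  · intro g M hg κ₁ h1 κ₂ h2 κ₃ h3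
    have hM : 0 ≤ M := (abs_nonneg _).trans (hg 0 1 1 1)
    have c1 : ∀ (G : ℚ → ℚˣ → ℚˣ → ℚˣ → ℝ), (∀ s a b c, |G s a b c| ≤ M) →
        |E3 σ u (fun s a b c => G s (κ₁ * a) b c) - E3 σ u G| ≤ δ / 3 * M := by
      intro G hG
      refine E3_diff_le hm hn σ u _ _ _ ?_
      rw [← Finset.sum_sub_distrib]
      have e : ∀ i, |(∑ j, ∑ k, ∑ l, G (σ i) (κ₁ * u j) (u k) (u l)) -
          ∑ j, ∑ k, ∑ l, G (σ i) (u j) (u k) (u l)| ≤ (n : ℝ) ^ 2 * (δ / 3 * M * n) := by
        intro i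
        have a1 := hu κ₁ h1 (fun v => ∑ k, ∑ l, G (σ i) v (u k) (u l)) ((n : ℝ) ^ 2 * M) (fun v => by
          refine (Finset.abs_sum_le_sum_abs _ _).trans ?_
          refine (Finset.sum_le_sum fun k _ => (Finset.abs_sum_le_sum_abs _ _).trans
            (Finset.sum_le_sum fun l _ => hG (σ i) v (u k) (u l))).trans (le_of_eq ?_)
          simp only [Finset.sum_const, Finset.card_univ, Fintype.card_fin, nsmul_eq_mul]
          ring)
        refine a1.trans (le_of_eq ?_)
        ring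
      refine (Finset.abs_sum_le_sum_abs _ _).trans
        ((Finset.sum_le_sum fun i _ => e i).trans (le_of_eq ?_))
      simp only [Finset.sum_const, Finset.card_univ, Fintype.card_fin, nsmul_eq_mul]
      ring
    have c2 : ∀ (G : ℚ → ℚˣ → ℚˣ → ℚˣ → ℝ), (∀ s a b c, |G s a b c| ≤ M) →
        |E3 σ u (fun s a b c => G s a (κ₂ * b) c) - E3 σ u G| ≤ δ / 3 * M := by
      intro G hG
      refine E3_diff_le hm hn σ u _ _ _ ?_
      rw [← Finset.sum_sub_distrib]
      have e : ∀ i, |(∑ j, ∑ k, ∑ l, G (σ i) (u j) (κ₂ * u k) (u l)) -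
          ∑ j, ∑ k, ∑ l, G (σ i) (u j) (u k) (u l)| ≤ (n : ℝ) * ((n : ℝ) * (δ / 3 * M * n)) := by
        intro i
        rw [← Finset.sum_sub_distrib]
        have e' : ∀ j, |(∑ k, ∑ l, G (σ i) (u j) (κ₂ * u k) (u l)) -
            ∑ k, ∑ l, G (σ i) (u j) (u k) (u l)| ≤ (n : ℝ) * (δ / 3 * M * n) := by
          intro j
          have a1 := hu κ₂ h2 (fun v => ∑ l, G (σ i) (u j) v (u l)) ((n : ℝ) * M) (fun v => by
            refine (Finset.abs_sum_le_sum_abs _ _).trans ?_
            refine (Finset.sum_le_sum fun l _ => hG (σ i) (u j) v (u l)).trans (le_of_eq ?_)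
            simp only [Finset.sum_const, Finset.card_univ, Fintype.card_fin, nsmul_eq_mul])
          refine a1.trans (le_of_eq ?_)
          ring
        refine (Finset.abs_sum_le_sum_abs _ _).trans
          ((Finset.sum_le_sum fun j _ => e' j).trans (le_of_eq ?_))
        simp only [Finset.sum_const, Finset.card_univ, Fintype.card_fin, nsmul_eq_mul]
      refine (Finset.abs_sum_le_sum_abs _ _).trans
        ((Finset.sum_le_sum fun i _ => e i).trans (le_of_eq ?_))
      simp only [Finset.sum_const, Finset.card_univ, Fintype.card_fin, nsmul_eq_mul]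
      ring
    have c3 : ∀ (G : ℚ → ℚˣ → ℚˣ → ℚˣ → ℝ), (∀ s a b c, |G s a b c| ≤ M) →
        |E3 σ u (fun s a b c => G s a b (κ₃ * c)) - E3 σ u G| ≤ δ / 3 * M := by
      intro G hG
      refine E3_diff_le hm hn σ u _ _ _ ?_
      rw [← Finset.sum_sub_distrib]
      have e : ∀ i, |(∑ j, ∑ k, ∑ l, G (σ i) (u j) (u k) (κ₃ * u l)) -
          ∑ j, ∑ k, ∑ l, G (σ i) (u j) (u k) (u l)| ≤
            (n : ℝ) * ((n : ℝ) * (δ / 3 * M * n)) := by
        intro i
        rw [← Finset.sum_sub_distrib]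
        have e' : ∀ j, |(∑ k, ∑ l, G (σ i) (u j) (u k) (κ₃ * u l)) -
            ∑ k, ∑ l, G (σ i) (u j) (u k) (u l)| ≤ (n : ℝ) * (δ / 3 * M * n) := by
          intro j
          rw [← Finset.sum_sub_distrib]
          refine (Finset.abs_sum_le_sum_abs _ _).trans
            ((Finset.sum_le_sum fun k _ => hu κ₃ h3 (fun v => G (σ i) (u j) (u k) v) M
              (fun v => hG _ _ _ _)).trans (le_of_eq ?_))
          simp only [Finset.sum_const, Finset.card_univ, Fintype.card_fin, nsmul_eq_mul]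
        refine (Finset.abs_sum_le_sum_abs _ _).trans
          ((Finset.sum_le_sum fun j _ => e' j).trans (le_of_eq ?_))
        simp only [Finset.sum_const, Finset.card_univ, Fintype.card_fin, nsmul_eq_mul]
      refine (Finset.abs_sum_le_sum_abs _ _).trans
        ((Finset.sum_le_sum fun i _ => e i).trans (le_of_eq ?_))
      simp only [Finset.sum_const, Finset.card_univ, Fintype.card_fin, nsmul_eq_mul]
      ring
    have d1 := c1 (fun s a b c => g s a (κ₂ * b) (κ₃ * c)) (fun s a b c => hg _ _ _ _)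
    have d2 := c2 (fun s a b c => g s a b (κ₃ * c)) (fun s a b c => hg _ _ _ _)
    have d3 := c3 g hg
    rw [abs_le] at d1 d2 d3 ⊢
    constructor <;> linarith [d1.1, d1.2, d2.1, d2.2, d3.1, d3.2]
  · intro g M hg T₀ hT
    refine E3_diff_le hm hn σ u _ _ _ ?_
    have r1 : ∀ G : ℚ → ℚˣ → ℚˣ → ℚˣ → ℝ,
        ∑ i, ∑ j, ∑ k, ∑ l, G (σ i) (u j) (u k) (u l) =
        ∑ j, ∑ k, ∑ l, ∑ i, G (σ i) (u j) (u k) (u l) := by
      intro G
      rw [Finset.sum_comm]
      refine Finset.sum_congr rfl fun j _ => ?_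
      rw [Finset.sum_comm]
      refine Finset.sum_congr rfl fun k _ => ?_
      rw [Finset.sum_comm]
    rw [r1 g, r1 (fun s a b c => g (s + T₀ a b c) a b c)]
    rw [← Finset.sum_sub_distrib]
    have e1 : ∀ j k l, |(∑ i, g (σ i + T₀ (u j) (u k) (u l)) (u j) (u k) (u l)) -
        ∑ i, g (σ i) (u j) (u k) (u l)| ≤ δ * M * m := by
      intro j k l
      have hmem : T₀ (u j) (u k) (u l) ∈ T.biUnion fun T₀ =>
          (Finset.univ : Finset (Fin n × Fin n × Fin n)).image
            fun x => T₀ (u x.1) (u x.2.1) (u x.2.2) :=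
        Finset.mem_biUnion.2 ⟨T₀, hT, Finset.mem_image.2 ⟨(j, k, l), Finset.mem_univ _, rfl⟩⟩
      have a1 := hs _ hmem (fun v => g v (u j) (u k) (u l)) M (fun v => hg _ _ _ _)
      have a2 : ∑ i, g (T₀ (u j) (u k) (u l) + σ i) (u j) (u k) (u l) =
          ∑ i, g (σ i + T₀ (u j) (u k) (u l)) (u j) (u k) (u l) :=
        Finset.sum_congr rfl fun i _ => by rw [add_comm]
      rw [← a2]
      exact a1
    have e2 : ∀ j k, |(∑ l, ∑ i, g (σ i + T₀ (u j) (u k) (u l)) (u j) (u k) (u l)) -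
        ∑ l, ∑ i, g (σ i) (u j) (u k) (u l)| ≤ n * (δ * M * m) := by
      intro j k
      rw [← Finset.sum_sub_distrib]
      refine (Finset.abs_sum_le_sum_abs _ _).trans
        ((Finset.sum_le_sum fun l _ => e1 j k l).trans (le_of_eq ?_))
      simp only [Finset.sum_const, Finset.card_univ, Fintype.card_fin, nsmul_eq_mul]
    have e3 : ∀ j, |(∑ k, ∑ l, ∑ i, g (σ i + T₀ (u j) (u k) (u l)) (u j) (u k) (u l)) -
        ∑ k, ∑ l, ∑ i, g (σ i) (u j) (u k) (u l)| ≤ n * (n * (δ * M * m)) := by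
      intro j
      rw [← Finset.sum_sub_distrib]
      refine (Finset.abs_sum_le_sum_abs _ _).trans
        ((Finset.sum_le_sum fun k _ => e2 j k).trans (le_of_eq ?_))
      simp only [Finset.sum_const, Finset.card_univ, Fintype.card_fin, nsmul_eq_mul]
    refine (Finset.abs_sum_le_sum_abs _ _).trans
      ((Finset.sum_le_sum fun j _ => e3 j).trans (le_of_eq ?_))
    simp only [Finset.sum_const, Finset.card_univ, Fintype.card_fin, nsmul_eq_mul]
    ring

end H51K
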