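import Mathlib

/-!
# H51K/R1: the elimination (real numbers)
-/

namespace H51K

/-- The coefficient of `A` in the elimination. -/
noncomputable def cA (α l m : ℝ) : ℝ := m * (2 * α - 1) - (α - 1) * (1 - l)

/-- The coefficient of `β` in the elimination. -/
noncomputable def cB (α l m : ℝ) : ℝ :=
  α * ((α - 1) * l + 2 * m * α) + α * (α - 1 + m) - cA α l m * (α - 1)

/-- Denominator of the new exponent. -/
noncomputable def gden (α l m : ℝ) : ℝ := 4 * α * (α - 1 + m) + (α + 2) * cA α l m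

/-- Numerator of the new exponent. -/
noncomputable def gnum (α l m : ℝ) : ℝ :=
  2 * α * (α - 1 + m) + 3 * α * cA α l m + 2 * cB α l m

/-- **Elimination.** -/
theorem elim_core {α l m h f A β Z F e : ℝ} (hα : 1 ≤ α) (hm : 0 ≤ m)
    (hA : 0 ≤ cA α l m) (hB : 0 ≤ cB α l m)
    (h1 : h + β ≤ Z + 2 * f + e)
    (h2 : 3 * h - 2 * f - Z ≤ α * (f + A - Z) + e)
    (h3 : 4 * h - 2 * f - β - F ≤ α * (2 * β - A - F) + e)
    (h4 : 4 * h - 2 * f - β - A ≤ l * (β - A) + m * (F - A) + e)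
    (h5 : β ≤ 2 * f + e) :
    gden α l m * h ≤ gnum α l m * f
      + (α * (α - 1 + m) + α * cA α l m + cB α l m) * e := by
  have hα0 : 0 ≤ α - 1 := by linarith
  have hα1 : 0 ≤ α := by linarith
  have k4 := mul_nonneg (mul_nonneg hα1 hα0) (sub_nonneg.2 h4)
  have k3 := mul_nonneg (mul_nonneg hα1 hm) (sub_nonneg.2 h3)
  have k2 := mul_nonneg hA (sub_nonneg.2 h2)
  have k1 := mul_nonneg (mul_nonneg hA hα0) (sub_nonneg.2 h1)
  have k5 := mul_nonneg hB (sub_nonneg.2 h5)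
  rw [← sub_nonneg]
  refine le_of_le_of_eq (add_nonneg (add_nonneg (add_nonneg (add_nonneg k4 k3) k2) k1) k5) ?_
  unfold gden gnum cB cA
  ring

theorem cA_eq {α : ℝ} (hα : 1 ≤ α) :
    cA α (1 / 2) (3 / 2 - 1 / (2 * α)) = (5 * α ^ 2 - 4 * α + 1) / (2 * α) := by
  have : α ≠ 0 := by linarith
  unfold cA
  field_simp
  ring

theorem gden_eq {α : ℝ} (hα : 1 ≤ α) :
    gden α (1 / 2) (3 / 2 - 1 / (2 * α))
      = (13 * α ^ 3 + 10 * α ^ 2 - 11 * α + 2) / (2 * α) := by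
  have : α ≠ 0 := by linarith
  unfold gden cA
  field_simp
  ring

theorem cB_eq {α : ℝ} (hα : 1 ≤ α) :
    cB α (1 / 2) (3 / 2 - 1 / (2 * α))
      = (4 * α ^ 3 + 7 * α ^ 2 - 6 * α + 1) / (2 * α) := by
  have : α ≠ 0 := by linarith
  unfold cB cA
  field_simp
  ring

theorem gnum_eq {α : ℝ} (hα : 1 ≤ α) :
    gnum α (1 / 2) (3 / 2 - 1 / (2 * α))
      = (27 * α ^ 3 + 4 * α ^ 2 - 11 * α + 2) / (2 * α) := by
  have : α ≠ 0 := by linarith
  unfold gnum cB cA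
  field_simp
  ring

theorem cA_nonneg {α : ℝ} (hα : 1 ≤ α) : 0 ≤ cA α (1 / 2) (3 / 2 - 1 / (2 * α)) := by
  rw [cA_eq hα]
  apply div_nonneg _ (by linarith)
  nlinarith

theorem cB_nonneg {α : ℝ} (hα : 1 ≤ α) : 0 ≤ cB α (1 / 2) (3 / 2 - 1 / (2 * α)) := by
  rw [cB_eq hα]
  apply div_nonneg _ (by linarith)
  nlinarith [mul_nonneg (sub_nonneg.2 hα) (sub_nonneg.2 hα),
    mul_nonneg (mul_nonneg (sub_nonneg.2 hα) (sub_nonneg.2 hα)) (sub_nonneg.2 hα)]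

theorem gden_pos {α : ℝ} (hα : 1 ≤ α) : 0 < gden α (1 / 2) (3 / 2 - 1 / (2 * α)) := by
  rw [gden_eq hα]
  apply div_pos _ (by linarith)
  nlinarith [mul_nonneg (sub_nonneg.2 hα) (sub_nonneg.2 hα),
    mul_nonneg (mul_nonneg (sub_nonneg.2 hα) (sub_nonneg.2 hα)) (sub_nonneg.2 hα)]

end H51K
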