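import Pool.Agent.Lib.H51K.E2b
import Pool.Agent.Lib.H51K.G2

/-!
# H51K/S1: the spaces V, P3, C4 are probabilities; supports; full entropies

For all statements: `p` a probability, `x t : Ω → ℚ`, and (where used) `hd : Det p t x`.
-/

namespace H51K

open Finset

variable {Ω : Type} [Fintype Ω] {p : Ω → ℝ} {x t : Ω → ℚ}

/-- The full variable of one line. -/
def fl (x t : Ω → ℚ) : Ω → ℚ × ℚ := fun ω => (x ω, t ω)

/-- The full variable determines `y_s`. -/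
theorem S1_fl {Ω' : Type} {q : Ω' → ℝ} {s : ℚ} (x t : Ω' → ℚ) : Det q (fl x t) (yy x t s) := by
  intro a b _ _ h
  have h1 : x a = x b := congrArg Prod.fst h
  have h2 : t a = t b := congrArg Prod.snd h
  simp only [yy, h1, h2]

theorem VV_isPr (hp : IsPr p) (s : ℚ) : IsPr (VV p x t s) :=
  glue_isPr hp hp (fun _ => rfl)

theorem VV_supp {s : ℚ} {ω : Ω × Ω} (h : VV p x t s ω ≠ 0) :
    p ω.1 ≠ 0 ∧ p ω.2 ≠ 0 ∧ yy x t s ω.1 = yy x t s ω.2 :=
  glue_supp h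

/-- The gluing condition of P3: the law of `y_s` on line 1 and the law of `y_s(ω.1)` on
`V_{s+τ}` agree (`law_glue_fst`). -/
theorem PP_law (hp : IsPr p) (s τ : ℚ) :
    SameLaw p (yy x t s) (VV p x t (s + τ)) (fun ω => yy x t s ω.1) := by
  intro c
  exact (law_glue_fst (f₁ := yy x t (s + τ)) (f₂ := yy x t (s + τ)) hp hp (fun _ => rfl)
    (yy x t s) c).symm

theorem PP_isPr (hp : IsPr p) (s τ : ℚ) : IsPr (PP p x t s τ) :=
  glue_isPr hp (VV_isPr hp _) (PP_law hp s τ)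

theorem PP_supp {s τ : ℚ} {ω : Ω × (Ω × Ω)} (h : PP p x t s τ ω ≠ 0) :
    p ω.1 ≠ 0 ∧ p ω.2.1 ≠ 0 ∧ p ω.2.2 ≠ 0 ∧ yy x t s ω.1 = yy x t s ω.2.1 ∧
      yy x t (s + τ) ω.2.1 = yy x t (s + τ) ω.2.2 := by
  obtain ⟨h1, h2, h3⟩ := glue_supp h
  obtain ⟨h4, h5, h6⟩ := VV_supp h2
  exact ⟨h1, h4, h5, h3, h6⟩

theorem CC_isPr (hp : IsPr p) (s a b : ℚ) : IsPr (CC p x t s a b) :=
  glue_isPr (VV_isPr hp _) (VV_isPr hp _) (fun _ => rfl)

theorem CC_supp {s a b : ℚ} {ω : (Ω × Ω) × (Ω × Ω)} (h : CC p x t s a b ω ≠ 0) :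
    (p ω.1.1 ≠ 0 ∧ p ω.1.2 ≠ 0 ∧ p ω.2.1 ≠ 0 ∧ p ω.2.2 ≠ 0) ∧
      yy x t s ω.1.1 = yy x t s ω.1.2 ∧ yy x t s ω.2.1 = yy x t s ω.2.2 ∧
      yy x t (s + a) ω.1.1 = yy x t (s + a) ω.2.1 ∧
      yy x t (s + b) ω.1.2 = yy x t (s + b) ω.2.2 := by
  obtain ⟨h1, h2, h3⟩ := glue_supp h
  obtain ⟨h4, h5, h6⟩ := VV_supp h1
  obtain ⟨h7, h8, h9⟩ := VV_supp h2
  have h10 : yy x t (s + a) ω.1.1 = yy x t (s + a) ω.2.1 := congrArg Prod.fst h3
  have h11 : yy x t (s + b) ω.1.2 = yy x t (s + b) ω.2.2 := congrArg Prod.snd h3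
  exact ⟨⟨h4, h5, h7, h8⟩, h6, h9, h10, h11⟩

/-- `H(V_s) = 2 h - φ(s)` (`H_glue`; `fl` determines `y_s`). -/
theorem H_VV (hp : IsPr p) (s : ℚ) :
    H (VV p x t s) (fun ω => (fl x t ω.1, fl x t ω.2)) = 2 * hh p x t - ph p x t s := by
  have e := H_glue (p₁ := p) (p₂ := p) (f₁ := yy x t s) (f₂ := yy x t s) hp hp (fun _ => rfl)
    (fl x t) (fl x t) (S1_fl x t) (S1_fl x t)
  have e' : H (VV p x t s) (fun ω => (fl x t ω.1, fl x t ω.2))
      = hh p x t + hh p x t - ph p x t s := e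
  rw [e']
  ring

/-- `H(P3) = 3 h - φ(s) - φ(s + τ)` (`H_glue` twice). -/
theorem H_PP (hp : IsPr p) (s τ : ℚ) :
    H (PP p x t s τ) (fun ω => (fl x t ω.1, (fl x t ω.2.1, fl x t ω.2.2)))
      = 3 * hh p x t - ph p x t s - ph p x t (s + τ) := by
  have d2 : Det (VV p x t (s + τ)) (fun ω => (fl x t ω.1, fl x t ω.2))
      (fun ω => yy x t s ω.1) := by
    intro a b _ _ h
    have h1 : fl x t a.1 = fl x t b.1 := congrArg Prod.fst h
    have h2 : x a.1 = x b.1 := congrArg Prod.fst h1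
    have h3 : t a.1 = t b.1 := congrArg Prod.snd h1
    simp only [yy, h2, h3]
  have e := H_glue (p₁ := p) (p₂ := VV p x t (s + τ)) (f₁ := yy x t s)
    (f₂ := fun ω => yy x t s ω.1) hp (VV_isPr hp _) (PP_law hp s τ)
    (fl x t) (fun ω => (fl x t ω.1, fl x t ω.2)) (S1_fl x t) d2
  rw [H_VV hp] at e
  have e' : H (PP p x t s τ) (fun ω => (fl x t ω.1, (fl x t ω.2.1, fl x t ω.2.2)))
      = hh p x t + (2 * hh p x t - ph p x t (s + τ)) - ph p x t s := e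
  rw [e']
  ring

/-- `H(C4) = 4 h - 2 φ(s) - B^s(a, b)` (`H_glue` twice). -/
theorem H_CC (hp : IsPr p) (s a b : ℚ) :
    H (CC p x t s a b) (fun ω => ((fl x t ω.1.1, fl x t ω.1.2), (fl x t ω.2.1, fl x t ω.2.2)))
      = 4 * hh p x t - 2 * ph p x t s - BB p x t s a b := by
  have d2 : Det (VV p x t s) (fun ω => (fl x t ω.1, fl x t ω.2)) (LL x t s a b) := by
    intro c d _ _ h
    have h1 : fl x t c.1 = fl x t d.1 := congrArg Prod.fst h
    have h2 : x c.1 = x d.1 := congrArg Prod.fst h1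
    have h3 : t c.1 = t d.1 := congrArg Prod.snd h1
    have h4 : fl x t c.2 = fl x t d.2 := congrArg Prod.snd h
    have h5 : x c.2 = x d.2 := congrArg Prod.fst h4
    have h6 : t c.2 = t d.2 := congrArg Prod.snd h4
    simp only [LL, yy, h2, h3, h5, h6]
  have e := H_glue (p₁ := VV p x t s) (p₂ := VV p x t s) (f₁ := LL x t s a b)
    (f₂ := LL x t s a b) (VV_isPr hp _) (VV_isPr hp _) (fun _ => rfl)
    (fun ω => (fl x t ω.1, fl x t ω.2)) (fun ω => (fl x t ω.1, fl x t ω.2)) d2 d2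
  rw [H_VV hp] at e
  have e' : H (CC p x t s a b)
      (fun ω => ((fl x t ω.1.1, fl x t ω.1.2), (fl x t ω.2.1, fl x t ω.2.2)))
      = (2 * hh p x t - ph p x t s) + (2 * hh p x t - ph p x t s) - BB p x t s a b := e
  rw [e']
  ring

end H51K
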