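import Pool.Agent.Lib.H51K.A1
import Pool.Agent.Lib.H51K.A2
import Pool.Agent.Lib.H51K.A3
import Pool.Agent.Lib.H51K.A4
import Pool.Agent.Lib.H51K.B0
import Pool.Agent.Lib.H51K.R1

/-!
# H51K/ST: one step of the iteration
-/

namespace H51K

open Finset

open Classical in
/-- A rational number as a unit (`1` for `0`). -/
noncomputable def st_mk (z : ℚ) : ℚˣ := if h : z ≠ 0 then Units.mk0 z h else 1

theorem st_mk_coe {z : ℚ} (h : z ≠ 0) : ((st_mk z : ℚˣ) : ℚ) = z := by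
  unfold st_mk
  rw [dif_pos h]
  rfl

/-- **One step.** -/
theorem box_step {α l m : ℝ} (hα : 1 ≤ α) (hm : 0 ≤ m) (hl : 0 ≤ l)
    (hA : 0 ≤ cA α l m) (hB : 0 ≤ cB α l m) (hD : 0 < gden α l m)
    (h1 : Box 0 α) (h2 : Box l m) : Box 0 (gnum α l m / gden α l m) := by
  classical
  apply box_of_weak
  intro ε hε
  obtain ⟨C₁, hC₁⟩ : ∃ C₁ : ℝ, C₁ = 10 * (1 + α) + 2 * l := ⟨_, rfl⟩
  obtain ⟨C₂, hC₂⟩ : ∃ C₂ : ℝ, C₂ = α * (α - 1 + m) + α * cA α l m + cB α l m := ⟨_, rfl⟩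
  have hC₁0 : 0 < C₁ := by rw [hC₁]; linarith
  have hα0 : 0 ≤ α := by linarith
  have hC₂0 : 0 ≤ C₂ := by
    rw [hC₂]
    have e1 : 0 ≤ α * (α - 1 + m) := mul_nonneg hα0 (by linarith)
    have e2 : 0 ≤ α * cA α l m := mul_nonneg hα0 hA
    linarith
  obtain ⟨η, hη, hηε⟩ : ∃ η : ℝ, 0 < η ∧ C₂ * (C₁ * η) ≤ ε * gden α l m := by
    have hc : 0 < C₂ * C₁ + 1 := by
      have := mul_nonneg hC₂0 hC₁0.le
      linarith
    refine ⟨ε * gden α l m / (C₂ * C₁ + 1), div_pos (mul_pos hε hD) hc, ?_⟩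
    have e1 : C₂ * (C₁ * (ε * gden α l m / (C₂ * C₁ + 1)))
        = (ε * gden α l m) * (C₂ * C₁ / (C₂ * C₁ + 1)) := by
      field_simp
    rw [e1]
    have e2 : C₂ * C₁ / (C₂ * C₁ + 1) ≤ 1 := by
      rw [div_le_one hc]
      linarith
    have e3 := mul_le_mul_of_nonneg_left e2 (mul_pos hε hD).le
    linarith
  obtain ⟨q, r, w, hr, hw, hw1, hI⟩ := h1 η hη 1
  obtain ⟨q', ρ, v, hρ, hv, hv1, hJ⟩ := h2 η hη 0
  obtain ⟨K, hK⟩ : ∃ K : Finset ℚˣ, K = {1, -1, st_mk 2}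
      ∪ univ.image (fun i : Fin q => st_mk (1 + r i))
      ∪ univ.image (fun i : Fin q => st_mk ((1 + r i) / r i))
      ∪ univ.image (fun i : Fin q => st_mk (-(1 / (r i - 1))))
      ∪ univ.image (fun i : Fin q => st_mk (r i / (r i - 1)))
      ∪ univ.image (fun z : Fin q × Fin q' => st_mk (1 + r z.1 * ρ z.2 / (r z.1 - 1)))
      ∪ univ.image (fun z : Fin q × Fin q' =>
          st_mk ((r z.1 * ρ z.2 + r z.1 - 1) / ((r z.1 - 1) * (ρ z.2 + 1)))) := ⟨_, rfl⟩
  obtain ⟨T, hT⟩ : ∃ T : Finset (ℚˣ → ℚˣ → ℚˣ → ℚ),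
      T = insert tA (insert tB (insert (tAC 1) (univ.image fun i : Fin q => tAC (r i)))) :=
    ⟨_, rfl⟩
  obtain ⟨M, N, σ, u, hG⟩ := good_exists K T η hη
  have hTA : tA ∈ T := by rw [hT]; exact mem_insert_self _ _
  have hTB : tB ∈ T := by rw [hT]; exact mem_insert_of_mem (mem_insert_self _ _)
  have hT1 : tAC 1 ∈ T := by
    rw [hT]
    exact mem_insert_of_mem (mem_insert_of_mem (mem_insert_self _ _))
  have hT2 : ∀ i, tAC (r i) ∈ T := by
    intro i
    rw [hT]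
    exact mem_insert_of_mem (mem_insert_of_mem (mem_insert_of_mem
      (mem_image_of_mem (fun i : Fin q => tAC (r i)) (mem_univ i))))
  have hK1 : (1 : ℚˣ) ∈ K := by rw [hK]; simp
  have hKm : (-1 : ℚˣ) ∈ K := by rw [hK]; simp
  have hK2 : ∃ κ ∈ K, ((κ : ℚˣ) : ℚ) = 2 := by
    refine ⟨st_mk 2, ?_, st_mk_coe (by norm_num)⟩
    rw [hK]
    simp
  have hr1 : ∀ i, 0 < r i - 1 := fun i => by have := hr i; linarith
  have hr0 : ∀ i, 0 < r i := fun i => by have := hr i; linarith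
  have hKa : ∀ i, ∃ κ ∈ K, ((κ : ℚˣ) : ℚ) = 1 + r i := by
    intro i
    refine ⟨st_mk (1 + r i), ?_, st_mk_coe (by have := hr0 i; positivity)⟩
    rw [hK]
    simp only [mem_union]
    have := mem_image_of_mem (fun i : Fin q => st_mk (1 + r i)) (mem_univ i)
    tauto
  have hKb : ∀ i, ∃ κ ∈ K, ((κ : ℚˣ) : ℚ) = (1 + r i) / r i := by
    intro i
    refine ⟨st_mk ((1 + r i) / r i), ?_, st_mk_coe (by have := hr0 i; positivity)⟩
    rw [hK]
    simp only [mem_union]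
    have := mem_image_of_mem (fun i : Fin q => st_mk ((1 + r i) / r i)) (mem_univ i)
    tauto
  have hKc : ∀ i, ∃ κ ∈ K, ((κ : ℚˣ) : ℚ) = -(1 / (r i - 1)) := by
    intro i
    refine ⟨st_mk (-(1 / (r i - 1))), ?_, st_mk_coe ?_⟩
    · rw [hK]
      simp only [mem_union]
      have := mem_image_of_mem (fun i : Fin q => st_mk (-(1 / (r i - 1)))) (mem_univ i)
      tauto
    · exact (neg_neg_of_pos (one_div_pos.2 (hr1 i))).ne
  have hKd : ∀ i, ∃ κ ∈ K, ((κ : ℚˣ) : ℚ) = r i / (r i - 1) := by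
    intro i
    refine ⟨st_mk (r i / (r i - 1)), ?_, st_mk_coe (div_pos (hr0 i) (hr1 i)).ne'⟩
    rw [hK]
    simp only [mem_union]
    have := mem_image_of_mem (fun i : Fin q => st_mk (r i / (r i - 1))) (mem_univ i)
    tauto
  have hKe : ∀ j i, ∃ κ ∈ K, ((κ : ℚˣ) : ℚ) = 1 + r i * ρ j / (r i - 1) := by
    intro j i
    have e1 : 0 < r i * ρ j / (r i - 1) := div_pos (mul_pos (hr0 i) (hρ j)) (hr1 i)
    refine ⟨st_mk (1 + r i * ρ j / (r i - 1)), ?_, st_mk_coe (by positivity)⟩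
    rw [hK]
    simp only [mem_union]
    have := mem_image_of_mem (fun z : Fin q × Fin q' =>
      st_mk (1 + r z.1 * ρ z.2 / (r z.1 - 1))) (mem_univ (i, j))
    tauto
  have hKf : ∀ j i, ∃ κ ∈ K, ((κ : ℚˣ) : ℚ)
      = (r i * ρ j + r i - 1) / ((r i - 1) * (ρ j + 1)) := by
    intro j i
    have e1 : 0 < r i * ρ j + r i - 1 := by
      have := mul_pos (hr0 i) (hρ j)
      have := hr1 i
      linarith
    have e2 : 0 < ρ j + 1 := by have := hρ j; linarith
    refine ⟨st_mk ((r i * ρ j + r i - 1) / ((r i - 1) * (ρ j + 1))), ?_,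
      st_mk_coe (div_pos e1 (mul_pos (hr1 i) e2)).ne'⟩
    rw [hK]
    simp only [mem_union]
    have := mem_image_of_mem (fun z : Fin q × Fin q' =>
      st_mk ((r z.1 * ρ z.2 + r z.1 - 1) / ((r z.1 - 1) * (ρ z.2 + 1)))) (mem_univ (i, j))
    tauto
  refine ⟨M, σ, fun _ => 1 / (M : ℝ), fun _ => by positivity, ?_, ?_⟩
  · have : (M : ℝ) ≠ 0 := by exact_mod_cast hG.hm.ne'
    simp [this]
  intro Ω _ p x t hp hd
  have hh0 : 0 ≤ hh p x t := hh_nonneg hp
  have i1 := avg_I hp hd hη.le hG hK1 hKm hTA hT1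
  have i2 := avg_II hp hd hη.le hG hK1 hTA hα0 hη.le hr hw hw1 hI hT2 hKd
  have i3 : ∀ j, 4 * hh p x t - 2 * avf p x t σ u - avB p x t σ u - avF p x t σ u (ρ j)
      ≤ α * (2 * avB p x t σ u - avA p x t σ u - avF p x t σ u (ρ j))
        + (6 * α * η + 4 * η) * hh p x t := fun j =>
    avg_III hp hd hη.le hG hK1 hα0 hη.le hr hw hw1 hI (hρ j) hKa hKb (hKe j) (hKf j) hKc hKd
  have i4 := avg_IV hp hd hη.le hG hK1 hl hη.le hv1 hJ hK2
  have i5 := avg_V (x := x) (t := t) hp hη.le hG hTA hTB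
  obtain ⟨F, hF⟩ : ∃ F : ℝ, F = ∑ j, v j * avF p x t σ u (ρ j) := ⟨_, rfl⟩
  have i3' : 4 * hh p x t - 2 * avf p x t σ u - avB p x t σ u - F
      ≤ α * (2 * avB p x t σ u - avA p x t σ u - F)
        + (6 * α * η + 4 * η) * hh p x t := by
    have e1 := sum_le_sum fun j (_ : j ∈ univ) => mul_le_mul_of_nonneg_left (i3 j) (hv j)
    have e2 : ∑ j, v j * (4 * hh p x t - 2 * avf p x t σ u - avB p x t σ u
        - avF p x t σ u (ρ j)) = (4 * hh p x t - 2 * avf p x t σ u - avB p x t σ u) - F := by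
      rw [hF]
      simp only [mul_sub, sum_sub_distrib, ← sum_mul, hv1]
      ring
    have e3 : ∑ j, v j * (α * (2 * avB p x t σ u - avA p x t σ u - avF p x t σ u (ρ j))
        + (6 * α * η + 4 * η) * hh p x t)
        = α * (2 * avB p x t σ u - avA p x t σ u - F) + (6 * α * η + 4 * η) * hh p x t := by
      have e4 : ∀ j, v j * (α * (2 * avB p x t σ u - avA p x t σ u - avF p x t σ u (ρ j))
        + (6 * α * η + 4 * η) * hh p x t)
        = v j * (α * (2 * avB p x t σ u - avA p x t σ u) + (6 * α * η + 4 * η) * hh p x t)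
          - α * (v j * avF p x t σ u (ρ j)) := fun j => by ring
      rw [sum_congr rfl fun j _ => e4 j, sum_sub_distrib, ← sum_mul, hv1, ← mul_sum, ← hF]
      ring
    rw [e2, e3] at e1
    exact e1
  rw [← hF] at i4
  have hηh : 0 ≤ η * hh p x t := mul_nonneg hη.le hh0
  have hαη : 0 ≤ α * (η * hh p x t) := mul_nonneg hα0 hηh
  have hlη : 0 ≤ l * (η * hh p x t) := mul_nonneg hl hηh
  obtain ⟨e, he⟩ : ∃ e : ℝ, e = C₁ * η * hh p x t := ⟨_, rfl⟩
  have he' : e = 10 * (η * hh p x t) + 10 * (α * (η * hh p x t)) + 2 * (l * (η * hh p x t)) := by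
    rw [he, hC₁]
    ring
  have key := elim_core (e := e) (h := hh p x t) (f := avf p x t σ u) (A := avA p x t σ u)
    (β := avB p x t σ u) (Z := avZ p x t σ u) (F := F) hα hm hA hB
    (by rw [he']; linarith) (by rw [he']; linarith) (by rw [he']; linarith)
    (by rw [he']; linarith) (by rw [he']; linarith)
  rw [← hC₂] at key
  have hE := E3_s (σ := σ) (u := u) hG.hn (fun s => ph p x t s)
  have hav : avf p x t σ u = ∑ i, 1 / (M : ℝ) * H p (fun ω => x ω + σ i * t ω) := by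
    unfold avf
    rw [hE, Finset.sum_div]
    apply sum_congr rfl
    intro i _
    rw [one_div, inv_mul_eq_div]
    rfl
  have hCe : C₂ * e ≤ ε * gden α l m * hh p x t := by
    rw [he]
    have := mul_le_mul_of_nonneg_right hηε hh0
    linarith
  change hh p x t ≤ 0 * H p x + gnum α l m / gden α l m
    * ∑ i, 1 / (M : ℝ) * H p (fun ω => x ω + σ i * t ω) + ε * hh p x t
  rw [← hav, zero_mul, zero_add]
  have h5 : gden α l m * hh p x t ≤ gnum α l m * avf p x t σ u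
      + ε * gden α l m * hh p x t := by linarith
  have h6 : hh p x t = (gden α l m * hh p x t) / gden α l m := by field_simp
  rw [h6]
  have h7 : gnum α l m / gden α l m * avf p x t σ u
      + ε * (gden α l m * hh p x t / gden α l m)
      = (gnum α l m * avf p x t σ u + ε * gden α l m * hh p x t) / gden α l m := by
    field_simp
  rw [h7]
  exact div_le_div_of_nonneg_right h5 hD.le

end H51K
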