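import Pool.Agent.Lib.H51K.S1
import Pool.Agent.Lib.H51K.K2

/-!
# H51K/W1: two inequalities in V (for the weighted box)
-/

namespace H51K

open Finset

variable {Ω : Type} [Fintype Ω] {p : Ω → ℝ} {x t : Ω → ℚ}

/-- (w1) `H(V_s) ≤ A^s(u, v) + φ(s + v)`: with `w = y_s + u t₁ + v t₂` and
`q = y_{s+v}` of line 2 (`= y_s + v t₂`): `(w, q)` gives `u t₁ = w - q`, so `t₁`, so line 1
(`hd`), so `y_s`, then `v t₂ = q - y_s`, so line 2. `H_le_add`, `H_VV`, `H_glue_snd`. -/
theorem w1_ineq (hp : IsPr p) (hd : Det p t x) (s : ℚ) {u v : ℚ} (hu : u ≠ 0) (hv : v ≠ 0) :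
    2 * hh p x t - ph p x t s ≤ AA p x t s u v + ph p x t (s + v) := by
  have key : Det (VV p x t s)
      (fun ω => (yy x t (s + u) ω.1 + v * t ω.2, yy x t (s + v) ω.2))
      (fun ω => (fl x t ω.1, fl x t ω.2)) := by
    intro a b ha hb h
    obtain ⟨a1, a2, a3⟩ := VV_supp ha
    obtain ⟨b1, b2, b3⟩ := VV_supp hb
    have h1 : yy x t (s + u) a.1 + v * t a.2 = yy x t (s + u) b.1 + v * t b.2 :=
      congrArg Prod.fst h
    have h2 : yy x t (s + v) a.2 = yy x t (s + v) b.2 := congrArg Prod.snd h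
    simp only [yy] at a3 b3 h1 h2
    have e1 : u * (t a.1 - t b.1) = 0 := by linear_combination h1 - h2 - a3 + b3
    have e2 : t a.1 = t b.1 := by
      rcases mul_eq_zero.1 e1 with e | e
      · exact absurd e hu
      · linarith
    have e3 : x a.1 = x b.1 := hd _ _ a1 b1 e2
    have e4 : v * (t a.2 - t b.2) = 0 := by
      rw [e2, e3] at a3
      linear_combination h2 - b3 + a3
    have e5 : t a.2 = t b.2 := by
      rcases mul_eq_zero.1 e4 with e | e
      · exact absurd e hv
      · linarith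
    have e6 : x a.2 = x b.2 := hd _ _ a2 b2 e5
    simp only [fl, e2, e3, e5, e6]
  have h1 := H_le_add (VV_isPr (x := x) (t := t) hp s)
    (fun ω => yy x t (s + u) ω.1 + v * t ω.2) (fun ω => yy x t (s + v) ω.2) _ key
  have h3 : H (VV p x t s) (fun ω => yy x t (s + v) ω.2) = ph p x t (s + v) :=
    H_glue_snd hp hp (fun _ => rfl) (yy x t (s + v))
  rw [H_VV hp, h3] at h1
  exact h1

/-- (w2) `H(V_s) - A^s(u,v) ≤ α ∑ w_k (φ(s + u k) + φ(s + v k/(k-1)) - A^s(u,v)) + 2 ε h`,
`k = r i > 1`. `BoxI.cond` on `V_s` for the system `(y_s, u t₁)` given `w = y_s + u t₁ + v t₂`: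
given `w`, `u t₁` determines `t₁`, line 1, `y_s`, `v t₂`, line 2. The left side is
`H(V_s) - A^s(u,v)` (`H_VV`; everything is determined by `((y_s, u t₁), w)` and conversely).
For each `k`: `q = y_s + k u t₁ = y_{s+uk}` of line 1, `q' = y_s + v k/(k-1) t₂` (line 2),
`w = (1/k) q + (1 - 1/k) q'`, so `H(q, w) ≤ H(q) + H(q') = φ(s+uk) + φ(s + v k/(k-1))`
(`H_le_add`, `H_glue_fst`, `H_glue_snd`). The last term: `ε * (H - A) ≤ ε * 2 h`. -/
theorem w2_ineq (hp : IsPr p) (hd : Det p t x) {α ε : ℝ} {n : ℕ} {r : Fin n → ℚ}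
    {w : Fin n → ℝ} (hα : 0 ≤ α) (hε : 0 ≤ ε) (hr : ∀ i, 1 < r i) (hw : ∀ i, 0 ≤ w i)
    (hB : BoxI 0 α ε r w) (s : ℚ) {u v : ℚ} (hu : u ≠ 0) (hv : v ≠ 0) :
    (2 * hh p x t - ph p x t s) - AA p x t s u v
      ≤ α * ∑ i, w i * (ph p x t (s + u * r i) + ph p x t (s + v * (r i / (r i - 1)))
          - AA p x t s u v) + ε * (2 * hh p x t) := by
  have hV := VV_isPr (x := x) (t := t) hp s
  -- the conditional box
  have hdd : Det (VV p x t s)
      (fun ω => (u * t ω.1, yy x t (s + u) ω.1 + v * t ω.2)) (fun ω => yy x t s ω.1) := by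
    intro a b ha hb h
    obtain ⟨a1, a2, a3⟩ := VV_supp ha
    obtain ⟨b1, b2, b3⟩ := VV_supp hb
    have h1 : u * t a.1 = u * t b.1 := congrArg Prod.fst h
    have e2 : t a.1 = t b.1 := mul_left_cancel₀ hu h1
    have e3 : x a.1 = x b.1 := hd _ _ a1 b1 e2
    simp only [yy, e2, e3]
  have hbox := hB.cond hV (fun ω => yy x t s ω.1) (fun ω => u * t ω.1)
    (fun ω => yy x t (s + u) ω.1 + v * t ω.2) hdd
  -- the full entropy
  have hfull : H (VV p x t s) (fun ω => ((yy x t s ω.1, u * t ω.1),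
      yy x t (s + u) ω.1 + v * t ω.2)) = 2 * hh p x t - ph p x t s := by
    rw [← H_VV hp]
    refine H_eq_of_det hV ?_ ?_
    · intro a b ha hb h
      obtain ⟨a1, a2, a3⟩ := VV_supp ha
      obtain ⟨b1, b2, b3⟩ := VV_supp hb
      have h0 : (yy x t s a.1, u * t a.1) = (yy x t s b.1, u * t b.1) := congrArg Prod.fst h
      have h1 : u * t a.1 = u * t b.1 := congrArg Prod.snd h0
      have h2 : yy x t (s + u) a.1 + v * t a.2 = yy x t (s + u) b.1 + v * t b.2 :=
        congrArg Prod.snd h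
      have e2 : t a.1 = t b.1 := mul_left_cancel₀ hu h1
      have e3 : x a.1 = x b.1 := hd _ _ a1 b1 e2
      simp only [yy, e2, e3] at a3 b3 h2
      have e4 : v * t a.2 = v * t b.2 := by linarith
      have e5 : t a.2 = t b.2 := mul_left_cancel₀ hv e4
      have e6 : x a.2 = x b.2 := hd _ _ a2 b2 e5
      simp only [fl, e2, e3, e5, e6]
    · intro a b ha hb h
      have h1 : fl x t a.1 = fl x t b.1 := congrArg Prod.fst h
      have h2 : x a.1 = x b.1 := congrArg Prod.fst h1
      have h3 : t a.1 = t b.1 := congrArg Prod.snd h1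
      have h4 : fl x t a.2 = fl x t b.2 := congrArg Prod.snd h
      have h6 : t a.2 = t b.2 := congrArg Prod.snd h4
      simp only [yy, h2, h3, h6]
  have hA : H (VV p x t s) (fun ω => yy x t (s + u) ω.1 + v * t ω.2) = AA p x t s u v := rfl
  -- the terms
  have hterm : ∀ i, H (VV p x t s) (fun ω => (yy x t s ω.1 + r i * (u * t ω.1),
      yy x t (s + u) ω.1 + v * t ω.2))
      ≤ ph p x t (s + u * r i) + ph p x t (s + v * (r i / (r i - 1))) := by
    intro i
    have hk1 : r i ≠ 0 := by have := hr i; linarith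
    have hk2 : r i - 1 ≠ 0 := by have := hr i; linarith
    have key : Det (VV p x t s)
        (fun ω => (yy x t (s + u * r i) ω.1, yy x t (s + v * (r i / (r i - 1))) ω.2))
        (fun ω => (yy x t s ω.1 + r i * (u * t ω.1), yy x t (s + u) ω.1 + v * t ω.2)) := by
      intro a b ha hb h
      obtain ⟨a1, a2, a3⟩ := VV_supp ha
      obtain ⟨b1, b2, b3⟩ := VV_supp hb
      have h1 : yy x t (s + u * r i) a.1 = yy x t (s + u * r i) b.1 := congrArg Prod.fst h
      have h2 : yy x t (s + v * (r i / (r i - 1))) a.2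
          = yy x t (s + v * (r i / (r i - 1))) b.2 := congrArg Prod.snd h
      have hw : ∀ c : Ω × Ω, yy x t s c.1 = yy x t s c.2 →
          yy x t (s + u) c.1 + v * t c.2 = (1 / r i) * yy x t (s + u * r i) c.1
            + (1 - 1 / r i) * yy x t (s + v * (r i / (r i - 1))) c.2 := by
        intro c hc
        simp only [yy] at hc ⊢
        field_simp
        linear_combination (r i - 1) * hc
      have hq : ∀ c : Ω × Ω, yy x t s c.1 + r i * (u * t c.1) = yy x t (s + u * r i) c.1 := by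
        intro c
        simp only [yy]
        ring
      simp only [Prod.mk.injEq]
      refine ⟨?_, ?_⟩
      · rw [hq a, hq b, h1]
      · rw [hw a a3, hw b b3, h1, h2]
    have h1 := H_le_add hV _ _ _ key
    have h2 : H (VV p x t s) (fun ω => yy x t (s + u * r i) ω.1) = ph p x t (s + u * r i) :=
      H_glue_fst hp hp (fun _ => rfl) (yy x t (s + u * r i))
    have h3 : H (VV p x t s) (fun ω => yy x t (s + v * (r i / (r i - 1))) ω.2)
        = ph p x t (s + v * (r i / (r i - 1))) :=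
      H_glue_snd hp hp (fun _ => rfl) (yy x t (s + v * (r i / (r i - 1))))
    rw [h2, h3] at h1
    exact h1
  rw [hfull, hA] at hbox
  have hsum : ∑ i, w i * (H (VV p x t s) (fun ω => (yy x t s ω.1 + r i * (u * t ω.1),
      yy x t (s + u) ω.1 + v * t ω.2)) - AA p x t s u v)
      ≤ ∑ i, w i * (ph p x t (s + u * r i) + ph p x t (s + v * (r i / (r i - 1)))
          - AA p x t s u v) := by
    refine Finset.sum_le_sum (fun i _ => mul_le_mul_of_nonneg_left ?_ (hw i))
    linarith [hterm i]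
  have hsum' := mul_le_mul_of_nonneg_left hsum hα
  have hA0 : 0 ≤ AA p x t s u v := H_nonneg hV _
  have hp0 : 0 ≤ ph p x t s := H_nonneg hp _
  have hlast : ε * (2 * hh p x t - ph p x t s - AA p x t s u v) ≤ ε * (2 * hh p x t) :=
    mul_le_mul_of_nonneg_left (by linarith) hε
  have hbox' := hbox
  simp only [zero_mul, zero_add] at hbox'
  linarith

end H51K
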